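import Mathlib

/-!
# Window densities on sets of integers

For a set `A` of admissible starting points, `D A X` is the infimum of the `c ≥ 0` such that every
window `(a, a+n]` with `a ∈ A` holds at most `c n + O(1)` elements of `X`. For `A = {0}` this is
the upper asymptotic density, for `A = univ` the upper Banach density.
-/

namespace Pool.Agent.R354.Dens

/-- number of elements of `X` in the window `(a, a+n]` -/
noncomputable def cnt (X : Set ℤ) (a : ℤ) (n : ℕ) : ℕ := (X ∩ Set.Ioc a (a + n)).ncard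

/-- admissible linear bounds for the window counts -/
def bnds (A X : Set ℤ) : Set ℝ :=
  {c | 0 ≤ c ∧ ∃ K : ℝ, ∀ a ∈ A, ∀ n : ℕ, (cnt X a n : ℝ) ≤ c * n + K}

/-- the window density -/
noncomputable def D (A X : Set ℤ) : ℝ := sInf (bnds A X)

lemma win_fin (X : Set ℤ) (a : ℤ) (n : ℕ) : (X ∩ Set.Ioc a (a + n)).Finite :=
  (Set.finite_Ioc _ _).subset Set.inter_subset_right

lemma ncard_Ioc (a b : ℤ) : (Set.Ioc a b).ncard = (b - a).toNat := by
  rw [← Finset.coe_Ioc, Set.ncard_coe_finset, Int.card_Ioc]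

lemma cnt_le (X : Set ℤ) (a : ℤ) (n : ℕ) : cnt X a n ≤ n := by
  unfold cnt
  calc _ ≤ (Set.Ioc a (a + n)).ncard :=
        Set.ncard_le_ncard Set.inter_subset_right (Set.finite_Ioc _ _)
    _ = n := by rw [ncard_Ioc]; simp

lemma cnt_mono {X Y : Set ℤ} (h : X ⊆ Y) (a : ℤ) (n : ℕ) : cnt X a n ≤ cnt Y a n :=
  Set.ncard_le_ncard (Set.inter_subset_inter_left _ h) (win_fin _ _ _)

lemma cnt_union (X Y : Set ℤ) (a : ℤ) (n : ℕ) : cnt (X ∪ Y) a n ≤ cnt X a n + cnt Y a n := by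
  unfold cnt
  rw [Set.union_inter_distrib_right]
  exact Set.ncard_union_le _ _

lemma cnt_full {X : Set ℤ} {a : ℤ} {n : ℕ} (h : Set.Ioc a (a + n) ⊆ X) : cnt X a n = n := by
  unfold cnt
  rw [Set.inter_eq_self_of_subset_right h, ncard_Ioc]; simp

lemma cnt_shift (X : Set ℤ) (a a' : ℤ) (n : ℕ) :
    cnt X a n ≤ cnt X a' n + (a - a').natAbs := by
  unfold cnt
  rcases le_total a a' with h | h
  · calc (X ∩ Set.Ioc a (a + n)).ncard
        ≤ ((X ∩ Set.Ioc a' (a' + n)) ∪ Set.Ioc a a').ncard := by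
          apply Set.ncard_le_ncard _ ((win_fin _ _ _).union (Set.finite_Ioc _ _))
          rintro x ⟨hx, h1, h2⟩
          by_cases hxa : x ≤ a'
          · exact Or.inr ⟨h1, hxa⟩
          · exact Or.inl ⟨hx, by omega, by omega⟩
      _ ≤ _ := Set.ncard_union_le _ _
      _ = _ := by rw [ncard_Ioc]; omega
  · calc (X ∩ Set.Ioc a (a + n)).ncard
        ≤ ((X ∩ Set.Ioc a' (a' + n)) ∪ Set.Ioc (a' + n) (a + n)).ncard := by
          apply Set.ncard_le_ncard _ ((win_fin _ _ _).union (Set.finite_Ioc _ _))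
          rintro x ⟨hx, h1, h2⟩
          by_cases hxa : x ≤ a' + n
          · exact Or.inl ⟨hx, by omega, by omega⟩
          · exact Or.inr ⟨by omega, by omega⟩
      _ ≤ _ := Set.ncard_union_le _ _
      _ = _ := by rw [ncard_Ioc]; omega

/-- `k X + h` -/
def aff (k h : ℤ) (X : Set ℤ) : Set ℤ := (fun x => k * x + h) '' X

lemma cnt_aff_le (k : ℕ) (hk : 0 < k) (h : ℤ) (X : Set ℤ) (a : ℤ) (n : ℕ) :
    cnt (aff k h X) a n ≤ cnt X ((a - h) / k) (n / k + 1) := by
  unfold cnt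
  have hk' : (0 : ℤ) < k := by exact_mod_cast hk
  calc _ ≤ ((fun x => (k : ℤ) * x + h) ''
        (X ∩ Set.Ioc ((a - h) / k) ((a - h) / k + ((n / k + 1 : ℕ) : ℤ)))).ncard := by
        apply Set.ncard_le_ncard _ ((win_fin _ _ _).image _)
        rintro y ⟨⟨x, hx, rfl⟩, h1, h2⟩
        refine ⟨x, ⟨hx, ?_, ?_⟩, rfl⟩
        · simp only at h1
          have := Int.ediv_mul_le (a - h) hk'.ne'
          by_contra hc
          push Not at hc
          have : (k : ℤ) * x ≤ (a - h) / k * k := by nlinarith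
          omega
        · simp only at h2
          have e1 : a - h < ((a - h) / k + 1) * k := Int.lt_ediv_add_one_mul_self _ hk'
          have e2 : (n : ℤ) < ((n / k : ℕ) + 1) * k := by
            have := Nat.lt_mul_div_succ n hk
            rw [mul_comm] at this
            exact_mod_cast this
          by_contra hc
          push Not at hc
          push_cast at hc e2
          have : (k : ℤ) * ((a - h) / k + ((n : ℤ) / k + 1) + 1) ≤ k * x := by
            apply mul_le_mul_of_nonneg_left _ hk'.le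
            omega
          nlinarith
    _ ≤ _ := Set.ncard_image_le (win_fin _ _ _)

lemma cnt_le_aff (k : ℕ) (hk : 0 < k) (h : ℤ) (X : Set ℤ) (a : ℤ) (n : ℕ) :
    cnt X a n ≤ cnt (aff k h X) (k * a + h) (k * n) := by
  unfold cnt
  have hk' : (0 : ℤ) < k := by exact_mod_cast hk
  have hinj : Function.Injective (fun x : ℤ => (k : ℤ) * x + h) := by
    intro x y hxy
    simp only [add_left_inj] at hxy
    exact mul_left_cancel₀ hk'.ne' hxy
  rw [← Set.ncard_image_of_injective _ hinj]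
  apply Set.ncard_le_ncard _ (win_fin _ _ _)
  rintro y ⟨x, ⟨hx, h1, h2⟩, rfl⟩
  refine ⟨⟨x, hx, rfl⟩, ?_, ?_⟩
  · simp only
    nlinarith
  · simp only
    push_cast
    nlinarith

lemma one_mem (A X : Set ℤ) : (1 : ℝ) ∈ bnds A X :=
  ⟨zero_le_one, 0, fun a _ n => by simpa using cnt_le X a n⟩

lemma bdd (A X : Set ℤ) : BddBelow (bnds A X) := ⟨0, fun _ hc => hc.1⟩

lemma D_le {A X : Set ℤ} {c : ℝ} (h : c ∈ bnds A X) : D A X ≤ c := csInf_le (bdd A X) h

lemma le_D {A X : Set ℤ} {r : ℝ} (h : ∀ c ∈ bnds A X, r ≤ c) : r ≤ D A X :=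
  le_csInf ⟨1, one_mem A X⟩ h

lemma D_nonneg (A X : Set ℤ) : 0 ≤ D A X := le_D fun _ hc => hc.1

lemma D_le_one (A X : Set ℤ) : D A X ≤ 1 := D_le (one_mem A X)

lemma D_mono {A X Y : Set ℤ} (h : X ⊆ Y) : D A X ≤ D A Y := by
  apply le_D
  rintro c ⟨hc, K, hK⟩
  apply D_le
  refine ⟨hc, K, fun a ha n => le_trans ?_ (hK a ha n)⟩
  exact_mod_cast cnt_mono h a n

lemma D_anti {A B : Set ℤ} (h : A ⊆ B) (X : Set ℤ) : D A X ≤ D B X := by
  apply le_D
  rintro c ⟨hc, K, hK⟩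
  apply D_le
  exact ⟨hc, K, fun a ha n => hK a (h ha) n⟩

lemma D_union (A X Y : Set ℤ) : D A (X ∪ Y) ≤ D A X + D A Y := by
  have h1 : ∀ c₁ ∈ bnds A X, ∀ c₂ ∈ bnds A Y, D A (X ∪ Y) ≤ c₁ + c₂ := by
    rintro c₁ ⟨h₁, K₁, hK₁⟩ c₂ ⟨h₂, K₂, hK₂⟩
    apply D_le
    refine ⟨by positivity, K₁ + K₂, fun a ha n => ?_⟩
    have := cnt_union X Y a n
    have h3 : ((cnt (X ∪ Y) a n : ℕ) : ℝ) ≤ cnt X a n + cnt Y a n := by exact_mod_cast this
    have := hK₁ a ha n
    have := hK₂ a ha n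
    linarith
  have h2 : ∀ c₁ ∈ bnds A X, D A (X ∪ Y) - c₁ ≤ D A Y := fun c₁ hc₁ =>
    le_D fun c₂ hc₂ => by linarith [h1 c₁ hc₁ c₂ hc₂]
  have h3 : D A (X ∪ Y) - D A Y ≤ D A X := le_D fun c₁ hc₁ => by linarith [h2 c₁ hc₁]
  linarith

/-- starting points are, up to bounded errors, closed under the affine changes -/
def Cl (A : Set ℤ) : Prop :=
  ∀ (k : ℕ) (h : ℤ), 0 < k → ∃ K : ℕ, ∀ a ∈ A,
    (∃ a' ∈ A, ((a - h) / k - a').natAbs ≤ K) ∧ (∃ a' ∈ A, (k * a + h - a').natAbs ≤ K)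

lemma cl_zero : Cl {0} := by
  intro k h hk
  refine ⟨((0 - h) / k).natAbs + h.natAbs, ?_⟩
  rintro a rfl
  refine ⟨⟨0, rfl, ?_⟩, ⟨0, rfl, ?_⟩⟩
  · omega
  · simp

lemma cl_univ : Cl Set.univ := by
  intro k h hk
  refine ⟨0, fun a _ => ⟨⟨_, Set.mem_univ ((a - h) / k), by simp⟩,
    ⟨_, Set.mem_univ (k * a + h), by simp⟩⟩⟩

lemma D_aff {A : Set ℤ} (hA : Cl A) (k : ℕ) (hk : 0 < k) (h : ℤ) (X : Set ℤ) :
    D A (aff k h X) = 1 / (k : ℝ) * D A X := by
  obtain ⟨K', hK'⟩ := hA k h hk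
  have hkr : (0 : ℝ) < k := by exact_mod_cast hk
  apply le_antisymm
  · rw [one_div, inv_mul_eq_div, le_div_iff₀ hkr]
    apply le_D
    rintro c ⟨hc, K, hK⟩
    rw [← le_div_iff₀ hkr]
    apply D_le
    refine ⟨by positivity, c + K + K', fun a ha n => ?_⟩
    obtain ⟨a', ha', hd⟩ := (hK' a ha).1
    have h1 := cnt_aff_le k hk h X a n
    have h2 := cnt_shift X ((a - h) / k) a' (n / k + 1)
    have h3 := hK a' ha' (n / k + 1)
    have h4 : ((cnt (aff k h X) a n : ℕ) : ℝ) ≤ cnt X a' (n / k + 1) + K' := by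
      exact_mod_cast le_trans h1 (le_trans h2 (by omega))
    have h5 : ((n / k : ℕ) : ℝ) ≤ n / k := Nat.cast_div_le
    push_cast at h3
    have h6 : c * ((n / k : ℕ) : ℝ) ≤ c / k * n := by
      calc c * ((n / k : ℕ) : ℝ) ≤ c * (n / k) := mul_le_mul_of_nonneg_left h5 hc
        _ = c / k * n := by ring
    linarith
  · rw [one_div, inv_mul_eq_div, div_le_iff₀ hkr]
    rw [← div_le_iff₀ hkr]
    apply le_D
    rintro c ⟨hc, K, hK⟩
    rw [div_le_iff₀ hkr]
    apply D_le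
    refine ⟨by positivity, K + K', fun a ha n => ?_⟩
    obtain ⟨a', ha', hd⟩ := (hK' a ha).2
    have h1 := cnt_le_aff k hk h X a n
    have h2 := cnt_shift (aff k h X) (k * a + h) a' (k * n)
    have h3 := hK a' ha' (k * n)
    have h4 : ((cnt X a n : ℕ) : ℝ) ≤ cnt (aff k h X) a' (k * n) + K' := by
      exact_mod_cast le_trans h1 (le_trans h2 (by omega))
    push_cast at h3
    linarith

lemma D_eq_one {A X : Set ℤ} (h : ∀ n : ℕ, ∃ a ∈ A, Set.Ioc a (a + n) ⊆ X) : D A X = 1 := by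
  apply le_antisymm (D_le_one A X)
  apply le_D
  rintro c ⟨hc, K, hK⟩
  by_contra hlt
  push Not at hlt
  obtain ⟨n, hn⟩ := exists_nat_gt (K / (1 - c))
  obtain ⟨a, ha, hsub⟩ := h n
  have h1 := hK a ha n
  rw [cnt_full hsub] at h1
  rw [div_lt_iff₀ (by linarith)] at hn
  linarith

/-- the thin set with long intervals -/
def Z : Set ℤ := {x | ∃ n : ℕ, 3 ≤ n ∧ (n.factorial : ℤ) ≤ x ∧ x ≤ n.factorial + n}

lemma fact_growth (M : ℕ) : (M + 1) ^ 2 * M ≤ 9 * M.factorial := by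
  rcases Nat.lt_or_ge M 2 with h | h
  · interval_cases M <;> simp
  · induction M, h using Nat.le_induction with
    | base => simp [Nat.factorial]
    | succ n hn ih =>
      rw [Nat.factorial_succ]
      have : (n + 1 + 1) ^ 2 ≤ (n + 1) ^ 2 * n := by nlinarith
      nlinarith

lemma cnt_Z (N : ℕ) : ∃ M : ℕ, cnt Z 0 N ≤ (M + 1) ^ 2 ∧ (M.factorial ≤ N ∨ M = 0) := by
  classical
  refine ⟨Nat.findGreatest (fun n => n.factorial ≤ N) N, ?_, ?_⟩
  · set M := Nat.findGreatest (fun n => n.factorial ≤ N) N with hM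
    unfold cnt
    have hsub : Z ∩ Set.Ioc (0 : ℤ) (0 + N) ⊆
        (((Finset.range (M + 1)).biUnion fun n =>
          Finset.Icc (n.factorial : ℤ) (n.factorial + n) : Finset ℤ) : Set ℤ) := by
      rintro x ⟨⟨n, hn3, hn1, hn2⟩, h1, h2⟩
      simp only [Finset.coe_biUnion, Finset.coe_range, Set.mem_Iio, Finset.coe_Icc,
        Set.mem_iUnion, Set.mem_Icc, exists_prop]
      have hnN : n.factorial ≤ N := by
        have : (n.factorial : ℤ) ≤ N := by linarith
        exact_mod_cast this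
      refine ⟨n, ?_, hn1, hn2⟩
      have : n ≤ M := Nat.le_findGreatest (le_trans n.self_le_factorial hnN) hnN
      omega
    calc _ ≤ ((((Finset.range (M + 1)).biUnion fun n =>
          Finset.Icc (n.factorial : ℤ) (n.factorial + n) : Finset ℤ) : Set ℤ)).ncard :=
          Set.ncard_le_ncard hsub (Finset.finite_toSet _)
      _ = ((Finset.range (M + 1)).biUnion fun n =>
          Finset.Icc (n.factorial : ℤ) (n.factorial + n)).card := Set.ncard_coe_finset _
      _ ≤ ∑ n ∈ Finset.range (M + 1), (Finset.Icc (n.factorial : ℤ) (n.factorial + n)).card :=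
          Finset.card_biUnion_le
      _ ≤ ∑ n ∈ Finset.range (M + 1), (M + 1) := by
          apply Finset.sum_le_sum
          intro n hn
          rw [Int.card_Icc]
          have := Finset.mem_range.mp hn
          omega
      _ = (M + 1) ^ 2 := by simp [sq]
  · by_cases h0 : Nat.findGreatest (fun n => n.factorial ≤ N) N = 0
    · exact Or.inr h0
    · exact Or.inl (Nat.findGreatest_of_ne_zero (P := fun n => n.factorial ≤ N) (n := N) rfl h0)

lemma D_Z : D {0} Z = 0 := by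
  apply le_antisymm _ (D_nonneg _ _)
  apply le_of_forall_pos_le_add
  intro ε hε
  rw [zero_add]
  apply D_le
  refine ⟨hε.le, (9 / ε + 1) ^ 2, ?_⟩
  rintro a rfl N
  obtain ⟨M, hM, hMN⟩ := cnt_Z N
  have hMr : ((cnt Z 0 N : ℕ) : ℝ) ≤ ((M : ℝ) + 1) ^ 2 := by exact_mod_cast hM
  refine hMr.trans ?_
  rcases le_total (M : ℝ) (9 / ε) with h | h
  · have : ((M : ℝ) + 1) ^ 2 ≤ (9 / ε + 1) ^ 2 := by gcongr
    have : 0 ≤ ε * N := by positivity
    linarith
  · have hMpos : (0 : ℝ) < M := lt_of_lt_of_le (by positivity) h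
    have hM0 : M ≠ 0 := by
      rintro rfl
      simp at hMpos
    have hfac : M.factorial ≤ N := hMN.resolve_right hM0
    have hfr : (M.factorial : ℝ) ≤ N := by exact_mod_cast hfac
    have hg : ((M : ℝ) + 1) ^ 2 * M ≤ 9 * M.factorial := by exact_mod_cast fact_growth M
    have h9 : 9 ≤ ε * M := by rwa [div_le_iff₀ hε, mul_comm] at h
    have h1 : ((M : ℝ) + 1) ^ 2 * 9 ≤ ε * N * 9 := by
      calc ((M : ℝ) + 1) ^ 2 * 9 ≤ ((M : ℝ) + 1) ^ 2 * (ε * M) := by gcongr
        _ = ε * (((M : ℝ) + 1) ^ 2 * M) := by ring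
        _ ≤ ε * (9 * M.factorial) := by gcongr
        _ ≤ ε * (9 * N) := by gcongr
        _ = _ := by ring
    have : 0 ≤ (9 / ε + 1) ^ 2 := by positivity
    linarith

lemma D_fin {F : Set ℤ} (hF : F.Finite) : D {0} F = 0 := by
  apply le_antisymm _ (D_nonneg _ _)
  apply D_le
  refine ⟨le_rfl, F.ncard, ?_⟩
  rintro a rfl N
  have : cnt F 0 N ≤ F.ncard := Set.ncard_le_ncard Set.inter_subset_left hF
  rw [zero_mul, zero_add]
  exact_mod_cast this

lemma Z_long (n : ℕ) : ∃ a : ℤ, 0 ≤ a ∧ Set.Ioc a (a + n) ⊆ Z := by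
  refine ⟨(n + 3).factorial, by positivity, ?_⟩
  rintro x ⟨h1, h2⟩
  exact ⟨n + 3, by omega, h1.le, by push_cast; omega⟩

end Pool.Agent.R354.Dens
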