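import Mathlib
import Pool.Agent.H364R2.EEa

set_option autoImplicit false

/-!
# The approximation constants of the fractions `r n / q n`

`D n = q n * I n = q n * |q n e - r n|` satisfies `(2 n + 1) D n = 1 - h n` with `h n` positive, of
size about `1 / (8 n ^ 2)`, and decreasing, with `h n - h m ≥ 1 / (4 n + 4) ^ 3` for `m > n`.
-/

namespace Pool.Agent.R354.EE

open Real Pool.Agent.H43R2.Cplx.EMeas Pool.Agent.H364R2.EE

/-- `q n * |q n e - r n|` -/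
noncomputable def D (n : ℕ) : ℝ := q n * I n

/-- `q n * |q (n + 1) e - r (n + 1)|` -/
noncomputable def E (n : ℕ) : ℝ := q n * I (n + 1)

/-- the deviation -/
noncomputable def h (n : ℕ) : ℝ := 1 - (2 * (n : ℝ) + 1) * D n

lemma D_eq (n : ℕ) : (2 * (n : ℝ) + 1) * D n = 1 - h n := by unfold h; ring

lemma qpos (n : ℕ) : (0 : ℝ) < q n := by exact_mod_cast (q_pos n).1

lemma D_pos (n : ℕ) : 0 < D n := mul_pos (qpos n) (I_pos n)

lemma E_pos (n : ℕ) : 0 < E n := mul_pos (qpos n) (I_pos (n + 1))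

lemma qI (n : ℕ) : (q (n + 1) : ℝ) * I n = 2 - E n := by
  have := q_I n
  unfold E
  linarith

lemma h_eq (k : ℕ) : h (k + 1) = (E k + E (k + 1)) / 2 := by
  have h1 := q_I (k + 1)
  have h2 : (q (k + 1 + 1) : ℝ) = (4 * (k : ℝ) + 6) * q (k + 1) + q k := by
    rw [show k + 1 + 1 = k + 2 by ring]
    simp only [q]
    push_cast
    ring
  rw [h2] at h1
  unfold h D E
  push_cast
  linarith

/-- upper bound for the quotient of denominators -/
lemma q_le (k : ℕ) (hk : 1 ≤ k) : (q (k + 1) : ℝ) ≤ (4 * (k : ℝ) + 3) * q k := by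
  rw [q_rec k hk]
  have : (q (k - 1) : ℝ) ≤ q k := by exact_mod_cast q_mono (by omega)
  linarith

lemma q_ge (k : ℕ) (hk : 1 ≤ k) : (4 * (k : ℝ) + 2) * q k ≤ q (k + 1) := by
  rw [q_rec k hk]
  have : (0 : ℝ) < q (k - 1) := qpos _
  linarith

lemma I_le' (k : ℕ) : I k ≤ (4 * (k : ℝ) + 7) * I (k + 1) := by
  have h1 := I_rec k
  have h2 := I_rec (k + 1)
  have h3 := I_pos (k + 1 + 2)
  have h4 := I_pos (k + 2)
  have h5 : I (k + 2) ≤ I (k + 1) := by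
    have h6 : 0 ≤ (4 * ((k + 1 : ℕ) : ℝ) + 5) * I (k + 2) := by positivity
    have h7 : (4 * ((k + 1 : ℕ) : ℝ) + 6) * I (k + 1 + 1) =
      (4 * ((k + 1 : ℕ) : ℝ) + 5) * I (k + 2) + I (k + 2) := by
      rw [show k + 1 + 1 = k + 2 by ring]; ring
    rw [h7] at h2
    linarith
  linarith

lemma E_upper (k : ℕ) (hk : 1 ≤ k) : E k * ((4 * (k : ℝ) + 2) * (4 * k + 6) + 1) ≤ 2 := by
  have h1 := q_ge k hk
  have h2 := I_bound k
  have h3 := qI k
  have h4 : ((4 * (k : ℝ) + 2) * q k) * ((4 * (k : ℝ) + 6) * I (k + 1)) ≤ q (k + 1) * I k :=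
    mul_le_mul h1 h2 (by have := I_pos (k + 1); positivity) (qpos _).le
  rw [h3] at h4
  have h5 : ((4 * (k : ℝ) + 2) * q k) * ((4 * (k : ℝ) + 6) * I (k + 1)) =
      (4 * (k : ℝ) + 2) * (4 * k + 6) * E k := by unfold E; ring
  rw [h5] at h4
  linarith

lemma E_lower (k : ℕ) (hk : 1 ≤ k) : 2 ≤ E k * ((4 * (k : ℝ) + 3) * (4 * k + 7) + 1) := by
  have h1 := q_le k hk
  have h2 := I_le' k
  have h3 := qI k
  have h4 : (q (k + 1) : ℝ) * I k ≤ ((4 * (k : ℝ) + 3) * q k) * ((4 * (k : ℝ) + 7) * I (k + 1)) :=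
    mul_le_mul h1 h2 (I_pos k).le (by have := qpos k; positivity)
  rw [h3] at h4
  have h5 : ((4 * (k : ℝ) + 3) * q k) * ((4 * (k : ℝ) + 7) * I (k + 1)) =
      (4 * (k : ℝ) + 3) * (4 * k + 7) * E k := by unfold E; ring
  rw [h5] at h4
  linarith

lemma E_gap (k : ℕ) (hk : 1 ≤ k) : 2 / (4 * (k : ℝ) + 8) ^ 3 ≤ E k - E (k + 1) := by
  have h1 := E_lower k hk
  have h2 := E_upper (k + 1) (by omega)
  have hk0 : (1 : ℝ) ≤ k := by exact_mod_cast hk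
  push_cast at h2
  have e1 : (4 * (k : ℝ) + 3) * (4 * k + 7) + 1 = 16 * k ^ 2 + 40 * k + 22 := by ring
  have e2 : (4 * ((k : ℝ) + 1) + 2) * (4 * (k + 1) + 6) + 1 = 16 * k ^ 2 + 64 * k + 61 := by ring
  rw [e1] at h1
  rw [e2] at h2
  have p1 : 0 < 16 * (k : ℝ) ^ 2 + 40 * k + 22 := by positivity
  have p2 : 0 < 16 * (k : ℝ) ^ 2 + 64 * k + 61 := by positivity
  have h3 : 2 / (16 * (k : ℝ) ^ 2 + 40 * k + 22) ≤ E k := by
    rw [div_le_iff₀ p1]; exact h1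
  have h4 : E (k + 1) ≤ 2 / (16 * (k : ℝ) ^ 2 + 64 * k + 61) := by
    rw [le_div_iff₀ p2]; exact h2
  have h5 : 2 / (4 * (k : ℝ) + 8) ^ 3 ≤
      2 / (16 * (k : ℝ) ^ 2 + 40 * k + 22) - 2 / (16 * (k : ℝ) ^ 2 + 64 * k + 61) := by
    rw [div_sub_div _ _ p1.ne' p2.ne', div_le_div_iff₀ (by positivity) (by positivity)]
    have e3 : (2 * (16 * (k : ℝ) ^ 2 + 64 * k + 61) - (16 * (k : ℝ) ^ 2 + 40 * k + 22) * 2) =
      2 * (24 * k + 39) := by ring
    rw [e3]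
    have h6 : (16 * (k : ℝ) ^ 2 + 40 * k + 22) * (16 * k ^ 2 + 64 * k + 61) ≤
        (4 * (k : ℝ) + 8) ^ 2 * (4 * (k : ℝ) + 8) ^ 2 :=
      mul_le_mul (by nlinarith) (by nlinarith) p2.le (by positivity)
    have h7 : (4 * (k : ℝ) + 8) ^ 3 * (4 * k + 8) ≤ (4 * (k : ℝ) + 8) ^ 3 * (24 * k + 39) :=
      mul_le_mul_of_nonneg_left (by linarith) (by positivity)
    nlinarith
  linarith

lemma E_anti (k : ℕ) (hk : 1 ≤ k) : E (k + 1) ≤ E k := by
  have h1 := E_gap k hk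
  have h2 : 0 ≤ 2 / (4 * (k : ℝ) + 8) ^ 3 := by positivity
  linarith

lemma h_pos (n : ℕ) (hn : 1 ≤ n) : 0 < h n := by
  obtain ⟨k, rfl⟩ : ∃ k, n = k + 1 := ⟨n - 1, by omega⟩
  rw [h_eq]
  have := E_pos k
  have := E_pos (k + 1)
  linarith

lemma h_upper (n : ℕ) (hn : 2 ≤ n) : h n ≤ 1 / (4 * (n : ℝ) ^ 2) := by
  obtain ⟨k, rfl⟩ : ∃ k, n = k + 1 := ⟨n - 1, by omega⟩
  have hk : 1 ≤ k := by omega
  have hkR : (1 : ℝ) ≤ k := by exact_mod_cast hk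
  rw [h_eq]
  have h1 := E_upper k hk
  have h2 := E_anti k hk
  have h3 : E k ≤ 1 / (4 * ((k : ℝ) + 1) ^ 2) := by
    rw [le_div_iff₀ (by positivity)]
    have h4 : 4 * ((k : ℝ) + 1) ^ 2 * 2 ≤ (4 * (k : ℝ) + 2) * (4 * k + 6) + 1 := by nlinarith
    have h5 := mul_le_mul_of_nonneg_left h4 (E_pos k).le
    linarith
  push_cast
  linarith

lemma h_gap1 (n : ℕ) (hn : 2 ≤ n) : 1 / (4 * (n : ℝ) + 4) ^ 3 ≤ h n - h (n + 1) := by
  obtain ⟨k, rfl⟩ : ∃ k, n = k + 1 := ⟨n - 1, by omega⟩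
  have hk : 1 ≤ k := by omega
  rw [h_eq, h_eq]
  have h1 := E_gap k hk
  have h2 := E_anti (k + 1) (by omega)
  push_cast
  have e1 : 4 * ((k : ℝ) + 1) + 4 = 4 * k + 8 := by ring
  rw [e1]
  have e2 : 1 / (4 * (k : ℝ) + 8) ^ 3 = (2 / (4 * (k : ℝ) + 8) ^ 3) / 2 := by ring
  rw [e2]
  linarith

lemma h_anti (n : ℕ) (hn : 2 ≤ n) : ∀ d : ℕ, h (n + d) ≤ h n := by
  intro d
  induction d with
  | zero => simp
  | succ d ih =>
    have h1 := h_gap1 (n + d) (by omega)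
    have h2 : 0 ≤ 1 / (4 * ((n + d : ℕ) : ℝ) + 4) ^ 3 := by positivity
    rw [show n + (d + 1) = n + d + 1 by ring]
    linarith

lemma h_gap (n m : ℕ) (hn : 2 ≤ n) (hm : n < m) : 1 / (4 * (n : ℝ) + 4) ^ 3 ≤ h n - h m := by
  have h1 := h_gap1 n hn
  obtain ⟨d, rfl⟩ : ∃ d, m = n + 1 + d := ⟨m - (n + 1), by omega⟩
  have h2 := h_anti (n + 1) (by omega) d
  linarith

/-- `q` is supermultiplicative -/
lemma q_mul (m : ℕ) : ∀ n : ℕ, q m * q n ≤ q (m + n) ∧ q m * q (n + 1) ≤ q (m + (n + 1)) := by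
  intro n
  induction n with
  | zero =>
    refine ⟨by simp [q], ?_⟩
    have : q m ≤ q (m + 1) := q_mono (by omega)
    simpa [q] using this
  | succ n ih =>
    refine ⟨ih.2, ?_⟩
    have e1 : q (n + 1 + 1) = (4 * n + 6) * q (n + 1) + q n := rfl
    have e2 : q (m + (n + 1 + 1)) = (4 * (m + n) + 6) * q (m + (n + 1)) + q (m + n) := rfl
    rw [e1, e2]
    have h1 : q m * ((4 * n + 6) * q (n + 1) + q n) =
      (4 * n + 6) * (q m * q (n + 1)) + q m * q n := by ring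
    rw [h1]
    have h2 : (4 * n + 6) * (q m * q (n + 1)) ≤ (4 * (m + n) + 6) * q (m + (n + 1)) :=
      Nat.mul_le_mul (by omega) ih.2
    have h3 := ih.1
    omega

lemma q_pow4 (n : ℕ) : q n ^ 4 ≤ q (4 * n) := by
  have h1 := (q_mul n n).1
  have h2 := (q_mul (n + n) (n + n)).1
  have h3 : (q n * q n) * (q n * q n) ≤ q (n + n) * q (n + n) := Nat.mul_le_mul h1 h1
  have e : n + n + (n + n) = 4 * n := by ring
  rw [e] at h2
  calc q n ^ 4 = (q n * q n) * (q n * q n) := by ring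
    _ ≤ _ := h3.trans h2

/-- an upper bound -/
lemma q_le_exp (n : ℕ) : (q n : ℝ) ≤ exp ((n : ℝ) ^ 2) := by
  induction n with
  | zero => simp [q]
  | succ n ih =>
    rcases Nat.eq_zero_or_pos n with h0 | h0
    · subst h0
      simp [q]
    · have h1 := q_le n h0
      have hn : (1 : ℝ) ≤ n := by exact_mod_cast h0
      have h2 := Real.quadratic_le_exp_of_nonneg (show (0 : ℝ) ≤ 2 * n + 1 by linarith)
      have h3 : 4 * (n : ℝ) + 3 ≤ exp (2 * n + 1) := by nlinarith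
      have h4 : (4 * (n : ℝ) + 3) * q n ≤ exp (2 * n + 1) * exp ((n : ℝ) ^ 2) :=
        mul_le_mul h3 ih (qpos n).le (exp_pos _).le
      rw [← Real.exp_add] at h4
      have e : 2 * (n : ℝ) + 1 + (n : ℝ) ^ 2 = ((n + 1 : ℕ) : ℝ) ^ 2 := by push_cast; ring
      rw [e] at h4
      exact h1.trans h4

/-- `q n` and `r n` are coprime -/
lemma coprime (n : ℕ) : IsCoprime (q n : ℤ) (r n : ℤ) := by
  rw [Int.isCoprime_iff_gcd_eq_one]
  by_contra hg
  have h1 : ((Int.gcd (q n : ℤ) (r n : ℤ) : ℕ) : ℤ) ∣ 2 * (-1) ^ (n + 1) := by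
    rw [← det n]
    exact dvd_sub (Dvd.dvd.mul_right (Int.gcd_dvd_right ..) _) (Dvd.dvd.mul_left (Int.gcd_dvd_left ..) _)
  have h2 : ((Int.gcd (q n : ℤ) (r n : ℤ) : ℕ) : ℤ) ∣ 2 := by
    rcases neg_one_pow_eq_or ℤ (n + 1) with h | h
    · rw [h, mul_one] at h1; exact h1
    · rw [h] at h1
      have : (2 : ℤ) * -1 = -2 := by norm_num
      rw [this, dvd_neg] at h1
      exact h1
  have h3 : Int.gcd (q n : ℤ) (r n : ℤ) ∣ 2 := by exact_mod_cast h2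
  have h4 : Int.gcd (q n : ℤ) (r n : ℤ) = 2 := by
    rcases (Nat.dvd_prime Nat.prime_two).1 h3 with h | h
    · exact absurd h hg
    · exact h
  have h5 : ((2 : ℕ) : ℤ) ∣ q n := by
    rw [← h4]; exact Int.gcd_dvd_left ..
  have h6 : 2 ∣ q n := by exact_mod_cast h5
  have := (q_odd n).1
  omega

end Pool.Agent.R354.EE
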