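import Mathlib
import Pool.Agent.Results.MP_58ae59_nt.PowersNearOne
import Pool.Agent.R354.EEh

set_option autoImplicit false

/-!
# Fractions with `b (b e - a)` bounded and not close to half of an integer
-/

namespace Pool.Agent.R354.EE

open Real Pool.Agent.H43R2.Cplx.EMeas Pool.Agent.H364R2.EE

/-- structure of the fractions `a / b` for which `θ = b (b e - a)` is bounded and not close to a
half integer -/
theorem struct (C : ℝ) (hC : 1 ≤ C) (n0 : ℕ) (hn0 : 2 ≤ n0) (a b : ℤ) (hb : (q n0 : ℤ) ≤ b)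
    (h0 : 0 < (b : ℝ) * (b * exp 1 - a)) (h1 : (b : ℝ) * (b * exp 1 - a) ≤ C)
    (h2 : ∀ N : ℤ, 12 * C ^ 2 / n0 < |2 * ((b : ℝ) * (b * exp 1 - a)) - N|) :
    ∃ (n : ℕ) (t : ℤ), n0 ≤ n ∧ 1 ≤ t ∧ a = t * r n ∧ b = t * q n ∧
      (b : ℝ) * (b * exp 1 - a) = (t : ℝ) ^ 2 * D n := by
  obtain ⟨n, hn, h3, h4⟩ := Pool.Agent.Results.MP_58ae59_nt.PowersNearOne.index_ge n0 b hb
  rcases Pool.Agent.Results.MP_58ae59_nt.PowersNearOne.near C hC n (by omega) a b h3 h4 h0 h1 with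
    ⟨t, ha, hbt⟩ | ⟨N, hN⟩
  · have hq0 : 0 < (q n : ℤ) := by exact_mod_cast (q_pos n).1
    have hb0 : 0 < b := by
      have : (0 : ℤ) < q n0 := by exact_mod_cast (q_pos n0).1
      omega
    have ht : 1 ≤ t := by
      rw [hbt] at hb0
      have := (mul_pos_iff_of_pos_right hq0).1 hb0
      omega
    refine ⟨n, t, hn, ht, ha, hbt, ?_⟩
    have hI := (I_eq n).1
    have hIp := I_pos n
    have e1 : (b : ℝ) * (b * exp 1 - a) = (t : ℝ) ^ 2 * q n * (q n * exp 1 - r n) := by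
      rw [ha, hbt]; push_cast; ring
    have htR : (0 : ℝ) < (t : ℝ) ^ 2 := by
      have : (1 : ℝ) ≤ t := by exact_mod_cast ht
      positivity
    have hqR := qpos n
    rw [e1] at h0 ⊢
    have hpos : 0 < (q n : ℝ) * exp 1 - r n := by
      by_contra hc
      push Not at hc
      have : (t : ℝ) ^ 2 * q n * (q n * exp 1 - r n) ≤ 0 :=
        mul_nonpos_of_nonneg_of_nonpos (by positivity) hc
      linarith
    have e2 : (q n : ℝ) * exp 1 - r n = I n := by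
      rcases neg_one_pow_eq_or ℝ n with h | h
      · rw [h, one_mul] at hI
        exact hI.symm
      · rw [h] at hI
        linarith
    rw [e2]
    unfold D
    ring
  · exfalso
    have h5 := h2 N
    have hn0R : (0 : ℝ) < n0 := by
      have : 0 < n0 := by omega
      exact_mod_cast this
    have h6 : 12 * C ^ 2 / n ≤ 12 * C ^ 2 / n0 := by
      apply div_le_div_of_nonneg_left (by positivity) hn0R
      exact_mod_cast hn
    linarith

/-- distance of `2 θ` to the integers for `θ = (P / d) e` -/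
theorem dist (c0 : ℝ)
    (hm : ∀ Q : ℕ, 1 ≤ Q → ∀ m : ℤ, c0 ≤ (Q : ℝ) ^ (1 + (1 : ℝ)) * |Q * exp 1 - m|)
    (Q d : ℕ) (hQ : 1 ≤ Q) (hd : 1 ≤ d) (θ ρ : ℝ)
    (hθ : |2 * θ - (Q : ℝ) / d * exp 1| ≤ ρ) (hρ : 2 * ρ * (d * (Q : ℝ) ^ 2) < c0) (N : ℤ) :
    ρ < |2 * θ - N| := by
  have hQR : (1 : ℝ) ≤ Q := by exact_mod_cast hQ
  have hdR : (1 : ℝ) ≤ d := by exact_mod_cast hd
  have h1 := hm Q hQ (d * N)
  have h2 : (Q : ℝ) ^ (1 + (1 : ℝ)) = (Q : ℝ) ^ 2 := by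
    rw [show (1 : ℝ) + 1 = ((2 : ℕ) : ℝ) by norm_num, Real.rpow_natCast]
  rw [h2] at h1
  by_contra hc
  push Not at hc
  have h3 : |(Q : ℝ) / d * exp 1 - N| ≤ 2 * ρ := by
    have : (Q : ℝ) / d * exp 1 - N = -(2 * θ - (Q : ℝ) / d * exp 1) + (2 * θ - N) := by ring
    rw [this]
    refine (abs_add_le _ _).trans ?_
    rw [abs_neg]
    linarith
  have h4 : (Q : ℝ) * exp 1 - ((d * N : ℤ) : ℝ) = d * ((Q : ℝ) / d * exp 1 - N) := by
    push_cast
    field_simp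
  rw [h4, abs_mul, Nat.abs_cast] at h1
  have h5 : (Q : ℝ) ^ 2 * (d * |(Q : ℝ) / d * exp 1 - N|) ≤ (Q : ℝ) ^ 2 * (d * (2 * ρ)) :=
    mul_le_mul_of_nonneg_left (mul_le_mul_of_nonneg_left h3 (by positivity)) (by positivity)
  have h6 : (Q : ℝ) ^ 2 * (d * (2 * ρ)) = 2 * ρ * (d * (Q : ℝ) ^ 2) := by ring
  linarith

end Pool.Agent.R354.EE
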