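import Mathlib

open Filter Topology Metric
open scoped BoundedContinuousFunction

namespace Pool.Agent.R354.FHC

/-- e(s) = exp (2 pi i s) -/
noncomputable def ee (s : ℝ) : ℂ := Complex.exp ((2 * Real.pi * s : ℝ) * Complex.I)

lemma norm_ee (s : ℝ) : ‖ee s‖ = 1 := Complex.norm_exp_ofReal_mul_I _

lemma ee_zero : ee 0 = 1 := by simp [ee]

lemma ee_add (s t : ℝ) : ee (s + t) = ee s * ee t := by
  unfold ee
  rw [← Complex.exp_add]
  congr 1
  push_cast
  ring

lemma ee_int (n : ℤ) : ee n = 1 := by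
  unfold ee
  rw [Complex.exp_eq_one_iff]
  exact ⟨n, by push_cast; ring⟩

lemma ee_sub_one_le (s : ℝ) : ‖ee s - 1‖ ≤ 2 * Real.pi * |s| := by
  have h := Real.norm_exp_I_mul_ofReal_sub_one_le (x := 2 * Real.pi * s)
  have h2 : ee s = Complex.exp (Complex.I * ((2 * Real.pi * s : ℝ) : ℂ)) := by
    unfold ee; rw [mul_comm]
  rw [h2]
  refine h.trans ?_
  rw [Real.norm_eq_abs, abs_mul, abs_of_pos Real.two_pi_pos]

lemma ee_sub_le (s t : ℝ) : ‖ee s - ee t‖ ≤ 2 * Real.pi * |s - t| := by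
  have h : ee s - ee t = ee t * (ee (s - t) - 1) := by
    rw [mul_sub, ← ee_add, mul_one]
    congr 2
    ring
  rw [h, norm_mul, norm_ee, one_mul]
  exact ee_sub_one_le _

/-- weights 1 + |n| -/
noncomputable def wt (n : ℤ) : ℝ := 1 + |(n : ℝ)|

lemma wt_pos (n : ℤ) : 0 < wt n := by unfold wt; positivity

lemma wt_ge_one (n : ℤ) : 1 ≤ wt n := by
  unfold wt
  have := abs_nonneg (n : ℝ)
  linarith

lemma wt_zero : wt 0 = 1 := by simp [wt]

lemma wt_succ_le (n : ℤ) : wt (n + 1) ≤ 2 * wt n := by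
  unfold wt
  push_cast
  have h1 := abs_add_le (n : ℝ) 1
  have h2 := abs_nonneg (n : ℝ)
  rw [abs_one] at h1
  linarith

/-- the ambient Banach space of bounded functions on the integers -/
abbrev Ysp : Type := ℤ →ᵇ ℂ

/-- the eigenvectors -/
noncomputable def EV (t : ℝ) : Ysp :=
  BoundedContinuousFunction.ofNormedAddCommGroupDiscrete (fun n : ℤ => ee (n * t) / (wt n : ℂ)) 1
    (by
      intro n
      rw [norm_div, norm_ee, Complex.norm_real, Real.norm_of_nonneg (wt_pos n).le]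
      exact div_le_one_of_le₀ (wt_ge_one n) (wt_pos n).le)

lemma EV_apply (t : ℝ) (n : ℤ) : EV t n = ee (n * t) / (wt n : ℂ) := rfl

lemma EV_sub_le (t s : ℝ) : ‖EV t - EV s‖ ≤ 2 * Real.pi * |t - s| := by
  rw [BoundedContinuousFunction.norm_le (by positivity)]
  intro n
  rw [BoundedContinuousFunction.sub_apply, EV_apply, EV_apply, ← sub_div, norm_div,
    Complex.norm_real, Real.norm_of_nonneg (wt_pos n).le, div_le_iff₀ (wt_pos n)]
  refine (ee_sub_le _ _).trans ?_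
  have h1 : (n : ℝ) * t - n * s = n * (t - s) := by ring
  rw [h1, abs_mul]
  have h2 : |(n : ℝ)| ≤ wt n := by unfold wt; linarith
  have h3 : 0 ≤ |t - s| := abs_nonneg _
  have h4 : 0 < 2 * Real.pi := Real.two_pi_pos
  calc 2 * Real.pi * (|(n : ℝ)| * |t - s|) ≤ 2 * Real.pi * (wt n * |t - s|) := by gcongr
    _ = 2 * Real.pi * |t - s| * wt n := by ring

/-- the weighted shift on the ambient space -/
noncomputable def TY : Ysp →L[ℂ] Ysp :=
  LinearMap.mkContinuous
    { toFun := fun x => BoundedContinuousFunction.ofNormedAddCommGroupDiscrete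
        (fun n : ℤ => ((wt (n + 1) / wt n : ℝ) : ℂ) * x (n + 1)) (2 * ‖x‖)
        (by
          intro n
          rw [norm_mul, Complex.norm_real, Real.norm_of_nonneg (div_pos (wt_pos _) (wt_pos _)).le]
          have h1 : wt (n + 1) / wt n ≤ 2 := by
            rw [div_le_iff₀ (wt_pos n)]; exact wt_succ_le n
          have h2 := x.norm_coe_le_norm (n + 1)
          gcongr)
      map_add' := by
        intro x y
        ext n
        simp [BoundedContinuousFunction.ofNormedAddCommGroupDiscrete, mul_add]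
      map_smul' := by
        intro c x
        ext n
        simp [BoundedContinuousFunction.ofNormedAddCommGroupDiscrete]
        ring } 2
    (by
      intro x
      rw [BoundedContinuousFunction.norm_le (by positivity)]
      intro n
      change ‖((wt (n + 1) / wt n : ℝ) : ℂ) * x (n + 1)‖ ≤ _
      rw [norm_mul, Complex.norm_real, Real.norm_of_nonneg (div_pos (wt_pos _) (wt_pos _)).le]
      have h1 : wt (n + 1) / wt n ≤ 2 := by
        rw [div_le_iff₀ (wt_pos n)]; exact wt_succ_le n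
      have h2 := x.norm_coe_le_norm (n + 1)
      gcongr)

lemma TY_apply (x : Ysp) (n : ℤ) : TY x n = ((wt (n + 1) / wt n : ℝ) : ℂ) * x (n + 1) := rfl

lemma TY_pow_apply (k : ℕ) (x : Ysp) (n : ℤ) :
    (TY ^ k) x n = ((wt (n + k) / wt n : ℝ) : ℂ) * x (n + k) := by
  induction k generalizing n with
  | zero =>
    have := (wt_pos n).ne'
    simp [div_self this]
  | succ k ih =>
    rw [pow_succ', mul_apply_eq_comp, TY_apply, ih]
    have h1 := (wt_pos (n + 1)).ne'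
    have h2 := (wt_pos n).ne'
    have h3 : n + 1 + (k : ℤ) = n + ((k + 1 : ℕ) : ℤ) := by push_cast; ring
    rw [h3, ← mul_assoc, ← Complex.ofReal_mul]
    congr 2
    field_simp

lemma TY_EV (t : ℝ) : TY (EV t) = ee t • EV t := by
  ext n
  rw [TY_apply, EV_apply, BoundedContinuousFunction.smul_apply, EV_apply, smul_eq_mul]
  have h1 : (wt (n + 1) : ℂ) ≠ 0 := by exact_mod_cast (wt_pos (n + 1)).ne'
  have h2 : (wt n : ℂ) ≠ 0 := by exact_mod_cast (wt_pos n).ne'
  have h3 : ee (((n + 1 : ℤ) : ℝ) * t) = ee t * ee (n * t) := by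
    rw [← ee_add]; congr 1; push_cast; ring
  rw [h3]
  push_cast
  field_simp

lemma TY_pow_EV (t : ℝ) (k : ℕ) : (TY ^ k) (EV t) = ee (k * t) • EV t := by
  induction k with
  | zero => simp [ee_zero]
  | succ k ih =>
    rw [pow_succ', mul_apply_eq_comp, ih, map_smul, TY_EV, smul_smul, ← ee_add]
    congr 2
    push_cast
    ring

/-! ### the set of frequencies -/

/-- dyadic rationals avoiding small neighbourhoods of a / (3 * 2 ^ s) -/
def LAM : Set ℝ := {t | (∃ (b : ℤ) (r : ℕ), t = b / 2 ^ r) ∧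
  ∀ (s : ℕ) (a : ℤ), ¬ (3 ∣ a) → (1 : ℝ) / 4 ^ (s + 10) ≤ |t - a / (3 * 2 ^ s)|}

lemma four_pow_ge (s : ℕ) : (6 : ℝ) * 2 ^ s ≤ 4 ^ (s + 10) := by
  have h1 : (4 : ℝ) ^ (s + 10) = 2 ^ s * 2 ^ s * 4 ^ 10 := by
    rw [pow_add, ← mul_pow]; norm_num
  rw [h1]
  have h2 : (1 : ℝ) ≤ 2 ^ s := one_le_pow₀ (by norm_num)
  nlinarith

lemma key_dist (B : ℤ) (m s M : ℕ) (hm : m ≤ M) (hs : s ≤ M) (a : ℤ) (ha : ¬ (3 ∣ a)) :
    ∃ K : ℤ, ¬ (3 ∣ K) ∧ |(B : ℝ) / 2 ^ m - a / (3 * 2 ^ s)| = |(K : ℝ)| / (3 * 2 ^ M) := by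
  refine ⟨3 * (B * 2 ^ (M - m)) - a * 2 ^ (M - s), ?_, ?_⟩
  · intro h
    have h1 : (3 : ℤ) ∣ a * 2 ^ (M - s) := by
      have := dvd_sub (Dvd.intro (B * 2 ^ (M - m)) rfl : (3 : ℤ) ∣ 3 * (B * 2 ^ (M - m))) h
      simpa using this
    rcases (Int.prime_three.dvd_mul.mp h1) with h2 | h2
    · exact ha h2
    · have := Int.prime_three.dvd_of_dvd_pow h2
      norm_num at this
  · have e1 : (2 : ℝ) ^ M = 2 ^ m * 2 ^ (M - m) := by rw [← pow_add]; congr 1; omega
    have e2 : (2 : ℝ) ^ M = 2 ^ s * 2 ^ (M - s) := by rw [← pow_add]; congr 1; omega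
    have h3 : (B : ℝ) / 2 ^ m - a / (3 * 2 ^ s) =
        ((3 * (B * 2 ^ (M - m)) - a * 2 ^ (M - s) : ℤ) : ℝ) / (3 * 2 ^ M) := by
      push_cast
      have p1 : (B : ℝ) / 2 ^ m = 3 * (B * 2 ^ (M - m)) / (3 * 2 ^ M) := by
        rw [e1]; field_simp
      have p2 : (a : ℝ) / (3 * 2 ^ s) = a * 2 ^ (M - s) / (3 * 2 ^ M) := by
        rw [e2]; field_simp
      rw [p1, p2, ← sub_div]
    rw [h3, abs_div, abs_of_pos (by positivity : (0 : ℝ) < 3 * 2 ^ M)]

lemma abs_ge_one {K : ℤ} (h : ¬ (3 ∣ K)) : (1 : ℝ) ≤ |(K : ℝ)| := by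
  have : K ≠ 0 := by rintro rfl; simp at h
  exact_mod_cast Int.one_le_abs this

lemma key_ge (B : ℤ) (m s : ℕ) (a : ℤ) (ha : ¬ (3 ∣ a)) (M : ℕ) (hm : m ≤ M) (hs : s ≤ M) :
    1 / (3 * 2 ^ M) ≤ |(B : ℝ) / 2 ^ m - a / (3 * 2 ^ s)| := by
  obtain ⟨K, hK, h⟩ := key_dist B m s M hm hs a ha
  rw [h]
  have := abs_ge_one hK
  gcongr

lemma zero_mem_LAM : (0 : ℝ) ∈ LAM := by
  refine ⟨⟨0, 0, by simp⟩, fun s a ha => ?_⟩
  have h := key_ge 0 0 s a ha s (Nat.zero_le _) le_rfl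
  simp only [Int.cast_zero, pow_zero, zero_div] at h
  refine le_trans ?_ h
  have h2 := four_pow_ge s
  have h3 : (0 : ℝ) < 2 ^ s := by positivity
  apply one_div_le_one_div_of_le (by positivity)
  linarith

lemma add_int_mem_LAM {t : ℝ} (ht : t ∈ LAM) (n : ℤ) : t + n ∈ LAM := by
  obtain ⟨⟨b, r, hb⟩, h⟩ := ht
  refine ⟨⟨b + n * 2 ^ r, r, ?_⟩, fun s a ha => ?_⟩
  · rw [hb]
    push_cast
    field_simp
  · have h1 := h s (a - 3 * (n * 2 ^ s)) (by
      intro h3
      apply ha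
      have := dvd_add h3 (Dvd.intro (n * 2 ^ s) rfl : (3 : ℤ) ∣ 3 * (n * 2 ^ s))
      simpa using this)
    have h2 : t - ((a - 3 * (n * 2 ^ s) : ℤ) : ℝ) / (3 * 2 ^ s) = t + n - a / (3 * 2 ^ s) := by
      push_cast
      field_simp
      ring
    rwa [h2] at h1

/-- Lemma P -/
lemma lamP {t : ℝ} (ht : t ∈ LAM) (j : ℤ) :
    ∀ᶠ m : ℕ in atTop, t + j / 2 ^ m ∈ LAM := by
  obtain ⟨⟨b, r, hb⟩, h⟩ := ht
  set N : ℝ := |(j : ℝ)| with hN
  have hN0 : 0 ≤ N := abs_nonneg _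
  have hlim : Tendsto (fun m : ℕ => (2 : ℝ) ^ m) atTop atTop :=
    tendsto_pow_atTop_atTop_of_one_lt (by norm_num)
  filter_upwards [eventually_ge_atTop r, hlim.eventually_ge_atTop (N ^ 2),
    hlim.eventually_ge_atTop (N * (3 * 2 ^ r * 4 ^ (r + 10)))] with m hmr hm1 hm2
  have hdy : t + j / 2 ^ m = ((b * 2 ^ (m - r) + j : ℤ) : ℝ) / 2 ^ m := by
    have e1 : (2 : ℝ) ^ m = 2 ^ r * 2 ^ (m - r) := by rw [← pow_add]; congr 1; omega
    rw [hb]
    push_cast
    rw [add_div]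
    congr 1
    rw [e1]
    field_simp
  refine ⟨⟨_, m, hdy⟩, fun s a ha => ?_⟩
  have h4 := four_pow_ge s
  have h2s : (0 : ℝ) < 2 ^ s := by positivity
  have h2m : (0 : ℝ) < 2 ^ m := by positivity
  by_cases hsm : m ≤ s
  · rw [hdy]
    refine le_trans ?_ (key_ge _ m s a ha s hsm le_rfl)
    apply one_div_le_one_div_of_le (by positivity)
    linarith
  · push Not at hsm
    by_cases hc : (3 : ℝ) * 2 ^ m ≤ 4 ^ (s + 10)
    · rw [hdy]
      refine le_trans ?_ (key_ge _ m s a ha m le_rfl hsm.le)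
      exact one_div_le_one_div_of_le (by positivity) hc
    · push Not at hc
      have htri : |t - a / (3 * 2 ^ s)| - N / 2 ^ m ≤ |t + j / 2 ^ m - a / (3 * 2 ^ s)| := by
        have e1 : N / 2 ^ m = |(j : ℝ) / 2 ^ m| := by
          rw [abs_div, abs_of_pos h2m]
        rw [e1]
        have e2 : t + j / 2 ^ m - a / (3 * 2 ^ s) = (t - a / (3 * 2 ^ s)) - (-(j / 2 ^ m)) := by ring
        rw [e2]
        have := abs_sub_abs_le_abs_sub (t - a / (3 * 2 ^ s)) (-((j : ℝ) / 2 ^ m))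
        rwa [abs_neg] at this
      refine le_trans ?_ htri
      by_cases hsr : r ≤ s
      · have h5 : 1 / (3 * 2 ^ s) ≤ |t - a / (3 * 2 ^ s)| := by
          rw [hb]; exact key_ge b r s a ha s hsr le_rfl
        have h6 : N / 2 ^ m ≤ 1 / (6 * 2 ^ s) := by
          rw [div_le_div_iff₀ h2m (by positivity), one_mul]
          -- N * (6 * 2^s) ≤ 2^m
          have h7 : (4 : ℝ) ^ (s + 10) = 2 ^ s * 2 ^ s * 4 ^ 10 := by
            rw [pow_add, ← mul_pow]; norm_num
          rw [h7] at hc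
          have h8 : (N * (6 * 2 ^ s)) ^ 2 ≤ (2 ^ m : ℝ) ^ 2 := by
            have h9 : (2 : ℝ) ^ s * 2 ^ s * 36 ≤ 2 ^ m := by nlinarith
            calc (N * (6 * 2 ^ s)) ^ 2 = N ^ 2 * ((2 : ℝ) ^ s * 2 ^ s * 36) := by ring
              _ ≤ 2 ^ m * 2 ^ m := by gcongr
              _ = (2 ^ m : ℝ) ^ 2 := by ring
          exact le_of_sq_le_sq h8 h2m.le
        have h10 : (1 : ℝ) / (3 * 2 ^ s) = 1 / (6 * 2 ^ s) + 1 / (6 * 2 ^ s) := by
          field_simp; norm_num
        have h11 : (1 : ℝ) / 4 ^ (s + 10) ≤ 1 / (6 * 2 ^ s) :=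
          one_div_le_one_div_of_le (by positivity) h4
        linarith
      · push Not at hsr
        obtain ⟨K, hK, hKe⟩ := key_dist b r s r le_rfl hsr.le a ha
        have hge := h s a ha
        rw [hb, hKe] at hge
        rw [hb, hKe]
        -- integers
        have hint : (3 * 2 ^ r : ℤ) + 1 ≤ |K| * 4 ^ (s + 10) := by
          have h1 : (3 * 2 ^ r : ℝ) ≤ |(K : ℝ)| * 4 ^ (s + 10) := by
            rw [div_le_div_iff₀ (by positivity) (by positivity), one_mul] at hge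
            exact hge
          have h2 : (3 * 2 ^ r : ℤ) ≤ |K| * 4 ^ (s + 10) := by exact_mod_cast h1
          rcases h2.lt_or_eq with h3 | h3
          · exact h3
          · exfalso
            have h4 : (3 : ℤ) ∣ |K| * 4 ^ (s + 10) := by rw [← h3]; exact Dvd.intro _ rfl
            rcases Int.prime_three.dvd_mul.mp h4 with h5 | h5
            · exact hK ((dvd_abs 3 K).mp h5)
            · have := Int.prime_three.dvd_of_dvd_pow h5
              norm_num at this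
        have hint' : (3 * 2 ^ r : ℝ) + 1 ≤ |(K : ℝ)| * 4 ^ (s + 10) := by exact_mod_cast hint
        have h12 : (1 : ℝ) / 4 ^ (s + 10) + 1 / (3 * 2 ^ r * 4 ^ (s + 10)) ≤
            |(K : ℝ)| / (3 * 2 ^ r) := by
          have e : (1 : ℝ) / 4 ^ (s + 10) + 1 / (3 * 2 ^ r * 4 ^ (s + 10)) =
              ((3 * 2 ^ r : ℝ) + 1) / (4 ^ (s + 10)) / (3 * 2 ^ r) := by
            field_simp
          rw [e]
          apply div_le_div_of_nonneg_right _ (by positivity)
          rw [div_le_iff₀ (by positivity)]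
          exact hint'
        have h13 : N / 2 ^ m ≤ 1 / (3 * 2 ^ r * 4 ^ (s + 10)) := by
          rw [div_le_div_iff₀ h2m (by positivity), one_mul]
          refine le_trans ?_ hm2
          have : (4 : ℝ) ^ (s + 10) ≤ 4 ^ (r + 10) := by
            apply pow_le_pow_right₀ (by norm_num); omega
          gcongr
        linarith

end Pool.Agent.R354.FHC
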