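import Pool.Agent.R354.FHA

open Filter Topology Metric
open scoped BoundedContinuousFunction

namespace Pool.Agent.R354.FHC

/-- the span of the eigenvectors -/
noncomputable def VV : Submodule ℂ Ysp := Submodule.span ℂ (EV '' LAM)

/-- trigonometric polynomials -/
noncomputable def TP : Submodule ℂ (ℝ → ℂ) :=
  Submodule.span ℂ (Set.range (fun j : ℤ => fun θ : ℝ => ee (j * θ)))

lemma TP_gen (j : ℤ) : (fun θ : ℝ => ee (j * θ)) ∈ TP := Submodule.subset_span ⟨j, rfl⟩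

lemma TP_one : (1 : ℝ → ℂ) ∈ TP := by
  have := TP_gen 0
  have h : (fun θ : ℝ => ee (((0 : ℤ) : ℝ) * θ)) = 1 := by
    funext θ; simp [ee_zero]
  rwa [h] at this

lemma TP_mul {f g : ℝ → ℂ} (hf : f ∈ TP) (hg : g ∈ TP) : f * g ∈ TP := by
  unfold TP at hf
  induction hf using Submodule.span_induction with
  | mem f hf =>
    obtain ⟨i, rfl⟩ := hf
    unfold TP at hg
    induction hg using Submodule.span_induction with
    | mem g hg =>
      obtain ⟨j, rfl⟩ := hg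
      have : (fun θ : ℝ => ee (i * θ)) * (fun θ : ℝ => ee (j * θ)) =
          fun θ : ℝ => ee (((i + j : ℤ) : ℝ) * θ) := by
        funext θ
        simp only [Pi.mul_apply]
        rw [← ee_add]
        congr 1
        push_cast
        ring
      rw [this]
      exact TP_gen _
    | zero => rw [mul_zero]; exact TP.zero_mem
    | add x y _ _ h1 h2 => rw [mul_add]; exact TP.add_mem h1 h2
    | smul a x _ h => rw [mul_smul_comm]; exact TP.smul_mem a h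
  | zero => rw [zero_mul]; exact TP.zero_mem
  | add x y _ _ h1 h2 => rw [add_mul]; exact TP.add_mem h1 h2
  | smul a x _ h => rw [smul_mul_assoc]; exact TP.smul_mem a h

lemma TP_pow {f : ℝ → ℂ} (hf : f ∈ TP) (M : ℕ) : f ^ M ∈ TP := by
  induction M with
  | zero => rw [pow_zero]; exact TP_one
  | succ M ih => rw [pow_succ]; exact TP_mul ih hf

/-- sin^2 (pi theta) -/
noncomputable def ss (θ : ℝ) : ℝ := Real.sin (Real.pi * θ) ^ 2

lemma ss_mem : (fun θ : ℝ => (ss θ : ℂ)) ∈ TP := by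
  have h : (fun θ : ℝ => (ss θ : ℂ)) =
      (1 / 2 : ℂ) • (fun θ : ℝ => ee (((0 : ℤ) : ℝ) * θ)) +
        ((-1 / 4 : ℂ) • (fun θ : ℝ => ee (((1 : ℤ) : ℝ) * θ)) +
        (-1 / 4 : ℂ) • (fun θ : ℝ => ee (((-1 : ℤ) : ℝ) * θ))) := by
    funext θ
    simp only [Pi.add_apply, Pi.smul_apply, smul_eq_mul]
    have h1 : ee (((1 : ℤ) : ℝ) * θ) + ee (((-1 : ℤ) : ℝ) * θ) =
        2 * ((Real.cos (2 * (Real.pi * θ)) : ℝ) : ℂ) := by
      unfold ee
      rw [Complex.ofReal_cos, Complex.cos]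
      push_cast
      have a1 : (2 * (Real.pi : ℂ) * (1 * θ)) * Complex.I = 2 * (Real.pi * θ) * Complex.I := by ring
      have a2 : (2 * (Real.pi : ℂ) * (-1 * θ)) * Complex.I = -(2 * (Real.pi * θ)) * Complex.I := by
        ring
      rw [a1, a2]
      ring
    have h0 : ee (((0 : ℤ) : ℝ) * θ) = 1 := by simp [ee_zero]
    have h2 : Real.cos (2 * (Real.pi * θ)) = 1 - 2 * ss θ := by
      unfold ss
      rw [Real.cos_two_mul, Real.cos_sq']
      ring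
    rw [h2] at h1
    push_cast at h1
    rw [h0]
    push_cast
    linear_combination (1 / 4 : ℂ) * h1
  rw [h]
  exact TP.add_mem (TP.smul_mem _ (TP_gen 0))
    (TP.add_mem (TP.smul_mem _ (TP_gen 1)) (TP.smul_mem _ (TP_gen (-1))))

/-- multiplier property -/
def Good (χ : ℝ → ℂ) (y : Ysp) : Prop :=
  ∀ ε > 0, ∀ᶠ m : ℕ in atTop, ∃ z ∈ VV, ∀ k : ℕ,
    ‖(TY ^ k) z - χ ((k : ℝ) / 2 ^ m) • (TY ^ k) y‖ ≤ ε

lemma good_zero_y (χ : ℝ → ℂ) : Good χ 0 := by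
  intro ε hε
  filter_upwards with m
  exact ⟨0, VV.zero_mem, fun k => by simp [hε.le]⟩

lemma good_zero_chi (y : Ysp) : Good 0 y := by
  intro ε hε
  filter_upwards with m
  exact ⟨0, VV.zero_mem, fun k => by simp [hε.le]⟩

lemma good_add_y {χ : ℝ → ℂ} {y₁ y₂ : Ysp} (h1 : Good χ y₁) (h2 : Good χ y₂) :
    Good χ (y₁ + y₂) := by
  intro ε hε
  filter_upwards [h1 (ε / 2) (by positivity), h2 (ε / 2) (by positivity)] with m ⟨z1, hz1, k1⟩
    ⟨z2, hz2, k2⟩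
  refine ⟨z1 + z2, VV.add_mem hz1 hz2, fun k => ?_⟩
  have e : (TY ^ k) (z1 + z2) - χ ((k : ℝ) / 2 ^ m) • (TY ^ k) (y₁ + y₂) =
      ((TY ^ k) z1 - χ ((k : ℝ) / 2 ^ m) • (TY ^ k) y₁) +
      ((TY ^ k) z2 - χ ((k : ℝ) / 2 ^ m) • (TY ^ k) y₂) := by
    rw [map_add, map_add, smul_add]; abel
  rw [e]
  refine (norm_add_le _ _).trans ?_
  linarith [k1 k, k2 k]

lemma good_add_chi {χ₁ χ₂ : ℝ → ℂ} {y : Ysp} (h1 : Good χ₁ y) (h2 : Good χ₂ y) :
    Good (χ₁ + χ₂) y := by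
  intro ε hε
  filter_upwards [h1 (ε / 2) (by positivity), h2 (ε / 2) (by positivity)] with m ⟨z1, hz1, k1⟩
    ⟨z2, hz2, k2⟩
  refine ⟨z1 + z2, VV.add_mem hz1 hz2, fun k => ?_⟩
  have e : (TY ^ k) (z1 + z2) - (χ₁ + χ₂) ((k : ℝ) / 2 ^ m) • (TY ^ k) y =
      ((TY ^ k) z1 - χ₁ ((k : ℝ) / 2 ^ m) • (TY ^ k) y) +
      ((TY ^ k) z2 - χ₂ ((k : ℝ) / 2 ^ m) • (TY ^ k) y) := by
    rw [map_add, Pi.add_apply, add_smul]; abel
  rw [e]
  refine (norm_add_le _ _).trans ?_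
  linarith [k1 k, k2 k]

lemma good_smul_y {χ : ℝ → ℂ} {y : Ysp} (c : ℂ) (h : Good χ y) : Good χ (c • y) := by
  intro ε hε
  have hc : 0 < ‖c‖ + 1 := by positivity
  filter_upwards [h (ε / (‖c‖ + 1)) (by positivity)] with m ⟨z, hz, k1⟩
  refine ⟨c • z, VV.smul_mem c hz, fun k => ?_⟩
  have e : (TY ^ k) (c • z) - χ ((k : ℝ) / 2 ^ m) • (TY ^ k) (c • y) =
      c • ((TY ^ k) z - χ ((k : ℝ) / 2 ^ m) • (TY ^ k) y) := by
    rw [map_smul, map_smul, smul_sub, smul_comm c]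
  rw [e, norm_smul]
  calc ‖c‖ * ‖(TY ^ k) z - χ ((k : ℝ) / 2 ^ m) • (TY ^ k) y‖
      ≤ (‖c‖ + 1) * (ε / (‖c‖ + 1)) := by
        gcongr
        · linarith
        · exact k1 k
    _ = ε := by field_simp

lemma good_smul_chi {χ : ℝ → ℂ} {y : Ysp} (c : ℂ) (h : Good χ y) : Good (c • χ) y := by
  intro ε hε
  filter_upwards [good_smul_y c h ε hε] with m ⟨z, hz, k1⟩
  refine ⟨z, hz, fun k => ?_⟩
  have := k1 k
  rw [map_smul, smul_smul] at this
  rw [Pi.smul_apply, smul_eq_mul, mul_comm]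
  exact this

lemma good_gen (j : ℤ) {t : ℝ} (ht : t ∈ LAM) : Good (fun θ : ℝ => ee (j * θ)) (EV t) := by
  intro ε hε
  have hlim : Tendsto (fun m : ℕ => 2 * Real.pi * |(j : ℝ) / 2 ^ m|) atTop (𝓝 0) := by
    have h1 : Tendsto (fun m : ℕ => (j : ℝ) / 2 ^ m) atTop (𝓝 0) := by
      have := (tendsto_pow_atTop_atTop_of_one_lt (r := (2 : ℝ)) (by norm_num))
      exact this.const_div_atTop _
    have h2 := (h1.abs).const_mul (2 * Real.pi)
    simpa using h2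
  filter_upwards [lamP ht j, hlim.eventually (gt_mem_nhds hε)] with m hm1 hm2
  refine ⟨EV (t + j / 2 ^ m), Submodule.subset_span ⟨_, hm1, rfl⟩, fun k => ?_⟩
  rw [TY_pow_EV, TY_pow_EV, smul_smul]
  have e : ee ((k : ℝ) * (t + j / 2 ^ m)) = ee (j * ((k : ℝ) / 2 ^ m)) * ee (k * t) := by
    rw [← ee_add]; congr 1; ring
  rw [e, ← smul_sub, norm_smul, norm_mul, norm_ee, norm_ee, one_mul, one_mul]
  refine (EV_sub_le _ _).trans ?_
  have : t + j / 2 ^ m - t = (j : ℝ) / 2 ^ m := by ring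
  rw [this]
  exact hm2.le

theorem good_all {χ : ℝ → ℂ} (hχ : χ ∈ TP) {y : Ysp} (hy : y ∈ VV) : Good χ y := by
  unfold TP at hχ
  induction hχ using Submodule.span_induction with
  | mem f hf =>
    obtain ⟨j, rfl⟩ := hf
    unfold VV at hy
    induction hy using Submodule.span_induction with
    | mem y hy => obtain ⟨t, ht, rfl⟩ := hy; exact good_gen j ht
    | zero => exact good_zero_y _
    | add x y _ _ h1 h2 => exact good_add_y h1 h2
    | smul a x _ h => exact good_smul_y a h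
  | zero => exact good_zero_chi y
  | add x y _ _ h1 h2 => exact good_add_chi h1 h2
  | smul a x _ h => exact good_smul_chi a h

/-! ### periodicity and boundedness of orbits -/

lemma pow_dvd_fix {y : Ysp} {P k : ℕ} (h : (TY ^ P) y = y) (hk : P ∣ k) : (TY ^ k) y = y := by
  obtain ⟨c, rfl⟩ := hk
  induction c with
  | zero => simp
  | succ c ih => rw [mul_add, mul_one, pow_add, mul_apply_eq_comp, h, ih]

lemma exists_period {y : Ysp} (hy : y ∈ VV) : ∃ r : ℕ, (TY ^ (2 ^ r)) y = y := by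
  unfold VV at hy
  induction hy using Submodule.span_induction with
  | mem y hy =>
    obtain ⟨t, ⟨⟨b, r, hb⟩, -⟩, rfl⟩ := hy
    refine ⟨r, ?_⟩
    rw [TY_pow_EV, hb]
    have : ((2 ^ r : ℕ) : ℝ) * (b / 2 ^ r) = b := by
      push_cast; field_simp
    rw [this, ee_int, one_smul]
  | zero => exact ⟨0, by simp⟩
  | add x y _ _ h1 h2 =>
    obtain ⟨r1, h1⟩ := h1
    obtain ⟨r2, h2⟩ := h2
    refine ⟨max r1 r2, ?_⟩
    rw [map_add, pow_dvd_fix h1 (pow_dvd_pow 2 (le_max_left _ _)),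
      pow_dvd_fix h2 (pow_dvd_pow 2 (le_max_right _ _))]
  | smul a x _ h =>
    obtain ⟨r, h⟩ := h
    exact ⟨r, by rw [map_smul, h]⟩

lemma exists_orbit_bound {y : Ysp} (hy : y ∈ VV) : ∃ B : ℝ, 0 ≤ B ∧ ∀ k : ℕ, ‖(TY ^ k) y‖ ≤ B := by
  unfold VV at hy
  induction hy using Submodule.span_induction with
  | mem y hy =>
    obtain ⟨t, -, rfl⟩ := hy
    refine ⟨‖EV t‖, norm_nonneg _, fun k => ?_⟩
    rw [TY_pow_EV, norm_smul, norm_ee, one_mul]
  | zero => exact ⟨0, le_rfl, fun k => by simp⟩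
  | add x y _ _ h1 h2 =>
    obtain ⟨B1, h10, h1⟩ := h1
    obtain ⟨B2, h20, h2⟩ := h2
    refine ⟨B1 + B2, by positivity, fun k => ?_⟩
    rw [map_add]
    exact (norm_add_le _ _).trans (add_le_add (h1 k) (h2 k))
  | smul a x _ h =>
    obtain ⟨B, h0, h⟩ := h
    refine ⟨‖a‖ * B, by positivity, fun k => ?_⟩
    rw [map_smul, norm_smul]
    gcongr
    exact h k

lemma TY_mem {y : Ysp} (hy : y ∈ VV) : TY y ∈ VV := by
  unfold VV at hy
  induction hy using Submodule.span_induction with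
  | mem y hy =>
    obtain ⟨t, ht, rfl⟩ := hy
    rw [TY_EV]
    exact VV.smul_mem _ (Submodule.subset_span ⟨t, ht, rfl⟩)
  | zero => rw [map_zero]; exact VV.zero_mem
  | add x y _ _ h1 h2 => rw [map_add]; exact VV.add_mem h1 h2
  | smul a x _ h => rw [map_smul]; exact VV.smul_mem a h

lemma TY_pow_mem {y : Ysp} (hy : y ∈ VV) (k : ℕ) : (TY ^ k) y ∈ VV := by
  induction k with
  | zero => simpa using hy
  | succ k ih => rw [pow_succ', mul_apply_eq_comp]; exact TY_mem ih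

/-! ### mixing -/

lemma ss_nonneg (θ : ℝ) : 0 ≤ ss θ := sq_nonneg _

lemma ss_le_one (θ : ℝ) : ss θ ≤ 1 := by
  unfold ss
  exact Real.sin_sq_le_one _

lemma ss_zero : ss 0 = 0 := by simp [ss]

lemma ss_mid {θ : ℝ} (h1 : 1 / 3 ≤ θ) (h2 : θ ≤ 2 / 3) : 3 / 4 ≤ ss θ := by
  have h : ss θ = (1 - Real.cos (2 * (Real.pi * θ))) / 2 := by
    unfold ss
    rw [Real.cos_two_mul, Real.cos_sq']
    ring
  rw [h]
  have h3 : Real.cos (2 * (Real.pi * θ)) ≤ -(1 / 2) := by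
    have e1 : Real.cos (2 * (Real.pi * θ)) = -Real.cos (2 * (Real.pi * θ) - Real.pi) := by
      rw [Real.cos_sub_pi, neg_neg]
    rw [e1]
    have e2 : (1 : ℝ) / 2 ≤ Real.cos (2 * (Real.pi * θ) - Real.pi) := by
      rw [← Real.cos_pi_div_three, ← Real.cos_abs (2 * (Real.pi * θ) - Real.pi)]
      apply Real.cos_le_cos_of_nonneg_of_le_pi (abs_nonneg _)
      · have := Real.pi_pos; linarith
      · rw [abs_le]
        have := Real.pi_pos
        constructor <;> nlinarith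
    linarith
  linarith

/-- small vectors imitating y at a time n -/
lemma small_copy {y : Ysp} (hy : y ∈ VV) {ε : ℝ} (hε : 0 < ε) :
    ∀ᶠ m : ℕ in atTop, ∃ z ∈ VV, ‖z‖ ≤ ε ∧ ∀ n : ℕ, 1 / 3 ≤ (n : ℝ) / 2 ^ m →
      (n : ℝ) / 2 ^ m ≤ 2 / 3 → ‖(TY ^ n) z - (TY ^ n) y‖ ≤ ε := by
  obtain ⟨B, hB0, hB⟩ := exists_orbit_bound hy
  obtain ⟨N, hN⟩ := ((tendsto_pow_atTop_nhds_zero_of_lt_one (r := (1 / 4 : ℝ)) (by norm_num)
    (by norm_num)).mul_const B).eventually (gt_mem_nhds (by simpa using half_pos hε) :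
      ∀ᶠ x in 𝓝 (0 * B), x < ε / 2) |>.exists
  have hχ : (1 - (1 - (fun θ : ℝ => (ss θ : ℂ))) ^ N : ℝ → ℂ) ∈ TP :=
    TP.sub_mem TP_one (TP_pow (TP.sub_mem TP_one ss_mem) N)
  filter_upwards [good_all hχ hy (ε / 2) (by positivity)] with m ⟨z, hz, hk⟩
  refine ⟨z, hz, ?_, fun n h1 h2 => ?_⟩
  · have h0 := hk 0
    simp only [Nat.cast_zero, zero_div, Pi.sub_apply, Pi.one_apply, Pi.pow_apply, ss_zero,
      Complex.ofReal_zero, sub_zero, one_pow, sub_self, zero_smul, pow_zero,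
      one_apply_eq_self] at h0
    linarith
  · have h3 := hk n
    set χ : ℝ → ℂ := (1 - (1 - (fun θ : ℝ => (ss θ : ℂ))) ^ N : ℝ → ℂ) with hχd
    have e : (TY ^ n) z - (TY ^ n) y =
        ((TY ^ n) z - χ ((n : ℝ) / 2 ^ m) • (TY ^ n) y) + (χ ((n : ℝ) / 2 ^ m) - 1) • (TY ^ n) y := by
      rw [sub_smul, one_smul]; abel
    rw [e]
    have h4 : ‖χ ((n : ℝ) / 2 ^ m) - 1‖ ≤ (1 / 4) ^ N := by
      have e2 : χ ((n : ℝ) / 2 ^ m) - 1 = -((1 - ss ((n : ℝ) / 2 ^ m) : ℝ) : ℂ) ^ N := by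
        simp only [hχd, Pi.sub_apply, Pi.one_apply, Pi.pow_apply]
        push_cast
        ring
      rw [e2, norm_neg, norm_pow, Complex.norm_real, Real.norm_of_nonneg
        (by linarith [ss_le_one ((n : ℝ) / 2 ^ m)])]
      have h5 := ss_mid h1 h2
      have h6 := ss_le_one ((n : ℝ) / 2 ^ m)
      gcongr
      linarith
    refine (norm_add_le _ _).trans ?_
    rw [norm_smul]
    have h7 : ‖χ ((n : ℝ) / 2 ^ m) - 1‖ * ‖(TY ^ n) y‖ ≤ (1 / 4) ^ N * B := by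
      gcongr
      exact hB n
    linarith

theorem mixY {u v : Ysp} (hu : u ∈ VV) (hv : v ∈ VV) {ε : ℝ} (hε : 0 < ε) :
    ∃ N : ℕ, ∀ n, N ≤ n → ∃ w ∈ VV, ‖w - u‖ ≤ ε ∧ ‖(TY ^ n) w - v‖ ≤ ε := by
  obtain ⟨r, hr⟩ := exists_period hv
  set P := 2 ^ r with hP
  have hP1 : 1 ≤ P := Nat.one_le_two_pow
  have hev : ∀ᶠ m : ℕ in atTop,
      (∃ z ∈ VV, ‖z‖ ≤ ε / 2 ∧ ∀ n : ℕ, 1 / 3 ≤ (n : ℝ) / 2 ^ m →
        (n : ℝ) / 2 ^ m ≤ 2 / 3 → ‖(TY ^ n) z - (TY ^ n) u‖ ≤ ε / 2) ∧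
      ∀ i ∈ Finset.range P, (∃ z ∈ VV, ‖z‖ ≤ ε / 2 ∧ ∀ n : ℕ, 1 / 3 ≤ (n : ℝ) / 2 ^ m →
        (n : ℝ) / 2 ^ m ≤ 2 / 3 → ‖(TY ^ n) z - (TY ^ n) ((TY ^ i) v)‖ ≤ ε / 2) := by
    refine (small_copy hu (by positivity)).and ?_
    rw [Filter.eventually_all_finset]
    intro i _
    exact small_copy (TY_pow_mem hv i) (by positivity)
  obtain ⟨m₀, hm₀⟩ := eventually_atTop.mp hev
  refine ⟨2 ^ m₀ + 1, fun n hn => ?_⟩
  set m := Nat.log 2 (3 * n) with hm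
  have hn1 : 1 ≤ n := by
    have : 1 ≤ 2 ^ m₀ := Nat.one_le_two_pow
    omega
  have h1 : 2 ^ m ≤ 3 * n := Nat.pow_log_le_self 2 (by omega)
  have h2 : 3 * n < 2 ^ (m + 1) := Nat.lt_pow_succ_log_self (by norm_num) _
  have hmm : m₀ ≤ m := by
    apply Nat.le_log_of_pow_le (by norm_num)
    omega
  have h1' : (2 : ℝ) ^ m ≤ 3 * n := by exact_mod_cast h1
  have h2' : (3 : ℝ) * n ≤ 2 ^ (m + 1) := by exact_mod_cast h2.le
  have h2m : (0 : ℝ) < 2 ^ m := by positivity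
  have ha : 1 / 3 ≤ (n : ℝ) / 2 ^ m := by
    rw [div_le_div_iff₀ (by norm_num) h2m]; linarith
  have hb : (n : ℝ) / 2 ^ m ≤ 2 / 3 := by
    rw [div_le_div_iff₀ h2m (by norm_num)]
    rw [pow_succ] at h2'
    linarith
  obtain ⟨⟨z1, hz1, hz1n, hz1k⟩, hall⟩ := hm₀ m hmm
  -- the preimage of v in its orbit
  set i := (n * P - n) % P with hi
  have hiP : i < P := Nat.mod_lt _ (by omega)
  have hfix : (TY ^ n) ((TY ^ i) v) = v := by
    rw [← mul_apply_eq_comp, ← pow_add]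
    apply pow_dvd_fix hr
    have h3 : n ≤ n * P := Nat.le_mul_of_pos_right n (by omega)
    have h4 : (n * P - n) % P + P * ((n * P - n) / P) = n * P - n := Nat.mod_add_div _ _
    have h5 : n + i + P * ((n * P - n) / P) = P * n := by
      rw [hi, mul_comm P n]; omega
    refine (Nat.dvd_add_left (Dvd.intro ((n * P - n) / P) rfl)).mp ?_
    rw [h5]
    exact Dvd.intro n rfl
  obtain ⟨z2, hz2, hz2n, hz2k⟩ := hall i (Finset.mem_range.mpr hiP)
  refine ⟨u - z1 + z2, VV.add_mem (VV.sub_mem hu hz1) hz2, ?_, ?_⟩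
  · have e : u - z1 + z2 - u = z2 - z1 := by abel
    rw [e]
    refine (norm_sub_le _ _).trans ?_
    linarith
  · have k1 := hz1k n ha hb
    have k2 := hz2k n ha hb
    rw [hfix] at k2
    have e : (TY ^ n) (u - z1 + z2) - v = ((TY ^ n) z2 - v) - ((TY ^ n) z1 - (TY ^ n) u) := by
      rw [map_add, map_sub]; abel
    rw [e]
    refine (norm_sub_le _ _).trans ?_
    linarith

end Pool.Agent.R354.FHC
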