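import Pool.Agent.R354.FHB

open Filter Topology Metric
open scoped BoundedContinuousFunction

namespace Pool.Agent.R354.FHC

/-! ### frequent hypercyclicity -/

/-- times close to an odd multiple of 2^(m-1), relative to 2^m -/
def DD (m g : ℕ) : Set ℕ :=
  {k | 2 ^ (m - 1) < k % 2 ^ m + 2 ^ (m - g) ∧ k % 2 ^ m < 2 ^ (m - 1) + 2 ^ (m - g)}

lemma ss_add_nat (θ : ℝ) (q : ℕ) : ss (θ + q) = ss θ := by
  unfold ss
  have h : Real.pi * (θ + q) = Real.pi * θ + q * Real.pi := by ring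
  rw [h, Real.sin_add_nat_mul_pi, mul_pow, ← pow_mul, mul_comm q 2, pow_mul]
  norm_num

lemma ss_mod (k m : ℕ) : ss ((k : ℝ) / 2 ^ m) = ss (((k % 2 ^ m : ℕ) : ℝ) / 2 ^ m) := by
  have h : (k : ℝ) / 2 ^ m = ((k % 2 ^ m : ℕ) : ℝ) / 2 ^ m + ((k / 2 ^ m : ℕ) : ℝ) := by
    have h1 : ((k % 2 ^ m : ℕ) : ℝ) + 2 ^ m * ((k / 2 ^ m : ℕ) : ℝ) = k := by
      exact_mod_cast Nat.mod_add_div k (2 ^ m)
    rw [← h1]
    field_simp
  rw [h, ss_add_nat]

lemma ss_half {k m : ℕ} (hm : 1 ≤ m) (hk : k % 2 ^ m = 2 ^ (m - 1)) :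
    ss ((k : ℝ) / 2 ^ m) = 1 := by
  rw [ss_mod, hk]
  have h : ((2 ^ (m - 1) : ℕ) : ℝ) / 2 ^ m = 1 / 2 := by
    have e : (2 : ℝ) ^ m = 2 ^ (m - 1) * 2 := by rw [← pow_succ]; congr 1; omega
    push_cast
    rw [e]
    field_simp
  rw [h]
  unfold ss
  have : Real.pi * (1 / 2) = Real.pi / 2 := by ring
  rw [this, Real.sin_pi_div_two]
  norm_num

lemma ss_off {k m g : ℕ} (hg : 2 ≤ g) (hgm : g ≤ m) (hk : k ∉ DD m g) :
    ss ((k : ℝ) / 2 ^ m) ≤ Real.cos (Real.pi / 2 ^ g) ^ 2 := by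
  rw [ss_mod]
  set t := k % 2 ^ m with ht
  have htm : t < 2 ^ m := Nat.mod_lt _ (by positivity)
  have h2m : (0 : ℝ) < 2 ^ m := by positivity
  have h2g : (4 : ℝ) ≤ 2 ^ g := by
    calc (4 : ℝ) = 2 ^ 2 := by norm_num
      _ ≤ 2 ^ g := pow_le_pow_right₀ (by norm_num) hg
  have hpi := Real.pi_pos
  have e1 : (2 : ℝ) ^ (m - 1) / 2 ^ m = 1 / 2 := by
    have e : (2 : ℝ) ^ m = 2 ^ (m - 1) * 2 := by rw [← pow_succ]; congr 1; omega
    rw [e]; field_simp
  have e2 : (2 : ℝ) ^ (m - g) / 2 ^ m = 1 / 2 ^ g := by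
    have e : (2 : ℝ) ^ m = 2 ^ (m - g) * 2 ^ g := by rw [← pow_add]; congr 1; omega
    rw [e]; field_simp
  have hsmall : Real.pi / 2 ^ g ≤ Real.pi / 4 := by
    apply div_le_div_of_nonneg_left hpi.le (by norm_num) h2g
  have hpos : 0 < Real.pi / 2 ^ g := by positivity
  unfold ss
  have key : ∀ x : ℝ, 0 ≤ x → x ≤ 1 / 2 - 1 / 2 ^ g →
      Real.sin (Real.pi * x) ^ 2 ≤ Real.cos (Real.pi / 2 ^ g) ^ 2 := by
    intro x hx0 hx1
    have h3 : Real.pi * x ≤ Real.pi / 2 - Real.pi / 2 ^ g := by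
      calc Real.pi * x ≤ Real.pi * (1 / 2 - 1 / 2 ^ g) := by gcongr
        _ = _ := by ring
    have h4 : Real.sin (Real.pi * x) ≤ Real.sin (Real.pi / 2 - Real.pi / 2 ^ g) := by
      apply Real.sin_le_sin_of_le_of_le_pi_div_two _ _ h3
      · have : 0 ≤ Real.pi * x := by positivity
        linarith
      · linarith
    rw [Real.sin_pi_div_two_sub] at h4
    have h5 : 0 ≤ Real.sin (Real.pi * x) := by
      apply Real.sin_nonneg_of_nonneg_of_le_pi (by positivity)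
      linarith
    gcongr
  have hcase : t + 2 ^ (m - g) ≤ 2 ^ (m - 1) ∨ 2 ^ (m - 1) + 2 ^ (m - g) ≤ t := by
    by_contra hcon
    push Not at hcon
    exact hk ⟨hcon.1, hcon.2⟩
  rcases hcase with h | h
  · apply key _ (by positivity)
    have h' : (t : ℝ) + 2 ^ (m - g) ≤ 2 ^ (m - 1) := by exact_mod_cast h
    rw [← e1, ← e2, ← sub_div]
    gcongr
    linarith
  · have h' : (2 : ℝ) ^ (m - 1) + 2 ^ (m - g) ≤ t := by exact_mod_cast h
    have htm' : (t : ℝ) ≤ 2 ^ m := by exact_mod_cast htm.le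
    have e3 : Real.sin (Real.pi * ((t : ℝ) / 2 ^ m)) = Real.sin (Real.pi * (1 - (t : ℝ) / 2 ^ m)) := by
      rw [← Real.sin_pi_sub]
      congr 1
      ring
    rw [e3]
    apply key
    · have : (t : ℝ) / 2 ^ m ≤ 1 := by rw [div_le_one h2m]; exact htm'
      linarith
    · have : 1 / 2 + 1 / 2 ^ g ≤ (t : ℝ) / 2 ^ m := by
        rw [← e1, ← e2, ← add_div]
        gcongr
      linarith

/-- the inductive step -/
lemma step {Z y : Ysp} (hZ : Z ∈ VV) (hy : y ∈ VV) (m g : ℕ) (hg : 2 ≤ g) {ε : ℝ} (hε : 0 < ε) :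
    ∃ (Z' : Ysp) (m' : ℕ), Z' ∈ VV ∧ m < m' ∧ g ≤ m' ∧
      (∀ k ∉ DD m' g, ‖(TY ^ k) Z' - (TY ^ k) Z‖ ≤ ε) ∧
      (∀ k, k % 2 ^ m' = 2 ^ (m' - 1) → ‖(TY ^ k) Z' - y‖ ≤ ε) := by
  have hyZ : y - Z ∈ VV := VV.sub_mem hy hZ
  obtain ⟨r1, hr1⟩ := exists_period hyZ
  obtain ⟨r2, hr2⟩ := exists_period hZ
  obtain ⟨B, hB0, hB⟩ := exists_orbit_bound hyZ
  set ρ : ℝ := Real.cos (Real.pi / 2 ^ g) ^ 2 with hρ
  have hρ0 : 0 ≤ ρ := sq_nonneg _
  have hρ1 : ρ < 1 := by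
    have h2g : (4 : ℝ) ≤ 2 ^ g := by
      calc (4 : ℝ) = 2 ^ 2 := by norm_num
        _ ≤ 2 ^ g := pow_le_pow_right₀ (by norm_num) hg
    have hpi := Real.pi_pos
    have hsmall : Real.pi / 2 ^ g ≤ Real.pi / 4 := by
      apply div_le_div_of_nonneg_left hpi.le (by norm_num) h2g
    have hpos : 0 < Real.pi / 2 ^ g := by positivity
    have h1 : 0 < Real.sin (Real.pi / 2 ^ g) :=
      Real.sin_pos_of_pos_of_lt_pi hpos (by linarith)
    have h2 := Real.sin_sq_add_cos_sq (Real.pi / 2 ^ g)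
    rw [hρ]
    nlinarith [pow_pos h1 2]
  obtain ⟨M, hM⟩ := ((tendsto_pow_atTop_nhds_zero_of_lt_one hρ0 hρ1).mul_const B).eventually
    (gt_mem_nhds (by simpa using half_pos hε) : ∀ᶠ x in 𝓝 (0 * B), x < ε / 2) |>.exists
  have hχ : ((fun θ : ℝ => (ss θ : ℂ)) ^ M) ∈ TP := TP_pow ss_mem M
  obtain ⟨m', hm', ⟨z, hz, hk⟩⟩ := ((eventually_gt_atTop (m + g + r1 + r2)).and
    (good_all hχ hyZ (ε / 2) (by positivity))).exists
  refine ⟨Z + z, m', VV.add_mem hZ hz, by omega, by omega, fun k hkD => ?_, fun k hkA => ?_⟩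
  · have h1 := hk k
    have e : (TY ^ k) (Z + z) - (TY ^ k) Z =
        ((TY ^ k) z - ((fun θ : ℝ => (ss θ : ℂ)) ^ M) ((k : ℝ) / 2 ^ m') • (TY ^ k) (y - Z)) +
        ((fun θ : ℝ => (ss θ : ℂ)) ^ M) ((k : ℝ) / 2 ^ m') • (TY ^ k) (y - Z) := by
      rw [map_add]; abel
    rw [e]
    refine (norm_add_le _ _).trans ?_
    rw [norm_smul, Pi.pow_apply, norm_pow, Complex.norm_real, Real.norm_of_nonneg (ss_nonneg _)]
    rw [Pi.pow_apply] at h1
    have h2 : ss ((k : ℝ) / 2 ^ m') ^ M * ‖(TY ^ k) (y - Z)‖ ≤ ρ ^ M * B := by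
      have h3 := ss_off hg (by omega) hkD
      have h4 := ss_nonneg ((k : ℝ) / 2 ^ m')
      have h5 := hB k
      gcongr
    linarith
  · have h1 := hk k
    rw [Pi.pow_apply, ss_half (by omega) hkA, Complex.ofReal_one, one_pow, one_smul] at h1
    have hdiv : ∀ r, r ≤ m' - 1 → 2 ^ r ∣ k := by
      intro r hr
      have h3 : 2 ^ (m' - 1) ∣ k := by
        have h4 := Nat.mod_add_div k (2 ^ m')
        rw [hkA] at h4
        have h5 : 2 ^ m' = 2 ^ (m' - 1) * 2 := by rw [← pow_succ]; congr 1; omega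
        rw [← h4]
        apply Dvd.dvd.add (dvd_refl _)
        rw [h5, mul_assoc]
        exact Dvd.intro _ rfl
      exact (pow_dvd_pow 2 hr).trans h3
    have h2 : (TY ^ k) (y - Z) = y - Z := pow_dvd_fix hr1 (hdiv r1 (by omega))
    have h3 : (TY ^ k) Z = Z := pow_dvd_fix hr2 (hdiv r2 (by omega))
    rw [h2] at h1
    have e : (TY ^ k) (Z + z) - y = (TY ^ k) z - (y - Z) := by
      rw [map_add, h3]; abel
    rw [e]
    linarith

/-! #### counting -/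

open Classical in
lemma card_DD (m g : ℕ) (hg : 2 ≤ g) (hgm : g ≤ m) (N : ℕ) :
    ((Finset.filter (fun k => k ∈ DD m g) (Finset.range N)).card : ℝ) ≤ 10 / 2 ^ g * N := by
  by_cases hN : N ≤ 2 ^ (m - 2)
  · have : Finset.filter (fun k => k ∈ DD m g) (Finset.range N) = ∅ := by
      rw [Finset.filter_eq_empty_iff]
      intro k hk hkD
      rw [Finset.mem_range] at hk
      have h1 : 2 ^ m = 2 ^ (m - 2) * 4 := by
        rw [show (4 : ℕ) = 2 ^ 2 by norm_num, ← pow_add]; congr 1; omega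
      have h2 : 2 ^ (m - 1) = 2 ^ (m - 2) * 2 := by
        rw [← pow_succ]; congr 1; omega
      have h3 : 2 ^ (m - g) ≤ 2 ^ (m - 2) := Nat.pow_le_pow_right (by norm_num) (by omega)
      have h4 : k % 2 ^ m = k := Nat.mod_eq_of_lt (by omega)
      have h5 := hkD.1
      rw [h4] at h5
      omega
    rw [this, Finset.card_empty, Nat.cast_zero]
    positivity
  · push Not at hN
    -- inject into range (N / 2^m + 1) ×ˢ window
    have hcard : (Finset.filter (fun k => k ∈ DD m g) (Finset.range N)).card ≤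
        (N / 2 ^ m + 1) * (2 * 2 ^ (m - g)) := by
      have h1 : (Finset.filter (fun k => k ∈ DD m g) (Finset.range N)).card ≤
          ((Finset.range (N / 2 ^ m + 1)) ×ˢ
            (Finset.Ico (2 ^ (m - 1) - 2 ^ (m - g)) (2 ^ (m - 1) + 2 ^ (m - g)))).card := by
        apply Finset.card_le_card_of_injOn (fun k => (k / 2 ^ m, k % 2 ^ m))
        · intro k hk
          simp only [Finset.coe_filter, Finset.mem_range, Set.mem_ofPred_eq] at hk
          simp only [Finset.coe_product, Set.mem_prod, Finset.coe_range, Set.mem_Iio,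
            Finset.coe_Ico, Set.mem_Ico]
          obtain ⟨hkN, hk1, hk2⟩ := hk
          refine ⟨Nat.lt_succ_of_le (Nat.div_le_div_right hkN.le), by omega, hk2⟩
        · intro a _ b _ hab
          simp only [Prod.mk.injEq] at hab
          rw [← Nat.mod_add_div a (2 ^ m), ← Nat.mod_add_div b (2 ^ m), hab.1, hab.2]
      refine h1.trans ?_
      rw [Finset.card_product, Finset.card_range, Nat.card_Ico]
      have h2 : 2 ^ (m - g) ≤ 2 ^ (m - 1) := Nat.pow_le_pow_right (by norm_num) (by omega)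
      have h3 : 2 ^ (m - 1) + 2 ^ (m - g) - (2 ^ (m - 1) - 2 ^ (m - g)) = 2 * 2 ^ (m - g) := by
        omega
      rw [h3]
    have hcard' : ((Finset.filter (fun k => k ∈ DD m g) (Finset.range N)).card : ℝ) ≤
        ((N / 2 ^ m : ℕ) + 1 : ℝ) * (2 * 2 ^ (m - g)) := by exact_mod_cast hcard
    refine hcard'.trans ?_
    have h4 : ((N / 2 ^ m : ℕ) : ℝ) ≤ (N : ℝ) / 2 ^ m := by
      have := @Nat.cast_div_le ℝ _ _ _ N (2 ^ m)
      simpa using this
    have h5 : (2 : ℝ) ^ m = 2 ^ (m - 2) * 4 := by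
      rw [show (4 : ℝ) = 2 ^ 2 by norm_num, ← pow_add]; congr 1; omega
    have h6 : (2 : ℝ) ^ (m - 2) ≤ N := by exact_mod_cast hN.le
    have h7 : (2 : ℝ) ^ (m - g) * 2 ^ g = 2 ^ m := by rw [← pow_add]; congr 1; omega
    have h8 : (0 : ℝ) < 2 ^ g := by positivity
    have h9 : (0 : ℝ) < 2 ^ m := by positivity
    have h10 : (2 : ℝ) ^ (m - g) = 2 ^ m / 2 ^ g := by rw [← h7]; field_simp
    rw [h10]
    calc (((N / 2 ^ m : ℕ) : ℝ) + 1) * (2 * (2 ^ m / 2 ^ g))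
        ≤ ((N : ℝ) / 2 ^ m + 1) * (2 * (2 ^ m / 2 ^ g)) := by gcongr
      _ = 2 * (N + 2 ^ m) / 2 ^ g := by field_simp
      _ ≤ 2 * (N + 4 * N) / 2 ^ g := by gcongr; linarith
      _ = 10 / 2 ^ g * N := by ring

open Classical in
lemma card_AA (m : ℕ) (hm : 1 ≤ m) (N : ℕ) :
    (N : ℝ) / 2 ^ m - 1 ≤
      ((Finset.filter (fun k => k % 2 ^ m = 2 ^ (m - 1)) (Finset.range N)).card : ℝ) := by
  have h1 : N / 2 ^ m ≤ (Finset.filter (fun k => k % 2 ^ m = 2 ^ (m - 1)) (Finset.range N)).card := by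
    have h0 : (Finset.range (N / 2 ^ m)).card ≤
        (Finset.filter (fun k => k % 2 ^ m = 2 ^ (m - 1)) (Finset.range N)).card := by
      have hlt : 2 ^ (m - 1) < 2 ^ m := Nat.pow_lt_pow_right (by norm_num) (by omega)
      apply Finset.card_le_card_of_injOn (fun i => 2 ^ (m - 1) + 2 ^ m * i)
      · intro i hi
        simp only [Finset.coe_range, Set.mem_Iio] at hi
        simp only [Finset.coe_filter, Finset.mem_range, Set.mem_ofPred_eq]
        refine ⟨?_, ?_⟩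
        · have h2 : (i + 1) * 2 ^ m ≤ N := by
            calc (i + 1) * 2 ^ m ≤ (N / 2 ^ m) * 2 ^ m := Nat.mul_le_mul_right _ hi
              _ ≤ N := Nat.div_mul_le_self _ _
          have h3 : (i + 1) * 2 ^ m = 2 ^ m * i + 2 ^ m := by ring
          omega
        · rw [Nat.add_mul_mod_self_left]
          exact Nat.mod_eq_of_lt hlt
      · intro a _ b _ hab
        have h2 : 2 ^ m * a = 2 ^ m * b := by simpa using hab
        exact Nat.eq_of_mul_eq_mul_left (by positivity) h2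
    simpa using h0
  have h2 : ((N / 2 ^ m : ℕ) : ℝ) ≤
      ((Finset.filter (fun k => k % 2 ^ m = 2 ^ (m - 1)) (Finset.range N)).card : ℝ) := by
    exact_mod_cast h1
  refine le_trans ?_ h2
  have h3 : N < 2 ^ m * (N / 2 ^ m) + 2 ^ m := by
    have h31 := Nat.mod_add_div N (2 ^ m)
    have h32 : N % 2 ^ m < 2 ^ m := Nat.mod_lt _ (by positivity)
    omega
  have h4 : (N : ℝ) ≤ 2 ^ m * ((N / 2 ^ m : ℕ) : ℝ) + 2 ^ m := by exact_mod_cast h3.le
  have h5 : (0 : ℝ) < 2 ^ m := by positivity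
  rw [sub_le_iff_le_add, div_le_iff₀ h5]
  linarith

/-! #### the vector -/

/-- the sequence of partial sums and levels -/
noncomputable def stt (y : ℕ → Ysp) (hy : ∀ p, y p ∈ VV) : ℕ → {s : Ysp × ℕ // s.1 ∈ VV}
  | 0 => ⟨(0, 0), VV.zero_mem⟩
  | p + 1 =>
    have h := step (stt y hy p).2 (hy p) (stt y hy p).1.2 ((stt y hy p).1.2 + p + 7) (by omega)
      (ε := (1 / 2 : ℝ) ^ p) (by positivity)
    ⟨(h.choose, h.choose_spec.choose), h.choose_spec.choose_spec.1⟩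

lemma stt_spec (y : ℕ → Ysp) (hy : ∀ p, y p ∈ VV) (p : ℕ) :
    (stt y hy p).1.2 < (stt y hy (p + 1)).1.2 ∧
    (stt y hy p).1.2 + p + 7 ≤ (stt y hy (p + 1)).1.2 ∧
      (∀ k ∉ DD (stt y hy (p + 1)).1.2 ((stt y hy p).1.2 + p + 7),
        ‖(TY ^ k) (stt y hy (p + 1)).1.1 - (TY ^ k) (stt y hy p).1.1‖ ≤ (1 / 2 : ℝ) ^ p) ∧
      (∀ k, k % 2 ^ (stt y hy (p + 1)).1.2 = 2 ^ ((stt y hy (p + 1)).1.2 - 1) →
        ‖(TY ^ k) (stt y hy (p + 1)).1.1 - y p‖ ≤ (1 / 2 : ℝ) ^ p) := by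
  have h := step (stt y hy p).2 (hy p) (stt y hy p).1.2 ((stt y hy p).1.2 + p + 7) (by omega)
      (ε := (1 / 2 : ℝ) ^ p) (by positivity)
  exact h.choose_spec.choose_spec.2

theorem freqY (y : ℕ → Ysp) (hy : ∀ p, y p ∈ VV) :
    ∃ u ∈ VV.topologicalClosure, ∀ p : ℕ, ∃ δ : ℝ, 0 < δ ∧ ∃ N₀ : ℕ, ∀ N, N₀ ≤ N →
      δ * (N : ℝ) ≤ (Nat.card {n : ℕ // n < N ∧ ‖(TY ^ n) u - y p‖ ≤ 2 * (1 / 2 : ℝ) ^ p} : ℝ) := by
  classical
  set Z : ℕ → Ysp := fun p => (stt y hy p).1.1 with hZ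
  set mm : ℕ → ℕ := fun p => (stt y hy p).1.2 with hmm
  have hspec := stt_spec y hy
  have hmono : StrictMono mm := strictMono_nat_of_lt_succ fun p => (hspec p).1
  have hzero : ∀ p, 0 ∉ DD (mm (p + 1)) (mm p + p + 7) := by
    intro p hp
    have h1 := hp.1
    rw [Nat.zero_mod] at h1
    have h2 : 2 ^ (mm (p + 1) - (mm p + p + 7)) ≤ 2 ^ (mm (p + 1) - 1) :=
      Nat.pow_le_pow_right (by norm_num) (by omega)
    omega
  have hcau : CauchySeq Z := by
    apply cauchySeq_of_le_geometric (1 / 2) 1 (by norm_num)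
    intro p
    rw [dist_comm, dist_eq_norm, one_mul]
    have := (hspec p).2.2.1 0 (hzero p)
    simpa using this
  obtain ⟨u, hu⟩ := cauchySeq_tendsto_of_complete hcau
  have humem : u ∈ VV.topologicalClosure := by
    apply mem_closure_of_tendsto hu
    filter_upwards with p
    exact (stt y hy p).2
  refine ⟨u, humem, fun p => ?_⟩
  -- good times
  have hgood : ∀ n : ℕ, n % 2 ^ (mm (p + 1)) = 2 ^ (mm (p + 1) - 1) →
      (∀ q, p < q → n ∉ DD (mm (q + 1)) (mm q + q + 7)) →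
      ‖(TY ^ n) u - y p‖ ≤ 2 * (1 / 2 : ℝ) ^ p := by
    intro n hn hnD
    have h1 : ∀ Q, p + 1 ≤ Q → ‖(TY ^ n) (Z Q) - (TY ^ n) (Z (p + 1))‖ ≤
        2 * ((1 / 2 : ℝ) ^ (p + 1) - (1 / 2) ^ Q) := by
      intro Q hQ
      induction Q, hQ using Nat.le_induction with
      | base => simp
      | succ Q hQ ih =>
        have h2 := (hspec Q).2.2.1 n (hnD Q (by omega))
        have e : (TY ^ n) (Z (Q + 1)) - (TY ^ n) (Z (p + 1)) =
            ((TY ^ n) (Z (Q + 1)) - (TY ^ n) (Z Q)) + ((TY ^ n) (Z Q) - (TY ^ n) (Z (p + 1))) := by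
          abel
        rw [e]
        refine (norm_add_le _ _).trans ?_
        have h3 : (1 / 2 : ℝ) ^ (Q + 1) = (1 / 2) ^ Q * (1 / 2) := pow_succ _ _
        rw [h3]
        have h4 : ‖(TY ^ n) (Z (Q + 1)) - (TY ^ n) (Z Q)‖ ≤ (1 / 2 : ℝ) ^ Q := h2
        linarith
    have h2 : ‖(TY ^ n) u - (TY ^ n) (Z (p + 1))‖ ≤ (1 / 2 : ℝ) ^ p := by
      have hlim : Tendsto (fun Q => ‖(TY ^ n) (Z Q) - (TY ^ n) (Z (p + 1))‖) atTop
          (𝓝 ‖(TY ^ n) u - (TY ^ n) (Z (p + 1))‖) := by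
        apply Tendsto.norm
        exact (((TY ^ n).continuous.tendsto u).comp hu).sub_const _
      apply le_of_tendsto hlim
      filter_upwards [eventually_ge_atTop (p + 1)] with Q hQ
      refine (h1 Q hQ).trans ?_
      have h3 : (1 / 2 : ℝ) ^ (p + 1) = (1 / 2) ^ p * (1 / 2) := pow_succ _ _
      have h4 : (0 : ℝ) ≤ (1 / 2 : ℝ) ^ Q := by positivity
      rw [h3]
      linarith
    have h3 := (hspec p).2.2.2 n hn
    have e : (TY ^ n) u - y p = ((TY ^ n) u - (TY ^ n) (Z (p + 1))) + ((TY ^ n) (Z (p + 1)) - y p) := by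
      abel
    rw [e]
    refine (norm_add_le _ _).trans ?_
    have h4 : ‖(TY ^ n) (Z (p + 1)) - y p‖ ≤ (1 / 2 : ℝ) ^ p := h3
    linarith
  set m := mm (p + 1) with hm
  have hm1 : 1 ≤ m := by
    have := (hspec p).2.1
    change mm p + p + 7 ≤ m at this
    omega
  have h2m : (0 : ℝ) < 2 ^ m := by positivity
  refine ⟨1 / 2 / 2 ^ m, by positivity, 4 * 2 ^ m, fun N hN => ?_⟩
  have hN' : (4 : ℝ) * 2 ^ m ≤ N := by exact_mod_cast hN
  -- choose Q with 2^(mm (Q+1) - 2) ≥ N beyond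
  set Q := N + p + 2 with hQ
  set A := Finset.filter (fun k => k % 2 ^ m = 2 ^ (m - 1)) (Finset.range N) with hA
  set Dq : ℕ → Finset ℕ := fun q =>
    Finset.filter (fun k => k ∈ DD (mm (q + 1)) (mm q + q + 7)) (Finset.range N) with hDq
  set bad := (Finset.Ioc p Q).biUnion Dq with hbad
  have hbadcard : (bad.card : ℝ) ≤ N / (8 * 2 ^ m) := by
    have h1 : (bad.card : ℝ) ≤ ∑ q ∈ Finset.Ioc p Q, ((Dq q).card : ℝ) := by
      exact_mod_cast Finset.card_biUnion_le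
    refine h1.trans ?_
    have h2 : ∀ q ∈ Finset.Ioc p Q, ((Dq q).card : ℝ) ≤ (N / (8 * 2 ^ m)) * (1 / 2 : ℝ) ^ q := by
      intro q hq
      rw [Finset.mem_Ioc] at hq
      have h3 := card_DD (mm (q + 1)) (mm q + q + 7) (by omega) (hspec q).2.1 N
      refine h3.trans ?_
      have h4 : m ≤ mm q := hmono.monotone (by omega)
      have h5 : (2 : ℝ) ^ m * 2 ^ q * 128 ≤ 2 ^ (mm q + q + 7) := by
        rw [pow_add, pow_add]
        have : (2 : ℝ) ^ m ≤ 2 ^ mm q := pow_le_pow_right₀ (by norm_num) h4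
        have h6 : (2 : ℝ) ^ 7 = 128 := by norm_num
        rw [h6]
        gcongr
      have h6 : (10 : ℝ) / 2 ^ (mm q + q + 7) ≤ 1 / (8 * 2 ^ m) * (1 / 2) ^ q := by
        rw [one_div_pow, div_le_iff₀ (by positivity)]
        have h7 : (0 : ℝ) < 2 ^ q := by positivity
        calc (10 : ℝ) ≤ 16 := by norm_num
          _ = 1 / (8 * 2 ^ m) * (1 / 2 ^ q) * (2 ^ m * 2 ^ q * 128) := by field_simp; norm_num
          _ ≤ 1 / (8 * 2 ^ m) * (1 / 2 ^ q) * 2 ^ (mm q + q + 7) := by gcongr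
      calc (10 : ℝ) / 2 ^ (mm q + q + 7) * N ≤ (1 / (8 * 2 ^ m) * (1 / 2) ^ q) * N := by gcongr
        _ = _ := by ring
    refine (Finset.sum_le_sum h2).trans ?_
    rw [← Finset.mul_sum]
    have h3 : ∑ q ∈ Finset.Ioc p Q, (1 / 2 : ℝ) ^ q ≤ 1 := by
      have h4 : ∑ q ∈ Finset.Ioc p Q, (1 / 2 : ℝ) ^ q ≤ ∑ q ∈ Finset.Ioc 0 Q, (1 / 2 : ℝ) ^ q := by
        apply Finset.sum_le_sum_of_subset_of_nonneg
        · apply Finset.Ioc_subset_Ioc_left (Nat.zero_le _)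
        · intro i _ _; positivity
      refine h4.trans ?_
      have h5 : ∀ Q : ℕ, ∑ q ∈ Finset.Ioc 0 Q, (1 / 2 : ℝ) ^ q = 1 - (1 / 2) ^ Q := by
        intro Q
        induction Q with
        | zero => simp
        | succ Q ih =>
          rw [← Finset.sum_Ioc_consecutive _ (Nat.zero_le Q) (Nat.le_succ Q), ih,
            Nat.Ioc_succ_singleton, Finset.sum_singleton, pow_succ]
          ring
      rw [h5]
      have : (0 : ℝ) ≤ (1 / 2) ^ Q := by positivity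
      linarith
    have h4 : (0 : ℝ) ≤ N / (8 * 2 ^ m) := by positivity
    nlinarith
  have hAcard : (N : ℝ) / 2 ^ m - 1 ≤ (A.card : ℝ) := card_AA m hm1 N
  have hsub : ∀ n ∈ A \ bad, n < N ∧ ‖(TY ^ n) u - y p‖ ≤ 2 * (1 / 2 : ℝ) ^ p := by
    intro n hn
    rw [Finset.mem_sdiff] at hn
    obtain ⟨hnA, hnb⟩ := hn
    rw [hA, Finset.mem_filter, Finset.mem_range] at hnA
    refine ⟨hnA.1, hgood n hnA.2 fun q hq hqD => ?_⟩
    by_cases hqQ : q ≤ Q
    · apply hnb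
      rw [hbad, Finset.mem_biUnion]
      exact ⟨q, Finset.mem_Ioc.mpr ⟨hq, hqQ⟩, Finset.mem_filter.mpr
        ⟨Finset.mem_range.mpr hnA.1, hqD⟩⟩
    · push Not at hqQ
      have h1 : q ≤ mm (q + 1) - 2 := by
        have := (hspec q).2.1
        change mm q + q + 7 ≤ mm (q + 1) at this
        omega
      have h2 : N < 2 ^ (mm (q + 1) - 2) := by
        calc N < 2 ^ N := Nat.lt_two_pow_self
          _ ≤ 2 ^ (mm (q + 1) - 2) := Nat.pow_le_pow_right (by norm_num) (by omega)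
      have h3 := card_DD (mm (q + 1)) (mm q + q + 7) (by omega) (hspec q).2.1 N
      have hm2 : 2 ≤ mm (q + 1) := by
        have := (hspec q).2.1
        change mm q + q + 7 ≤ mm (q + 1) at this
        omega
      have e1 : 2 ^ mm (q + 1) = 2 ^ (mm (q + 1) - 2) * 4 := by
        rw [show (4 : ℕ) = 2 ^ 2 by norm_num, ← pow_add]; congr 1; omega
      have e2 : 2 ^ (mm (q + 1) - 1) = 2 ^ (mm (q + 1) - 2) * 2 := by
        rw [← pow_succ]; congr 1; omega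
      have e3 : 2 ^ (mm (q + 1) - (mm q + q + 7)) ≤ 2 ^ (mm (q + 1) - 2) :=
        Nat.pow_le_pow_right (by norm_num) (by omega)
      have e4 : n % 2 ^ mm (q + 1) = n := Nat.mod_eq_of_lt (by omega)
      have h5 := hqD.1
      rw [e4] at h5
      omega
  have hcard : (A \ bad).card ≤ Nat.card {n : ℕ // n < N ∧
      ‖(TY ^ n) u - y p‖ ≤ 2 * (1 / 2 : ℝ) ^ p} := by
    have hfin : {n : ℕ | n < N ∧ ‖(TY ^ n) u - y p‖ ≤ 2 * (1 / 2 : ℝ) ^ p}.Finite :=
      (Set.finite_lt_nat N).subset fun n hn => hn.1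
    have h1 : Nat.card {n : ℕ // n < N ∧ ‖(TY ^ n) u - y p‖ ≤ 2 * (1 / 2 : ℝ) ^ p} =
        hfin.toFinset.card := by
      rw [← Nat.card_eq_card_finite_toFinset hfin]
      rfl
    rw [h1]
    apply Finset.card_le_card
    intro n hn
    rw [Set.Finite.mem_toFinset]
    exact hsub n hn
  have h5 : (A.card : ℝ) ≤ ((A \ bad).card : ℝ) + bad.card := by
    have := Finset.card_le_card_sdiff_add_card (s := A) (t := bad)
    exact_mod_cast this
  have h6 : ((A \ bad).card : ℝ) ≤ (Nat.card {n : ℕ // n < N ∧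
      ‖(TY ^ n) u - y p‖ ≤ 2 * (1 / 2 : ℝ) ^ p} : ℝ) := by exact_mod_cast hcard
  have h7 : (N : ℝ) / (8 * 2 ^ m) = (N / 2 ^ m) / 8 := by field_simp
  have h8 : (4 : ℝ) ≤ N / 2 ^ m := by rw [le_div_iff₀ h2m]; exact hN'
  have h9 : 1 / 2 / 2 ^ m * (N : ℝ) = (N / 2 ^ m) / 2 := by field_simp
  rw [h9]
  rw [h7] at hbadcard
  linarith

end Pool.Agent.R354.FHC
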