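import Pool.Agent.R354.FHC

open Filter Topology Metric MeasureTheory
open scoped BoundedContinuousFunction ContDiff

namespace Pool.Agent.R354.FHC

/-! ### Fourier coefficients -/

/-- Fourier coefficients of a function on [0,1] -/
noncomputable def FC (g : ℝ → ℂ) (n : ℤ) : ℂ := ∫ x in (0 : ℝ)..1, g x * ee (-(n * x))

lemma hasDerivAt_ee (n : ℤ) (x : ℝ) :
    HasDerivAt (fun x : ℝ => ee (-(n * x))) (ee (-(n * x)) * (-(2 * Real.pi * n) * Complex.I)) x := by
  unfold ee
  have h1 : HasDerivAt (fun x : ℝ => ((2 * Real.pi * (-(n * x)) : ℝ) : ℂ) * Complex.I)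
      ((-(2 * Real.pi * n) : ℂ) * Complex.I) x := by
    have h2 : HasDerivAt (fun x : ℝ => (2 * Real.pi * (-(n * x)) : ℝ)) (2 * Real.pi * (-(n * 1))) x :=
      (((hasDerivAt_id' x).const_mul (n : ℝ)).neg).const_mul (2 * Real.pi)
    refine ((h2.ofReal_comp).mul_const Complex.I).congr_deriv ?_
    push_cast
    ring
  exact h1.cexp

lemma continuous_ee : Continuous ee := by
  unfold ee; fun_prop

lemma ee_neg_int_one (n : ℤ) : ee (-(n * (1 : ℝ))) = 1 := by
  have h : (-(n * (1 : ℝ)) : ℝ) = ((-n : ℤ) : ℝ) := by push_cast; ring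
  rw [h, ee_int]

lemma FC_ibp {g : ℝ → ℂ} (hg : ContDiff ℝ ∞ g) (hper : ∀ x, g (x + 1) = g x) {n : ℤ} (hn : n ≠ 0) :
    FC g n = FC (deriv g) n / (2 * Real.pi * n * Complex.I) := by
  have hd := contDiff_infty_iff_deriv.mp hg
  have hn' : (2 * Real.pi * n * Complex.I : ℂ) ≠ 0 := by
    have : (n : ℂ) ≠ 0 := by exact_mod_cast hn
    have hpi : (Real.pi : ℂ) ≠ 0 := by exact_mod_cast Real.pi_ne_zero
    simp [this, hpi]
  have hu : ∀ x ∈ Set.uIcc (0 : ℝ) 1, HasDerivAt g (deriv g x) x := fun x _ =>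
    (hd.1 x).hasDerivAt
  have hv : ∀ x ∈ Set.uIcc (0 : ℝ) 1,
      HasDerivAt (fun x : ℝ => ee (-(n * x)) / (-(2 * Real.pi * n * Complex.I)))
        (ee (-(n * x))) x := by
    intro x _
    refine ((hasDerivAt_ee n x).div_const (-(2 * Real.pi * n * Complex.I))).congr_deriv ?_
    rw [div_eq_iff (neg_ne_zero.mpr hn')]
    ring
  have h := intervalIntegral.integral_mul_deriv_eq_deriv_mul hu hv
    (hd.2.continuous.intervalIntegrable _ _)
    ((continuous_ee.comp (by fun_prop)).intervalIntegrable _ _)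
  unfold FC
  rw [h]
  have h1 : g 1 = g 0 := by
    have := hper 0
    rwa [zero_add] at this
  have h2 : ee (-(n * (0 : ℝ))) = 1 := by simp [ee_zero]
  rw [h1, ee_neg_int_one, h2, sub_self, zero_sub]
  have h3 : ∀ x : ℝ, deriv g x * (ee (-(n * x)) / (-(2 * Real.pi * n * Complex.I))) =
      (deriv g x * ee (-(n * x))) / (-(2 * Real.pi * n * Complex.I)) := fun x => by ring
  simp_rw [h3]
  rw [intervalIntegral.integral_div, div_neg, neg_neg]

lemma deriv_periodic {g : ℝ → ℂ} (hper : ∀ x, g (x + 1) = g x) (x : ℝ) :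
    deriv g (x + 1) = deriv g x := by
  have h : (fun y => g (y + 1)) = g := funext hper
  conv_rhs => rw [← h]
  rw [deriv_comp_add_const]

lemma FC_bound0 {g : ℝ → ℂ} (hg : Continuous g) : ∃ C : ℝ, 0 ≤ C ∧ ∀ n, ‖FC g n‖ ≤ C := by
  refine ⟨∫ x in (0 : ℝ)..1, ‖g x‖, intervalIntegral.integral_nonneg (by norm_num)
    (fun _ _ => norm_nonneg _), fun n => ?_⟩
  unfold FC
  refine (intervalIntegral.norm_integral_le_integral_norm (by norm_num)).trans (le_of_eq ?_)
  congr 1
  funext x
  rw [norm_mul, norm_ee, mul_one]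

lemma FC_decay {g : ℝ → ℂ} (hg : ContDiff ℝ ∞ g) (hper : ∀ x, g (x + 1) = g x) :
    ∃ C : ℝ, 0 ≤ C ∧ ∀ n : ℤ, n ≠ 0 → ‖FC g n‖ ≤ C / |(n : ℝ)| ^ 3 := by
  have hd1 := contDiff_infty_iff_deriv.mp hg
  have hd2 := contDiff_infty_iff_deriv.mp hd1.2
  have hd3 := contDiff_infty_iff_deriv.mp hd2.2
  have hp1 := deriv_periodic hper
  have hp2 := deriv_periodic hp1
  obtain ⟨C, hC0, hC⟩ := FC_bound0 hd3.2.continuous
  refine ⟨C, hC0, fun n hn => ?_⟩
  rw [FC_ibp hg hper hn, FC_ibp hd1.2 hp1 hn, FC_ibp hd2.2 hp2 hn]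
  have hn1 : 0 < |(n : ℝ)| := abs_pos.mpr (by exact_mod_cast hn)
  have hden : |(n : ℝ)| ≤ ‖(2 * Real.pi * n * Complex.I : ℂ)‖ := by
    rw [norm_mul, norm_mul, norm_mul, Complex.norm_I, mul_one, Complex.norm_real,
      Complex.norm_intCast, Real.norm_of_nonneg Real.pi_pos.le]
    have h2 : ‖(2 : ℂ)‖ = 2 := by simp
    rw [h2]
    have := Real.pi_gt_three
    nlinarith
  have hdpos : 0 < ‖(2 * Real.pi * n * Complex.I : ℂ)‖ := lt_of_lt_of_le hn1 hden
  rw [norm_div, norm_div, norm_div, div_div, div_div]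
  have h4 : ‖(2 * Real.pi * n * Complex.I : ℂ)‖ * (‖(2 * Real.pi * n * Complex.I : ℂ)‖ *
      ‖(2 * Real.pi * n * Complex.I : ℂ)‖) = ‖(2 * Real.pi * n * Complex.I : ℂ)‖ ^ 3 := by ring
  rw [h4]
  gcongr
  exact hC n

lemma FC_summable {g : ℝ → ℂ} (hg : ContDiff ℝ ∞ g) (hper : ∀ x, g (x + 1) = g x) :
    Summable fun n : ℤ => wt n * ‖FC g n‖ := by
  obtain ⟨C, hC0, hC⟩ := FC_decay hg hper
  have hs1 : Summable fun n : ℤ => (2 * C) * (1 / (n : ℝ) ^ 2) :=
    (Real.summable_one_div_int_pow.mpr (by norm_num)).mul_left _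
  have hs2 : Summable fun n : ℤ => if n = 0 then ‖FC g 0‖ else 0 :=
    (hasSum_ite_eq (0 : ℤ) ‖FC g 0‖).summable
  refine Summable.of_nonneg_of_le (fun n => mul_nonneg (wt_pos n).le (norm_nonneg _))
    (fun n => ?_) (hs1.add hs2)
  by_cases hn : n = 0
  · subst hn
    simp [wt_zero]
  · rw [if_neg hn, add_zero]
    have hn1 : (1 : ℝ) ≤ |(n : ℝ)| := by exact_mod_cast Int.one_le_abs hn
    have h1 := hC n hn
    have h2 : wt n ≤ 2 * |(n : ℝ)| := by unfold wt; linarith
    calc wt n * ‖FC g n‖ ≤ (2 * |(n : ℝ)|) * (C / |(n : ℝ)| ^ 3) := by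
          gcongr
      _ = (2 * C) * (1 / |(n : ℝ)| ^ 2) := by
          field_simp
      _ = (2 * C) * (1 / (n : ℝ) ^ 2) := by rw [sq_abs]

lemma FC_inversion {g : ℝ → ℂ} (hg : Continuous g) (hper : ∀ x, g (x + 1) = g x)
    (hs : Summable fun n : ℤ => ‖FC g n‖) (x : ℝ) :
    HasSum (fun n : ℤ => FC g n * ee (n * x)) (g x) := by
  have hP : Function.Periodic g 1 := hper
  let f : C(AddCircle (1 : ℝ), ℂ) := ⟨hP.lift, continuous_coinduced_dom.mpr hg⟩
  have hf : ∀ y : ℝ, f (y : AddCircle (1 : ℝ)) = g y := fun y => rfl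
  have hco : ∀ n : ℤ, fourierCoeff f n = FC g n := by
    intro n
    rw [fourierCoeff_eq_intervalIntegral f n 0]
    unfold FC
    simp only [zero_add, div_one, one_smul]
    apply intervalIntegral.integral_congr
    intro y _
    simp only [hf, smul_eq_mul, fourier_coe_apply]
    rw [mul_comm]
    congr 1
    unfold ee
    congr 1
    push_cast
    ring
  have hsum : Summable (fourierCoeff f) := by
    apply Summable.of_norm
    simpa only [hco] using hs
  have h := has_pointwise_sum_fourier_series_of_summable hsum (x : AddCircle (1 : ℝ))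
  rw [hf] at h
  convert h using 1
  funext n
  rw [hco, smul_eq_mul, fourier_coe_apply]
  congr 1
  unfold ee
  congr 1
  push_cast
  ring

lemma swap {g : ℝ → ℂ} (hg : Continuous g) {c : ℤ → ℂ} (hc : Summable fun k => ‖c k‖) :
    HasSum (fun k => c k * FC g k)
      (∫ x in (0 : ℝ)..1, g x * ∑' k : ℤ, c k * ee (-(k * x))) := by
  have hterm : ∀ x : ℝ, Summable fun k : ℤ => c k * ee (-(k * x)) := by
    intro x
    apply Summable.of_norm
    refine hc.congr fun k => ?_
    rw [norm_mul, norm_ee, mul_one]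
  have h := intervalIntegral.hasSum_integral_of_dominated_convergence
    (μ := volume) (a := (0 : ℝ)) (b := 1)
    (F := fun (k : ℤ) (x : ℝ) => g x * (c k * ee (-(k * x))))
    (f := fun x => g x * ∑' k : ℤ, c k * ee (-(k * x)))
    (fun k x => ‖c k‖ * ‖g x‖)
    (fun k => (hg.mul (continuous_const.mul (continuous_ee.comp (by fun_prop)))).aestronglyMeasurable)
    (fun k => Filter.Eventually.of_forall fun x _ => by
      rw [norm_mul, norm_mul, norm_ee, mul_one, mul_comm])
    (Filter.Eventually.of_forall fun x _ => hc.mul_right _)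
    (by
      simp_rw [tsum_mul_right]
      exact (continuous_const.mul hg.norm).intervalIntegrable _ _)
    (Filter.Eventually.of_forall fun x _ => (hterm x).hasSum.mul_left _)
  have e : (fun k => c k * FC g k) =
      fun k : ℤ => ∫ x in (0 : ℝ)..1, g x * (c k * ee (-(k * x))) := by
    funext k
    unfold FC
    rw [← intervalIntegral.integral_const_mul]
    congr 1
    funext x
    ring
  rw [e]
  exact h

lemma FC_ee (j k : ℤ) : FC (fun x => ee (j * x)) k = if k = j then 1 else 0 := by
  unfold FC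
  have h1 : ∀ x : ℝ, ee (j * x) * ee (-(k * x)) =
      Complex.exp ((2 * Real.pi * ((j - k : ℤ) : ℂ) * Complex.I) * x) := by
    intro x
    rw [← ee_add]
    unfold ee
    congr 1
    push_cast
    ring
  simp_rw [h1]
  split_ifs with h
  · subst h
    simp
  · have hne : (2 * Real.pi * ((j - k : ℤ) : ℂ) * Complex.I : ℂ) ≠ 0 := by
      have h2 : ((j - k : ℤ) : ℂ) ≠ 0 := by
        rw [Int.cast_ne_zero]; omega
      have hpi : (Real.pi : ℂ) ≠ 0 := by exact_mod_cast Real.pi_ne_zero
      simp only [ne_eq, mul_eq_zero, not_or]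
      exact ⟨⟨⟨by norm_num, hpi⟩, h2⟩, Complex.I_ne_zero⟩
    rw [integral_exp_mul_complex hne]
    have h3 : Complex.exp (2 * Real.pi * ((j - k : ℤ) : ℂ) * Complex.I * ((1 : ℝ) : ℂ)) = 1 := by
      rw [Complex.exp_eq_one_iff]
      exact ⟨j - k, by push_cast; ring⟩
    rw [h3]
    simp

/-! ### bump functions -/

lemma ss_add_int (θ : ℝ) (n : ℤ) : ss (θ + n) = ss θ := by
  unfold ss
  have h : Real.pi * (θ + n) = Real.pi * θ + n * Real.pi := by ring
  rw [h, Real.sin_add_int_mul_pi, mul_pow]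
  have : ((-1 : ℝ) ^ n) ^ 2 = 1 := by
    rw [← zpow_natCast, ← zpow_mul, mul_comm, zpow_mul]
    norm_num
  rw [this, one_mul]

lemma near_int {y δ : ℝ} (hδ0 : 0 < δ) (h : ss y < ss δ) : ∃ n : ℤ, |y - n| < δ := by
  refine ⟨round y, ?_⟩
  by_contra hcon
  push Not at hcon
  have h1 : |y - round y| ≤ 1 / 2 := abs_sub_round y
  set r := y - round y with hr
  have h2 : ss y = ss r := by
    rw [hr, sub_eq_add_neg]
    have := ss_add_int y (-round y)
    push_cast at this
    exact this.symm
  have h3 : ss r = Real.sin (Real.pi * |r|) ^ 2 := by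
    unfold ss
    rcases abs_cases r with ⟨h, _⟩ | ⟨h, _⟩
    · rw [h]
    · rw [h]
      have : Real.pi * -r = -(Real.pi * r) := by ring
      rw [this, Real.sin_neg]
      ring
  have hpi := Real.pi_pos
  have h4 : Real.sin (Real.pi * δ) ≤ Real.sin (Real.pi * |r|) := by
    apply Real.sin_le_sin_of_le_of_le_pi_div_two
    · have : 0 ≤ Real.pi * δ := by positivity
      linarith
    · calc Real.pi * |r| ≤ Real.pi * (1 / 2) := by gcongr
        _ = Real.pi / 2 := by ring
    · gcongr
  have h5 : 0 ≤ Real.sin (Real.pi * δ) := by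
    apply Real.sin_nonneg_of_nonneg_of_le_pi (by positivity)
    have : Real.pi * δ ≤ Real.pi * 1 := by
      gcongr
      linarith
    linarith
  have h6 : ss δ ≤ ss y := by
    rw [h2, h3]
    unfold ss
    gcongr
  linarith

/-- periodic bump -/
noncomputable def bump (q c : ℝ) (x : ℝ) : ℝ := Real.smoothTransition (c - ss (x - q))

lemma ss_contDiff : ContDiff ℝ ∞ ss := by
  unfold ss
  fun_prop

lemma bump_contDiff (q c : ℝ) : ContDiff ℝ ∞ (bump q c) := by
  unfold bump
  apply Real.smoothTransition.contDiff.comp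
  exact contDiff_const.sub (ss_contDiff.comp (contDiff_id.sub contDiff_const))

lemma bump_nonneg (q c x : ℝ) : 0 ≤ bump q c x := Real.smoothTransition.nonneg _

lemma bump_periodic (q c x : ℝ) : bump q c (x + 1) = bump q c x := by
  unfold bump
  have h := ss_add_int (x - q) 1
  push_cast at h
  have e : x + 1 - q = x - q + 1 := by ring
  rw [e, h]

lemma bump_support {q c x : ℝ} (h : bump q c x ≠ 0) : ss (x - q) < c := by
  by_contra hcon
  push Not at hcon
  exact h (Real.smoothTransition.zero_of_nonpos (by linarith))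

lemma bump_pos {q c : ℝ} (hc : 0 < c) (n : ℤ) : 0 < bump q c (q + n) := by
  unfold bump
  have e : q + (n : ℝ) - q = 0 + n := by ring
  rw [e, ss_add_int, ss_zero, sub_zero]
  exact Real.smoothTransition.pos_of_pos hc

/-! ### the functional -/

/-- weighted pairing with Fourier coefficients -/
noncomputable def Phi (w : ℤ → ℂ) (hw : Summable fun k => ‖w k‖) : Ysp →L[ℂ] ℂ :=
  LinearMap.mkContinuous
    { toFun := fun y => ∑' k, w k * y k
      map_add' := by
        intro x y
        have hs : ∀ y : Ysp, Summable fun k => w k * y k := fun y => by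
          apply Summable.of_norm
          refine Summable.of_nonneg_of_le (fun k => norm_nonneg _) (fun k => ?_)
            (hw.mul_right ‖y‖)
          rw [norm_mul]
          gcongr
          exact y.norm_coe_le_norm k
        rw [← (hs x).tsum_add (hs y)]
        congr 1
        funext k
        rw [BoundedContinuousFunction.add_apply]; ring
      map_smul' := by
        intro c x
        rw [RingHom.id_apply, smul_eq_mul, ← tsum_mul_left]
        congr 1
        funext k
        rw [BoundedContinuousFunction.smul_apply, smul_eq_mul]; ring } (∑' k, ‖w k‖)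
    (by
      intro y
      have hs : Summable fun k => ‖w k * y k‖ := by
        refine Summable.of_nonneg_of_le (fun k => norm_nonneg _) (fun k => ?_)
          (hw.mul_right ‖y‖)
        rw [norm_mul]
        gcongr
        exact y.norm_coe_le_norm k
      change ‖∑' k, w k * y k‖ ≤ _
      refine (norm_tsum_le_tsum_norm hs).trans ?_
      rw [← tsum_mul_right]
      refine hs.tsum_le_tsum (fun k => ?_) (hw.mul_right ‖y‖)
      rw [norm_mul]
      gcongr
      exact y.norm_coe_le_norm k)

lemma Phi_apply (w : ℤ → ℂ) (hw : Summable fun k => ‖w k‖) (y : Ysp) :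
    Phi w hw y = ∑' k, w k * y k := rfl

lemma pairing_zero {g : ℝ → ℂ} (hg : ContDiff ℝ ∞ g) (hper : ∀ x, g (x + 1) = g x)
    (h0 : ∀ t ∈ LAM, g t = 0) {x : Ysp} (hx : x ∈ VV.topologicalClosure) :
    ∑' k : ℤ, ((wt k : ℂ) * FC g k) * x k = 0 := by
  have hs := FC_summable hg hper
  have hw : Summable fun k : ℤ => ‖(wt k : ℂ) * FC g k‖ := by
    refine hs.congr fun k => ?_
    rw [norm_mul, Complex.norm_real, Real.norm_of_nonneg (wt_pos k).le]
  have hs' : Summable fun k : ℤ => ‖FC g k‖ := by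
    refine Summable.of_nonneg_of_le (fun k => norm_nonneg _) (fun k => ?_) hs
    have := wt_ge_one k
    nlinarith [norm_nonneg (FC g k)]
  have hker : VV.topologicalClosure ≤ LinearMap.ker (Phi _ hw : Ysp →ₗ[ℂ] ℂ) := by
    apply Submodule.topologicalClosure_minimal
    · unfold VV
      rw [Submodule.span_le]
      rintro _ ⟨t, ht, rfl⟩
      rw [SetLike.mem_coe, LinearMap.mem_ker]
      change Phi _ hw (EV t) = 0
      rw [Phi_apply]
      have h1 : ∀ k : ℤ, ((wt k : ℂ) * FC g k) * EV t k = FC g k * ee (k * t) := by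
        intro k
        rw [EV_apply]
        have : (wt k : ℂ) ≠ 0 := by exact_mod_cast (wt_pos k).ne'
        field_simp
      simp_rw [h1]
      rw [(FC_inversion hg.continuous hper hs' t).tsum_eq, h0 t ht]
    · exact (Phi _ hw).isClosed_ker
  have := hker hx
  rw [LinearMap.mem_ker] at this
  exact this

theorem no_summable {x : Ysp} (hx : x ∈ VV.topologicalClosure)
    (hs : Summable fun k : ℤ => ‖(wt k : ℂ) * x k‖) : x = 0 := by
  set c : ℤ → ℂ := fun k => (wt k : ℂ) * x k with hc
  set h : ℝ → ℂ := fun t => ∑' k : ℤ, c k * ee (-(k * t)) with hh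
  have hcont : Continuous h := by
    apply continuous_tsum (u := fun k => ‖c k‖) _ hs
    · intro k t
      rw [norm_mul, norm_ee, mul_one]
    · intro k
      exact continuous_const.mul (continuous_ee.comp (by fun_prop))
  have hperh : ∀ (t : ℝ) (n : ℤ), h (t + n) = h t := by
    intro t n
    simp only [hh]
    congr 1
    funext k
    congr 1
    have e : (-(k * (t + n)) : ℝ) = -(k * t) + ((-(k * n) : ℤ) : ℝ) := by push_cast; ring
    rw [e, ee_add, ee_int, mul_one]
  -- vanishing at the centres of the gaps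
  have hzero : ∀ (s : ℕ) (a : ℤ), ¬ (3 ∣ a) → h ((a : ℝ) / (3 * 2 ^ s)) = 0 := by
    intro s a ha
    set q : ℝ := (a : ℝ) / (3 * 2 ^ s) with hq
    by_contra hne
    have hpos : 0 < ‖h q‖ := norm_pos_iff.mpr hne
    obtain ⟨δ₁, hδ₁, hcl⟩ := Metric.continuous_iff.mp hcont q (‖h q‖ / 2) (by positivity)
    set δ : ℝ := min (min δ₁ (1 / 4)) (1 / 4 ^ (s + 10)) with hδ
    have hδ0 : 0 < δ := by
      rw [hδ]; refine lt_min (lt_min hδ₁ (by norm_num)) (by positivity)
    have hδa : δ ≤ δ₁ := (min_le_left _ _).trans (min_le_left _ _)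
    have hδb : δ ≤ 1 / 4 := (min_le_left _ _).trans (min_le_right _ _)
    have hδc : δ ≤ 1 / 4 ^ (s + 10) := min_le_right _ _
    have hssδ : 0 < ss δ := by
      unfold ss
      have h1 : 0 < Real.sin (Real.pi * δ) := by
        apply Real.sin_pos_of_pos_of_lt_pi (by positivity)
        have := Real.pi_pos
        nlinarith
      positivity
    set g : ℝ → ℂ := fun t => ((bump q (ss δ) t : ℝ) : ℂ) with hg
    have hgc : ContDiff ℝ ∞ g := Complex.ofRealCLM.contDiff.comp (bump_contDiff q (ss δ))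
    have hgp : ∀ t, g (t + 1) = g t := fun t => by simp only [hg, bump_periodic]
    have hnear : ∀ t, g t ≠ 0 → ∃ n : ℤ, |t - q - n| < δ := by
      intro t ht
      have h1 : bump q (ss δ) t ≠ 0 := by
        intro h2; apply ht; simp only [hg, h2, Complex.ofReal_zero]
      exact near_int hδ0 (bump_support h1)
    have hgL : ∀ t ∈ LAM, g t = 0 := by
      intro t ht
      by_contra hne2
      obtain ⟨n, hn⟩ := hnear t hne2
      have h1 := add_int_mem_LAM ht (-n)
      have h2 := h1.2 s a ha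
      have h3 : t + ((-n : ℤ) : ℝ) - a / (3 * 2 ^ s) = t - q - n := by
        rw [hq]; push_cast; ring
      rw [h3] at h2
      linarith
    have hpair := pairing_zero hgc hgp hgL hx
    have hsw := (swap hgc.continuous hs).tsum_eq
    have e1 : ∑' k : ℤ, ((wt k : ℂ) * FC g k) * x k = ∑' k : ℤ, c k * FC g k := by
      congr 1
      funext k
      simp only [hc]
      ring
    rw [e1, hsw] at hpair
    -- integral of g * h is zero
    have hint : ∫ t in (0 : ℝ)..1, g t * h t = 0 := hpair
    have hIg : 0 < ∫ t in (0 : ℝ)..1, bump q (ss δ) t := by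
      apply intervalIntegral.integral_pos (by norm_num)
        ((bump_contDiff q (ss δ)).continuous.continuousOn) (fun t _ => bump_nonneg _ _ _)
      refine ⟨q + ((-⌊q⌋ : ℤ) : ℝ), ?_, bump_pos hssδ _⟩
      rw [Set.mem_Icc]
      push_cast
      have f1 := Int.floor_le q
      have f2 := Int.lt_floor_add_one q
      constructor <;> linarith
    have hpt : ∀ t, ‖g t * h t - g t * h q‖ ≤ bump q (ss δ) t * (‖h q‖ / 2) := by
      intro t
      rw [← mul_sub, norm_mul]
      have e2 : ‖g t‖ = bump q (ss δ) t := by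
        simp only [hg, Complex.norm_real, Real.norm_of_nonneg (bump_nonneg _ _ _)]
      rw [e2]
      by_cases hgt : g t = 0
      · rw [← e2, hgt]; simp
      · obtain ⟨n, hn⟩ := hnear t hgt
        have h3 := hcl (t + ((-n : ℤ) : ℝ)) (by
          rw [Real.dist_eq]
          have e3 : t + ((-n : ℤ) : ℝ) - q = t - q - n := by push_cast; ring
          rw [e3]
          linarith)
        rw [hperh, dist_eq_norm] at h3
        have := bump_nonneg q (ss δ) t
        gcongr
    have hkey : ‖(∫ t in (0 : ℝ)..1, g t * h t) - ∫ t in (0 : ℝ)..1, g t * h q‖ ≤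
        ∫ t in (0 : ℝ)..1, bump q (ss δ) t * (‖h q‖ / 2) := by
      have hi1 : IntervalIntegrable (fun t => g t * h t) volume 0 1 :=
        (hgc.continuous.mul hcont).intervalIntegrable _ _
      have hi2 : IntervalIntegrable (fun t => g t * h q) volume 0 1 :=
        (hgc.continuous.mul continuous_const).intervalIntegrable _ _
      rw [← intervalIntegral.integral_sub hi1 hi2]
      refine (intervalIntegral.norm_integral_le_integral_norm (by norm_num)).trans ?_
      apply intervalIntegral.integral_mono_on (by norm_num)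
      · exact (((hgc.continuous.mul hcont).sub (hgc.continuous.mul
          continuous_const)).norm).intervalIntegrable _ _
      · exact ((bump_contDiff q (ss δ)).continuous.mul continuous_const).intervalIntegrable _ _
      · intro t _
        exact hpt t
    rw [hint, zero_sub, norm_neg, intervalIntegral.integral_mul_const,
      intervalIntegral.integral_mul_const, norm_mul] at hkey
    have e4 : ∫ t in (0 : ℝ)..1, g t = ((∫ t in (0 : ℝ)..1, bump q (ss δ) t : ℝ) : ℂ) :=
      intervalIntegral.integral_ofReal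
    rw [e4, Complex.norm_real, Real.norm_of_nonneg hIg.le] at hkey
    nlinarith
  -- density
  have hall : h = 0 := by
    funext t
    rw [Pi.zero_apply]
    by_contra hne
    have hpos : 0 < ‖h t‖ := norm_pos_iff.mpr hne
    obtain ⟨δ, hδ, hcl⟩ := Metric.continuous_iff.mp hcont t ‖h t‖ hpos
    obtain ⟨s, hs2⟩ := exists_pow_lt_of_lt_one hδ (by norm_num : (1 / 2 : ℝ) < 1)
    -- a = 3 * floor(2^s t) + 1
    set a : ℤ := 3 * ⌊(2 : ℝ) ^ s * t⌋ + 1 with ha
    have ha3 : ¬ (3 ∣ a) := by rw [ha]; omega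
    have h1 := hzero s a ha3
    have h2s : (0 : ℝ) < 2 ^ s := by positivity
    have h2 := hcl ((a : ℝ) / (3 * 2 ^ s)) (by
      rw [Real.dist_eq]
      have f1 := Int.floor_le ((2 : ℝ) ^ s * t)
      have f2 := Int.lt_floor_add_one ((2 : ℝ) ^ s * t)
      have e5 : (a : ℝ) / (3 * 2 ^ s) - t = ((⌊(2 : ℝ) ^ s * t⌋ : ℝ) + 1 / 3 - 2 ^ s * t) / 2 ^ s := by
        rw [ha]; push_cast; field_simp
      rw [e5, abs_div, abs_of_pos h2s, div_lt_iff₀ h2s]
      have h3 : (1 : ℝ) < δ * 2 ^ s := by
        have : (1 / 2 : ℝ) ^ s * 2 ^ s = 1 := by rw [← mul_pow]; norm_num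
        calc (1 : ℝ) = (1 / 2 : ℝ) ^ s * 2 ^ s := this.symm
          _ < δ * 2 ^ s := by gcongr
      refine lt_of_le_of_lt ?_ h3
      rw [abs_le]
      constructor <;> linarith)
    rw [h1, dist_eq_norm, zero_sub, norm_neg] at h2
    exact lt_irrefl _ h2
  -- conclusion
  have hcz : ∀ j, c j = 0 := by
    intro j
    have h1 := (swap (g := fun t => ee (j * t)) (c := c)
      (continuous_ee.comp (by fun_prop)) hs).tsum_eq
    have h2 : ∀ t : ℝ, ee (j * t) * ∑' k : ℤ, c k * ee (-(k * t)) = 0 := by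
      intro t
      have : h t = 0 := by rw [hall]; rfl
      rw [show (∑' k : ℤ, c k * ee (-(k * t))) = h t from rfl, this, mul_zero]
    simp_rw [h2] at h1
    rw [intervalIntegral.integral_zero] at h1
    rw [← h1, tsum_eq_single j]
    · rw [FC_ee]; simp
    · intro k hk
      rw [FC_ee, if_neg hk, mul_zero]
  ext k
  have h1 : (wt k : ℂ) * x k = 0 := hcz k
  rcases mul_eq_zero.mp h1 with h1 | h1
  · exact absurd h1 (by exact_mod_cast (wt_pos k).ne')
  · simpa using h1

end Pool.Agent.R354.FHC
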