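import Pool.Agent.R354.FHD

open Filter Topology Metric
open scoped BoundedContinuousFunction

namespace Pool.Agent.R354.FHC

/-! ### the space X and the operator -/

/-- the space: closed span of the eigenvectors -/
noncomputable abbrev XX : Submodule ℂ Ysp := VV.topologicalClosure

instance : CompleteSpace XX := VV.isClosed_topologicalClosure.completeSpace_coe

lemma LAM_countable : LAM.Countable := by
  apply (Set.countable_range (fun p : ℤ × ℕ => (p.1 : ℝ) / 2 ^ p.2)).mono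
  rintro t ⟨⟨b, r, h⟩, -⟩
  exact ⟨(b, r), h.symm⟩

lemma VV_separable : TopologicalSpace.IsSeparable (VV : Set Ysp) :=
  (LAM_countable.image EV).isSeparable.span

lemma XX_separable : TopologicalSpace.IsSeparable (XX : Set Ysp) := by
  have : ((XX : Submodule ℂ Ysp) : Set Ysp) = closure (VV : Set Ysp) :=
    Submodule.topologicalClosure_coe VV
  rw [this]
  exact VV_separable.closure

instance : TopologicalSpace.SeparableSpace XX := XX_separable.separableSpace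

lemma TY_mem_XX {x : Ysp} (hx : x ∈ XX) : TY x ∈ XX := by
  have h1 : Set.MapsTo TY (VV : Set Ysp) (VV : Set Ysp) := fun y hy => TY_mem hy
  exact h1.closure TY.continuous hx

/-- the operator -/
noncomputable def TX : XX →L[ℂ] XX :=
  (TY.comp XX.subtypeL).codRestrict XX (fun x => TY_mem_XX x.2)

lemma TX_coe (x : XX) : ((TX x : XX) : Ysp) = TY (x : Ysp) := rfl

lemma TX_pow_coe (n : ℕ) (x : XX) : (((TX ^ n) x : XX) : Ysp) = (TY ^ n) (x : Ysp) := by
  induction n with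
  | zero => rfl
  | succ n ih => rw [pow_succ', mul_apply_eq_comp, TX_coe, ih, pow_succ', mul_apply_eq_comp]

lemma exists_near {x : XX} {ε : ℝ} (hε : 0 < ε) : ∃ y ∈ VV, ‖(x : Ysp) - y‖ < ε := by
  have hx : (x : Ysp) ∈ closure (VV : Set Ysp) := by
    have := x.2
    rwa [← SetLike.mem_coe, Submodule.topologicalClosure_coe] at this
  obtain ⟨y, hy, hd⟩ := Metric.mem_closure_iff.mp hx ε hε
  exact ⟨y, hy, by rwa [← dist_eq_norm]⟩

lemma VV_le_XX : VV ≤ XX := VV.le_topologicalClosure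

lemma mem_open {U : Set XX} (hU : IsOpen U) (hne : U.Nonempty) :
    ∃ y, ∃ (hy : y ∈ VV), ∃ ε > 0, ∀ x : XX, ‖(x : Ysp) - y‖ ≤ ε → x ∈ U := by
  obtain ⟨x, hx⟩ := hne
  obtain ⟨ε, hε, hball⟩ := Metric.isOpen_iff.mp hU x hx
  obtain ⟨y, hy, hxy⟩ := exists_near (x := x) (half_pos hε)
  refine ⟨y, hy, ε / 4, by positivity, fun z hz => hball ?_⟩
  rw [Metric.mem_ball, Subtype.dist_eq, dist_eq_norm]
  have e : (z : Ysp) - x = (z - y) - (x - y) := by abel
  rw [e]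
  refine lt_of_le_of_lt (norm_sub_le _ _) ?_
  linarith

lemma dense_periodic : Dense {x : XX | ∃ n : ℕ, 0 < n ∧ (TX ^ n) x = x} := by
  rw [Metric.dense_iff]
  intro x ε hε
  obtain ⟨y, hy, hxy⟩ := exists_near (x := x) hε
  obtain ⟨r, hr⟩ := exists_period hy
  refine ⟨⟨y, VV_le_XX hy⟩, ?_, 2 ^ r, by positivity, ?_⟩
  · rw [Metric.mem_ball, Subtype.dist_eq, dist_comm, dist_eq_norm]
    exact hxy
  · apply Subtype.ext
    rw [TX_pow_coe]
    exact hr

lemma mixing (U V : Set XX) (hU : IsOpen U) (hV : IsOpen V) (hUn : U.Nonempty)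
    (hVn : V.Nonempty) : ∃ N : ℕ, ∀ n : ℕ, N ≤ n → ((⇑(TX ^ n)) ⁻¹' V ∩ U).Nonempty := by
  obtain ⟨u, hu, ε₁, hε₁, h1⟩ := mem_open hU hUn
  obtain ⟨v, hv, ε₂, hε₂, h2⟩ := mem_open hV hVn
  obtain ⟨N, hN⟩ := mixY hu hv (lt_min hε₁ hε₂)
  refine ⟨N, fun n hn => ?_⟩
  obtain ⟨w, hw, hw1, hw2⟩ := hN n hn
  refine ⟨⟨w, VV_le_XX hw⟩, ?_, ?_⟩
  · apply h2
    rw [TX_pow_coe]
    exact hw2.trans (min_le_right _ _)
  · apply h1
    exact hw1.trans (min_le_left _ _)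

lemma freq : ∃ x : XX, ∀ U : Set XX, IsOpen U → U.Nonempty →
    ∃ δ : ℝ, 0 < δ ∧ ∃ N₀ : ℕ, ∀ N : ℕ, N₀ ≤ N →
      δ * (N : ℝ) ≤ (Nat.card {n : ℕ // n < N ∧ (TX ^ n) x ∈ U} : ℝ) := by
  -- dense sequence in VV
  obtain ⟨t, htV, htc, htd⟩ := VV_separable.exists_countable_dense_subset
  have htne : t.Nonempty := by
    by_contra hcon
    rw [Set.not_nonempty_iff_eq_empty] at hcon
    rw [hcon, closure_empty] at htd
    exact htd VV.zero_mem
  obtain ⟨w, hw⟩ := htc.exists_eq_range htne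
  have hwV : ∀ n, w n ∈ VV := fun n => htV (by rw [hw]; exact ⟨n, rfl⟩)
  obtain ⟨u, hu, hfr⟩ := freqY (fun p => w (Nat.unpair p).1) (fun p => hwV _)
  refine ⟨⟨u, hu⟩, fun U hU hUn => ?_⟩
  obtain ⟨y, hy, ε, hε, hball⟩ := mem_open hU hUn
  obtain ⟨y', hy', hyy'⟩ := Metric.mem_closure_iff.mp (htd hy) (ε / 2) (by positivity)
  rw [hw] at hy'
  obtain ⟨n, rfl⟩ := hy'
  obtain ⟨P, hP⟩ := exists_pow_lt_of_lt_one (by positivity : (0 : ℝ) < ε / 4)
    (by norm_num : (1 / 2 : ℝ) < 1)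
  obtain ⟨δ, hδ, N₀, hN₀⟩ := hfr (Nat.pair n P)
  simp only [Nat.unpair_pair] at hN₀
  refine ⟨δ, hδ, N₀, fun N hN => (hN₀ N hN).trans ?_⟩
  have hfin : Finite {k : ℕ // k < N ∧ (TX ^ k) ⟨u, hu⟩ ∈ U} :=
    ((Set.finite_lt_nat N).subset fun k hk => hk.1 :
      {k : ℕ | k < N ∧ (TX ^ k) ⟨u, hu⟩ ∈ U}.Finite).to_subtype
  have himp : ∀ k : ℕ, k < N ∧ ‖(TY ^ k) u - w n‖ ≤ 2 * (1 / 2 : ℝ) ^ (Nat.pair n P) →
      k < N ∧ (TX ^ k) ⟨u, hu⟩ ∈ U := by
    rintro k ⟨hk, hk2⟩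
    refine ⟨hk, hball _ ?_⟩
    rw [TX_pow_coe]
    have e : (TY ^ k) u - y = ((TY ^ k) u - w n) - (y - w n) := by abel
    change ‖(TY ^ k) u - y‖ ≤ ε
    rw [e]
    refine (norm_sub_le _ _).trans ?_
    have h3 : (1 / 2 : ℝ) ^ (Nat.pair n P) ≤ (1 / 2) ^ P :=
      pow_le_pow_of_le_one (by norm_num) (by norm_num) (Nat.right_le_pair n P)
    rw [dist_eq_norm] at hyy'
    linarith
  have hle : Nat.card {k : ℕ // k < N ∧ ‖(TY ^ k) u - w n‖ ≤ 2 * (1 / 2 : ℝ) ^ (Nat.pair n P)} ≤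
      Nat.card {k : ℕ // k < N ∧ (TX ^ k) ⟨u, hu⟩ ∈ U} :=
    Nat.card_le_card_of_injective (fun k => ⟨k.1, himp k.1 k.2⟩) (fun a b hab => by
      apply Subtype.ext
      simpa using congrArg Subtype.val hab)
  exact_mod_cast hle

lemma hyper : ∃ x : XX, Dense (Set.range (fun n : ℕ => (TX ^ n) x)) := by
  obtain ⟨x, hx⟩ := freq
  refine ⟨x, ?_⟩
  rw [dense_iff_inter_open]
  intro U hU hUn
  obtain ⟨δ, hδ, N₀, hN₀⟩ := hx U hU hUn
  have h := hN₀ (N₀ + 1) (by omega)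
  have hpos : 0 < δ * ((N₀ + 1 : ℕ) : ℝ) := by positivity
  have h2 : (0 : ℝ) < (Nat.card {n : ℕ // n < N₀ + 1 ∧ (TX ^ n) x ∈ U} : ℝ) := lt_of_lt_of_le hpos h
  have h3 : 0 < Nat.card {n : ℕ // n < N₀ + 1 ∧ (TX ^ n) x ∈ U} := by exact_mod_cast h2
  obtain ⟨⟨n, _, hn⟩⟩ := (Nat.card_pos_iff.mp h3).1
  exact ⟨(TX ^ n) x, hn, ⟨n, rfl⟩⟩

/-- the coordinate functional at 0 -/
noncomputable def ev0 : XX →L[ℂ] ℂ :=
  LinearMap.mkContinuous
    { toFun := fun x => (x : Ysp) 0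
      map_add' := fun x y => rfl
      map_smul' := fun c x => rfl } 1
    (by
      intro x
      rw [one_mul]
      exact (x : Ysp).norm_coe_le_norm 0)

lemma ev0_apply (x : XX) : ev0 x = (x : Ysp) 0 := rfl

theorem no_criterion : ¬ ∃ X₀ : Set XX, Dense X₀ ∧ ∃ S : XX → XX, (∀ x ∈ X₀, S x ∈ X₀) ∧
    ∀ x ∈ X₀, Summable (fun n : ℕ => (TX ^ n) x) ∧
      Summable (fun n : ℕ => S^[n] x) ∧ TX (S x) = x := by
  rintro ⟨X₀, hdense, S, hS, h⟩
  have hzero : ∀ x ∈ X₀, x = 0 := by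
    intro x hx
    obtain ⟨h1, h2, -⟩ := h x hx
    have hmem : ∀ n, S^[n] x ∈ X₀ := by
      intro n
      induction n with
      | zero => exact hx
      | succ n ih => rw [Function.iterate_succ_apply']; exact hS _ ih
    have hinv : ∀ n, (TX ^ n) (S^[n] x) = x := by
      intro n
      induction n with
      | zero => rfl
      | succ n ih =>
        rw [Function.iterate_succ_apply', pow_succ, mul_apply_eq_comp, (h _ (hmem n)).2.2, ih]
    have c1 : ∀ n : ℕ, ev0 ((TX ^ n) x) = (wt n : ℂ) * (x : Ysp) n := by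
      intro n
      rw [ev0_apply, TX_pow_coe, TY_pow_apply, wt_zero, div_one, zero_add]
    have c2 : ∀ n : ℕ, ev0 (S^[n] x) = (wt (-n) : ℂ) * (x : Ysp) (-n) := by
      intro n
      have h3 : (x : Ysp) (-n) = ((wt (-n + n) / wt (-n) : ℝ) : ℂ) * (S^[n] x : XX).1 (-n + n) := by
        rw [← TY_pow_apply, ← TX_pow_coe, hinv n]
      rw [neg_add_cancel, wt_zero] at h3
      rw [h3, ev0_apply]
      have : (wt (-n) : ℂ) ≠ 0 := by exact_mod_cast (wt_pos _).ne'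
      push_cast
      field_simp
    have s1 : Summable fun n : ℕ => (wt n : ℂ) * (x : Ysp) n := by
      have := h1.map ev0 ev0.continuous
      refine this.congr fun n => ?_
      exact c1 n
    have s2 : Summable fun n : ℕ => (wt (-n) : ℂ) * (x : Ysp) (-n) := by
      have := h2.map ev0 ev0.continuous
      refine this.congr fun n => ?_
      exact c2 n
    have s3 : Summable fun k : ℤ => (wt k : ℂ) * (x : Ysp) k :=
      Summable.of_nat_of_neg s1 s2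
    exact Subtype.ext (no_summable x.2 s3.norm)
  have h0 : EV 0 ∈ XX := VV_le_XX (Submodule.subset_span ⟨0, zero_mem_LAM, rfl⟩)
  have hne : (⟨EV 0, h0⟩ : XX) ≠ 0 := by
    intro hcon
    have h1 : EV 0 = 0 := congrArg Subtype.val hcon
    have h2 : EV 0 0 = 0 := by rw [h1]; rfl
    rw [EV_apply, wt_zero] at h2
    simp [ee_zero] at h2
  have hopen : IsOpen ({0}ᶜ : Set XX) := isOpen_compl_singleton
  obtain ⟨x, hx1, hx2⟩ := hdense.inter_open_nonempty _ hopen ⟨_, hne⟩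
  exact hx1 (hzero x hx2)

end Pool.Agent.R354.FHC
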