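import Pool.Agent.W47.JL.Single
import Pool.Agent.H43R2.Cplx.EMeas

/-!
# Rational approximations from short linear recurrences of digits, one number at a time
-/

set_option autoImplicit false

namespace Pool.Agent.R354.LC

open Finset Polynomial
open Pool.Agent.H831R3.LC (W dig dig_abs)
open Pool.Agent.W47.JL

/-- the bound for the size of the denominator, as a power of the base -/
noncomputable def G (m : ℕ) : ℝ := m + 15 * err m

lemma G_nonneg (m : ℕ) : 0 ≤ G m := by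
  have := err_ge m
  unfold G
  have hm : (0 : ℝ) ≤ m := Nat.cast_nonneg m
  linarith

/-- If the first `L` digits of `x` in base `b` satisfy a linear recurrence of order `m` then `x` has
a rational approximation with denominator at most `b ^ G(m)` and error at most
`b ^ (G(m) + 1 - L)`. -/
theorem approx_one (x : ℝ) (b : ℕ) (hb : 2 ≤ b) (L m : ℕ) (c : ℕ → ℚ)
    (hc : ∀ i, i + m < L → (dig x b (i + m + 1) : ℚ) = ∑ l ∈ range m, c l * (dig x b (i + l + 1) : ℚ)) :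
    ∃ (q : ℕ) (p : ℤ), 1 ≤ q ∧ Real.log q ≤ G m * Real.log b ∧
      |(q : ℝ) * x - p| * (b : ℝ) ^ L ≤ Real.exp ((G m + 1) * Real.log b) := by
  obtain ⟨k0, K, hk0, hK, hpar⟩ := params m
  have hbR : (2 : ℝ) ≤ b := by exact_mod_cast hb
  have hb0 : (0 : ℝ) < b := by linarith
  have hpar1 : M1 b m k0 K ≤ G m := hpar b hbR
  have hM1 := M1_ge b m k0 K hb
  have hm0 : (0 : ℝ) ≤ m := Nat.cast_nonneg m
  have hk00 : (0 : ℝ) ≤ k0 := Nat.cast_nonneg k0
  have hlb0 : 0 < Real.log b := Real.log_pos (by linarith)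
  obtain ⟨X, hX⟩ : ∃ X : ℝ, X = ((m : ℝ) + k0 + 1) * (((m : ℝ) + 1 + k0) * b) ^ K := ⟨_, rfl⟩
  have hX1 : 1 ≤ X := by
    rw [hX]
    have h2 : (1 : ℝ) ≤ (((m : ℝ) + 1 + k0) * b) ^ K := one_le_pow₀ (by nlinarith)
    nlinarith
  have hX0 : 0 < X := by linarith
  have hM1X : M1 b m k0 K * Real.log b = (m + k0) * Real.log b + Real.log X := by
    rw [M1, ← hX]
    field_simp
  -- the trivial approximation
  have htriv : (L : ℝ) * Real.log b ≤ (M1 b m k0 K + 1) * Real.log b →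
      ∃ (q : ℕ) (p : ℤ), 1 ≤ q ∧ Real.log q ≤ G m * Real.log b ∧
      |(q : ℝ) * x - p| * (b : ℝ) ^ L ≤ Real.exp ((G m + 1) * Real.log b) := by
    intro h
    refine ⟨1, round x, le_rfl, ?_, ?_⟩
    · simp only [Nat.cast_one, Real.log_one]
      exact mul_nonneg (G_nonneg m) hlb0.le
    · have h1 : |((1 : ℕ) : ℝ) * x - round x| ≤ 1 := by
        rw [Nat.cast_one, one_mul]
        exact (abs_sub_round x).trans (by norm_num)
      have h2 : (b : ℝ) ^ L = Real.exp (L * Real.log b) := by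
        rw [mul_comm, Real.exp_mul, Real.exp_log hb0, Real.rpow_natCast]
      have h3 : (b : ℝ) ^ L ≤ Real.exp ((G m + 1) * Real.log b) := by
        rw [h2]
        apply Real.exp_le_exp.2
        refine h.trans (mul_le_mul_of_nonneg_right (by linarith) hlb0.le)
      calc |((1 : ℕ) : ℝ) * x - round x| * (b : ℝ) ^ L ≤ 1 * (b : ℝ) ^ L :=
            mul_le_mul_of_nonneg_right h1 (by positivity)
        _ = (b : ℝ) ^ L := one_mul _
        _ ≤ _ := h3
  by_cases hL : m + k0 ≤ L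
  swap
  · apply htriv
    have : (L : ℝ) ≤ m + k0 := by exact_mod_cast (by omega : L ≤ m + k0)
    exact mul_le_mul_of_nonneg_right (by linarith) hlb0.le
  by_cases hbig : (m + k0 + 1) * ((m + 1 + k0) * b) ^ K * b < b ^ (L - (m + k0))
  swap
  · apply htriv
    push Not at hbig
    have h1 : ((b : ℝ) ^ (L - (m + k0))) ≤ X * b := by
      rw [hX]
      exact_mod_cast hbig
    have h2 := Real.log_le_log (by positivity) h1
    rw [Real.log_pow, Real.log_mul hX0.ne' hb0.ne'] at h2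
    have h3 : ((L - (m + k0) : ℕ) : ℝ) = L - (m + k0) := by
      rw [Nat.cast_sub hL]; push_cast; ring
    rw [h3] at h2
    nlinarith
  -- truncate
  obtain ⟨a, ha⟩ : ∃ a : Fin 1 → ℕ → ℤ, a = fun _ i => if i < L then dig x b (i + 1) else 0 :=
    ⟨_, rfl⟩
  have ha1 : ∀ j i, i < L → a j i = dig x b (i + 1) := by
    intro j i hi
    rw [ha]; simp [hi]
  have ha2 : ∀ j i, |a j i| ≤ b := by
    intro j i
    by_cases hi : i < L
    · rw [ha1 j i hi]; exact dig_abs x b (by omega) _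
    · rw [ha]; simp [hi]
  obtain ⟨t, ht0, htd, htH, htr⟩ := Pool.Agent.W928.JL.small 1 a b (by omega) ha2 m k0
    (L - (m + k0)) L K hk0 hK (by omega) c (fun j i hi => by
      rw [ha1 j _ hi, hc i hi]
      refine Finset.sum_congr rfl fun l hl => ?_
      rw [mem_range] at hl
      rw [ha1 j _ (by omega)])
  obtain ⟨t', htd', htH', htr', ht0'⟩ := Pool.Agent.W639.JL.desc 1 a b b
    (((m + 1 + k0) * b) ^ K) (m + k0) (L - (m + k0)) hb ha2 hbig t htd ht0 htH htr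
  obtain ⟨p, hp⟩ := Pool.Agent.W45.JL.approx x b (((m + 1 + k0) * b) ^ K) (L - (m + k0)) (m + k0)
    0 L (a 0) t' (by omega) htH' htd' (htr' 0) (fun i h1 h2 => ha1 0 i h2) (by omega) (by omega)
  rw [pow_zero, mul_one, Nat.sub_zero] at hp
  have hXe : (((m + k0 : ℕ) : ℝ) + 1) * (((m + 1 + k0) * b) ^ K : ℕ) = X := by
    rw [hX]; push_cast; ring
  rw [hXe] at hp
  obtain ⟨q, hq⟩ : ∃ q : ℕ, q = (t'.eval (b : ℤ)).natAbs := ⟨_, rfl⟩
  have hq1 : 1 ≤ q := by
    rw [hq]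
    exact Int.natAbs_pos.2 ht0'
  have hqR : (q : ℝ) = |((t'.eval (b : ℤ) : ℤ) : ℝ)| := by
    rw [hq]
    rw [Nat.cast_natAbs, Int.cast_abs]
  have hq1R : (1 : ℝ) ≤ q := by exact_mod_cast hq1
  have hqle : (q : ℝ) ≤ X * (b : ℝ) ^ (m + k0) := by
    have h1 := eval_le t' (((m + 1 + k0) * b) ^ K) (m + k0) b (by omega) htH' htd'
    rw [hqR, ← hXe]
    exact_mod_cast h1
  obtain ⟨p', hp'⟩ : ∃ p' : ℤ, |(q : ℝ) * x - p'| = |((t'.eval (b : ℤ) : ℤ) : ℝ) * x - p| := by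
    rcases abs_cases ((t'.eval (b : ℤ) : ℤ) : ℝ) with ⟨h1, _⟩ | ⟨h1, _⟩
    · exact ⟨p, by rw [hqR, h1]⟩
    · refine ⟨-p, ?_⟩
      rw [hqR, h1, ← abs_neg]
      congr 1
      push_cast
      ring
  refine ⟨q, p', hq1, ?_, ?_⟩
  · have h1 := Real.log_le_log (by linarith) hqle
    rw [Real.log_mul hX0.ne' (by positivity), Real.log_pow] at h1
    have h2 := mul_le_mul_of_nonneg_right hpar1 hlb0.le
    rw [hM1X] at h2
    push_cast at h1
    linarith
  · rw [hp']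
    have h1 : (b : ℝ) ^ L = (b : ℝ) ^ (L - (m + k0)) * (b : ℝ) ^ (m + k0) := by
      rw [← pow_add]; congr 1; omega
    rw [h1, ← mul_assoc]
    have h2 : X * (b : ℝ) ^ (m + k0) ≤ Real.exp ((G m + 1) * Real.log b) := by
      have h3 : X * (b : ℝ) ^ (m + k0) = Real.exp (M1 b m k0 K * Real.log b) := by
        rw [hM1X, Real.exp_add, Real.exp_log hX0]
        have : Real.exp (((m : ℝ) + k0) * Real.log b) = (b : ℝ) ^ (m + k0) := by
          rw [mul_comm, Real.exp_mul, Real.exp_log hb0, ← Real.rpow_natCast]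
          push_cast
          rfl
        rw [this, mul_comm]
      rw [h3]
      apply Real.exp_le_exp.2
      exact mul_le_mul_of_nonneg_right (by linarith) hlb0.le
    exact (mul_le_mul_of_nonneg_right hp (by positivity)).trans h2

/-- `G (m) ≤ (1 + ε) m + K` -/
lemma G_linear (ε : ℝ) (hε : 0 < ε) : ∃ K : ℝ, 0 ≤ K ∧ ∀ m : ℕ, G m ≤ (1 + ε) * m + K := by
  obtain ⟨s, hs⟩ : ∃ s : ℝ, s = ε / 15 := ⟨_, rfl⟩
  have hs0 : 0 < s := by rw [hs]; positivity
  obtain ⟨K1, hK1⟩ : ∃ K1 : ℝ, K1 = |Real.log (s ^ 2)| := ⟨_, rfl⟩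
  have hK10 : 0 ≤ K1 := by rw [hK1]; exact abs_nonneg _
  refine ⟨15 * (2 * s + K1 / (2 * s)), by positivity, fun m => ?_⟩
  have hm0 : (0 : ℝ) ≤ m := Nat.cast_nonneg m
  have h1 : Real.log ((m : ℝ) + 2) ≤ s ^ 2 * (m + 2) + K1 := by
    have h2 := Real.log_le_sub_one_of_pos (show (0 : ℝ) < s ^ 2 * ((m : ℝ) + 2) by positivity)
    rw [Real.log_mul (by positivity) (by positivity)] at h2
    have h3 := neg_abs_le (Real.log (s ^ 2))
    rw [← hK1] at h3
    linarith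
  have h4 : err m ≤ s * (m + 2) + K1 / (2 * s) := by
    unfold err
    apply Real.sqrt_le_iff.2
    refine ⟨by positivity, ?_⟩
    have h5 : (s * ((m : ℝ) + 2) + K1 / (2 * s)) ^ 2 =
        s ^ 2 * (m + 2) ^ 2 + K1 * (m + 2) + (K1 / (2 * s)) ^ 2 := by
      field_simp
      ring
    rw [h5]
    have h6 : 0 ≤ (K1 / (2 * s)) ^ 2 := by positivity
    have h7 : ((m : ℝ) + 1) * Real.log ((m : ℝ) + 2) ≤ (m + 2) * (s ^ 2 * (m + 2) + K1) := by
      have h8 : 0 ≤ Real.log ((m : ℝ) + 2) := Real.log_nonneg (by linarith)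
      have h9 : ((m : ℝ) + 1) * Real.log ((m : ℝ) + 2) ≤ (m + 2) * Real.log ((m : ℝ) + 2) :=
        mul_le_mul_of_nonneg_right (by linarith) h8
      exact h9.trans (mul_le_mul_of_nonneg_left h1 (by linarith))
    nlinarith
  unfold G
  have h10 : ε = 15 * s := by rw [hs]; ring
  rw [h10]
  nlinarith

/-- two rational approximations to two independent forms give one to `e` -/
theorem pair (A B Γ A' B' Γ' M : ℤ) (hM : 1 ≤ M) (hΔ : A' * B - A * B' ≠ 0) (ε : ℝ) (hε : 0 < ε) :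
    ∃ c : ℝ, 0 < c ∧ ∀ (ξ y y' : ℝ), (M : ℝ) * y = A * ξ + B * Real.exp 1 + Γ →
      (M : ℝ) * y' = A' * ξ + B' * Real.exp 1 + Γ' → ∀ (q q' : ℕ) (p p' : ℤ), 1 ≤ q → 1 ≤ q' →
      c ≤ ((q : ℝ) * q') ^ (1 + ε) * ((q' : ℝ) * |(q : ℝ) * y - p| + q * |(q' : ℝ) * y' - p'|) := by
  obtain ⟨c0, hc0, hmeas⟩ := Pool.Agent.H43R2.Cplx.EMeas.measure ε hε
  obtain ⟨D, hD⟩ : ∃ D : ℕ, D = (A' * B - A * B').natAbs := ⟨_, rfl⟩
  have hD1 : 1 ≤ D := by rw [hD]; exact Int.natAbs_pos.2 hΔ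
  have hDR : (1 : ℝ) ≤ D := by exact_mod_cast hD1
  obtain ⟨K, hK⟩ : ∃ K : ℝ, K = M * (|(A : ℝ)| + |(A' : ℝ)| + 1) := ⟨_, rfl⟩
  have hMR : (1 : ℝ) ≤ M := by exact_mod_cast hM
  have hA0 := abs_nonneg (A : ℝ)
  have hA'0 := abs_nonneg (A' : ℝ)
  have hK0 : 0 < K := by rw [hK]; positivity
  refine ⟨c0 / ((D : ℝ) ^ (1 + ε) * K), by positivity, ?_⟩
  intro ξ y y' hy hy' q q' p p' hq hq'
  have hqR : (1 : ℝ) ≤ q := by exact_mod_cast hq
  have hq'R : (1 : ℝ) ≤ q' := by exact_mod_cast hq'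
  -- the integer
  obtain ⟨σ, hσ, hσ'⟩ : ∃ σ : ℤ, |σ| = 1 ∧ (D : ℤ) = σ * (A' * B - A * B') := by
    rcases Int.natAbs_eq (A' * B - A * B') with h | h
    · exact ⟨1, by simp, by rw [hD]; omega⟩
    · exact ⟨-1, by simp, by rw [hD]; omega⟩
  have hσR : |(σ : ℝ)| = 1 := by exact_mod_cast hσ
  have hσ'R : (D : ℝ) = σ * (A' * B - A * B') := by exact_mod_cast hσ'
  have h1 := hmeas (q * q' * D) (Nat.mul_pos (Nat.mul_pos hq hq') hD1)
    (σ * (A' * M * q' * p - A * M * q * p' - q * q' * (A' * Γ - A * Γ')))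
  have h2 : ((q * q' * D : ℕ) : ℝ) * Real.exp 1 -
      ((σ * (A' * M * q' * p - A * M * q * p' - q * q' * (A' * Γ - A * Γ')) : ℤ) : ℝ) =
      σ * (A' * M * q' * (q * y - p) - A * M * q * (q' * y' - p')) := by
    push_cast
    rw [hσ'R]
    linear_combination (-(σ : ℝ) * q * q' * A') * hy + ((σ : ℝ) * q * q' * A) * hy'
  rw [h2] at h1
  have h3 : |(σ : ℝ) * (A' * M * q' * (q * y - p) - A * M * q * (q' * y' - p'))| ≤
      K * ((q' : ℝ) * |(q : ℝ) * y - p| + q * |(q' : ℝ) * y' - p'|) := by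
    rw [abs_mul, hσR, one_mul]
    refine (abs_sub _ _).trans ?_
    rw [abs_mul, abs_mul, abs_mul, abs_mul, abs_mul, abs_mul, Nat.abs_cast, Nat.abs_cast,
      abs_of_pos (show (0 : ℝ) < M by linarith), hK, mul_add]
    have e1 : 0 ≤ (q' : ℝ) * |(q : ℝ) * y - p| := by positivity
    have e2 : 0 ≤ (q : ℝ) * |(q' : ℝ) * y' - p'| := by positivity
    have e3 : |(A' : ℝ)| * M ≤ M * (|(A : ℝ)| + |(A' : ℝ)| + 1) := by nlinarith
    have e4 : |(A : ℝ)| * M ≤ M * (|(A : ℝ)| + |(A' : ℝ)| + 1) := by nlinarith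
    have e5 := mul_le_mul_of_nonneg_right e3 e1
    have e6 := mul_le_mul_of_nonneg_right e4 e2
    linarith
  have h4 : ((q * q' * D : ℕ) : ℝ) ^ (1 + ε) = ((q : ℝ) * q') ^ (1 + ε) * (D : ℝ) ^ (1 + ε) := by
    push_cast
    rw [Real.mul_rpow (by positivity) (by positivity)]
  rw [h4] at h1
  have h5 : 0 < ((q : ℝ) * q') ^ (1 + ε) := by positivity
  have h6 : 0 < (D : ℝ) ^ (1 + ε) := by positivity
  rw [div_le_iff₀ (by positivity)]
  calc c0 ≤ ((q : ℝ) * q') ^ (1 + ε) * (D : ℝ) ^ (1 + ε) *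
        |(σ : ℝ) * (A' * M * q' * (q * y - p) - A * M * q * (q' * y' - p'))| := h1
    _ ≤ ((q : ℝ) * q') ^ (1 + ε) * (D : ℝ) ^ (1 + ε) *
        (K * ((q' : ℝ) * |(q : ℝ) * y - p| + q * |(q' : ℝ) * y' - p'|)) :=
      mul_le_mul_of_nonneg_left h3 (by positivity)
    _ = _ := by ring

/-- the main inequality -/
theorem main (A B Γ A' B' Γ' M : ℤ) (hM : 1 ≤ M) (hΔ : A' * B - A * B' ≠ 0) (η : ℝ) (hη : 0 < η) :
    ∃ C : ℝ, 0 ≤ C ∧ ∀ (ξ y y' : ℝ), (M : ℝ) * y = A * ξ + B * Real.exp 1 + Γ →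
      (M : ℝ) * y' = A' * ξ + B' * Real.exp 1 + Γ' → ∀ (b b' L L' m m' : ℕ) (c c' : ℕ → ℚ),
      2 ≤ b → 2 ≤ b' →
      (∀ i, i + m < L → (dig y b (i + m + 1) : ℚ) = ∑ l ∈ range m, c l * (dig y b (i + l + 1) : ℚ)) →
      (∀ i, i + m' < L' →
        (dig y' b' (i + m' + 1) : ℚ) = ∑ l ∈ range m', c' l * (dig y' b' (i + l + 1) : ℚ)) →
      min (L * Real.log b) (L' * Real.log b') ≤
        (2 + η) * (m * Real.log b + m' * Real.log b') + C * (Real.log b + Real.log b') := by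
  obtain ⟨ε, hε⟩ : ∃ ε : ℝ, ε = min 1 (η / 4) := ⟨_, rfl⟩
  have hε0 : 0 < ε := by rw [hε]; positivity
  have hε1 : ε ≤ 1 := by rw [hε]; exact min_le_left _ _
  have hε2 : ε ≤ η / 4 := by rw [hε]; exact min_le_right _ _
  obtain ⟨c0, hc0, hpair⟩ := pair A B Γ A' B' Γ' M hM hΔ ε hε0
  obtain ⟨K, hK0, hK⟩ := G_linear ε hε0
  obtain ⟨C1, hC1⟩ : ∃ C1 : ℝ, C1 = |Real.log (2 / c0)| := ⟨_, rfl⟩
  have hC10 : 0 ≤ C1 := by rw [hC1]; exact abs_nonneg _
  refine ⟨3 * K + 1 + C1, by linarith, ?_⟩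
  intro ξ y y' hy hy' b b' L L' m m' c c' hb hb' hc hc'
  obtain ⟨q, p, hq, hlq, hp⟩ := approx_one y b hb L m c hc
  obtain ⟨q', p', hq', hlq', hp'⟩ := approx_one y' b' hb' L' m' c' hc'
  have hbR : (2 : ℝ) ≤ b := by exact_mod_cast hb
  have hb'R : (2 : ℝ) ≤ b' := by exact_mod_cast hb'
  have hqR : (1 : ℝ) ≤ q := by exact_mod_cast hq
  have hq'R : (1 : ℝ) ≤ q' := by exact_mod_cast hq'
  have hl : 0.69 ≤ Real.log b := by
    have h1 := Real.log_two_gt_d9
    have h2 := Real.log_le_log (by norm_num : (0 : ℝ) < 2) hbR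
    linarith
  have hl' : 0.69 ≤ Real.log b' := by
    have h1 := Real.log_two_gt_d9
    have h2 := Real.log_le_log (by norm_num : (0 : ℝ) < 2) hb'R
    linarith
  have hpr := hpair ξ y y' hy hy' q q' p p' hq hq'
  have hG := hK m
  have hG' := hK m'
  have hm0 : (0 : ℝ) ≤ m := Nat.cast_nonneg m
  have hm'0 : (0 : ℝ) ≤ m' := Nat.cast_nonneg m'
  obtain ⟨l, hll⟩ : ∃ l : ℝ, l = Real.log b := ⟨_, rfl⟩
  obtain ⟨l', hll'⟩ : ∃ l' : ℝ, l' = Real.log b' := ⟨_, rfl⟩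
  have hbe : (b : ℝ) = Real.exp l := by rw [hll, Real.exp_log (by linarith)]
  have hbe' : (b' : ℝ) = Real.exp l' := by rw [hll', Real.exp_log (by linarith)]
  rw [← hll] at hlq hp hl ⊢
  rw [← hll'] at hlq' hp' hl' ⊢
  obtain ⟨g, hg⟩ : ∃ g : ℝ, g = G m * l := ⟨_, rfl⟩
  obtain ⟨g', hg'⟩ : ∃ g' : ℝ, g' = G m' * l' := ⟨_, rfl⟩
  have hqe : (q : ℝ) ≤ Real.exp g := by
    rw [← Real.exp_log (show (0 : ℝ) < q by linarith)]
    exact Real.exp_le_exp.2 (by rw [hg]; exact hlq)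
  have hqe' : (q' : ℝ) ≤ Real.exp g' := by
    rw [← Real.exp_log (show (0 : ℝ) < q' by linarith)]
    exact Real.exp_le_exp.2 (by rw [hg']; exact hlq')
  obtain ⟨T, hT⟩ : ∃ T : ℝ, T = min (L * l) (L' * l') := ⟨_, rfl⟩
  rw [← hT]
  have hd : |(q : ℝ) * y - p| ≤ Real.exp (g + l + l' - T) := by
    have h1 : (b : ℝ) ^ L = Real.exp (L * l) := by
      rw [hbe, ← Real.exp_nat_mul]
    rw [h1, ← le_div_iff₀ (Real.exp_pos _), ← Real.exp_sub] at hp
    refine hp.trans (Real.exp_le_exp.2 ?_)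
    have : T ≤ L * l := by rw [hT]; exact min_le_left _ _
    rw [hg]
    linarith
  have hd' : |(q' : ℝ) * y' - p'| ≤ Real.exp (g' + l + l' - T) := by
    have h1 : (b' : ℝ) ^ L' = Real.exp (L' * l') := by
      rw [hbe', ← Real.exp_nat_mul]
    rw [h1, ← le_div_iff₀ (Real.exp_pos _), ← Real.exp_sub] at hp'
    refine hp'.trans (Real.exp_le_exp.2 ?_)
    have : T ≤ L' * l' := by rw [hT]; exact min_le_right _ _
    rw [hg']
    linarith
  have hsum : (q' : ℝ) * |(q : ℝ) * y - p| + q * |(q' : ℝ) * y' - p'| ≤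
      2 * Real.exp (g + g' + l + l' - T) := by
    have h1 : (q' : ℝ) * |(q : ℝ) * y - p| ≤ Real.exp g' * Real.exp (g + l + l' - T) :=
      mul_le_mul hqe' hd (abs_nonneg _) (Real.exp_pos _).le
    have h2 : (q : ℝ) * |(q' : ℝ) * y' - p'| ≤ Real.exp g * Real.exp (g' + l + l' - T) :=
      mul_le_mul hqe hd' (abs_nonneg _) (Real.exp_pos _).le
    rw [← Real.exp_add] at h1 h2
    have e1 : g' + (g + l + l' - T) = g + g' + l + l' - T := by ring
    have e2 : g + (g' + l + l' - T) = g + g' + l + l' - T := by ring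
    rw [e1] at h1
    rw [e2] at h2
    linarith
  have hpw : ((q : ℝ) * q') ^ (1 + ε) ≤ Real.exp ((1 + ε) * (g + g')) := by
    have h1 : (q : ℝ) * q' ≤ Real.exp (g + g') := by
      rw [Real.exp_add]
      exact mul_le_mul hqe hqe' (by linarith) (Real.exp_pos _).le
    calc ((q : ℝ) * q') ^ (1 + ε) ≤ (Real.exp (g + g')) ^ (1 + ε) :=
          Real.rpow_le_rpow (by positivity) h1 (by linarith)
      _ = Real.exp ((1 + ε) * (g + g')) := by
          rw [← Real.exp_mul]; congr 1; ring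
  have hfin : c0 ≤ 2 * Real.exp ((2 + ε) * (g + g') + l + l' - T) := by
    calc c0 ≤ ((q : ℝ) * q') ^ (1 + ε) *
        ((q' : ℝ) * |(q : ℝ) * y - p| + q * |(q' : ℝ) * y' - p'|) := hpr
      _ ≤ Real.exp ((1 + ε) * (g + g')) * (2 * Real.exp (g + g' + l + l' - T)) :=
        mul_le_mul hpw hsum (by positivity) (Real.exp_pos _).le
      _ = 2 * Real.exp ((2 + ε) * (g + g') + l + l' - T) := by
        rw [mul_left_comm, ← Real.exp_add]
        congr 2
        ring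
  have hT2 : T ≤ (2 + ε) * (g + g') + l + l' + C1 := by
    have h1 : Real.exp (T - ((2 + ε) * (g + g') + l + l')) ≤ 2 / c0 := by
      rw [le_div_iff₀ hc0]
      have h2 := mul_le_mul_of_nonneg_left hfin
        (Real.exp_pos (T - ((2 + ε) * (g + g') + l + l'))).le
      refine h2.trans (le_of_eq ?_)
      rw [mul_left_comm, ← Real.exp_add]
      have : T - ((2 + ε) * (g + g') + l + l') + ((2 + ε) * (g + g') + l + l' - T) = 0 := by ring
      rw [this, Real.exp_zero, mul_one]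
    have h3 : T - ((2 + ε) * (g + g') + l + l') ≤ Real.log (2 / c0) := by
      rw [Real.le_log_iff_exp_le (by positivity)]
      exact h1
    have h4 := le_abs_self (Real.log (2 / c0))
    rw [← hC1] at h4
    linarith
  have hgl : g ≤ (1 + ε) * (m * l) + K * l := by
    rw [hg]
    have := mul_le_mul_of_nonneg_right hG (show (0 : ℝ) ≤ l by linarith)
    linarith
  have hgl' : g' ≤ (1 + ε) * (m' * l') + K * l' := by
    rw [hg']
    have := mul_le_mul_of_nonneg_right hG' (show (0 : ℝ) ≤ l' by linarith)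
    linarith
  have hml : 0 ≤ (m : ℝ) * l := by positivity
  have hml' : 0 ≤ (m' : ℝ) * l' := by positivity
  have hsumg : (2 + ε) * (g + g') ≤ (2 + ε) * ((1 + ε) * (m * l + m' * l') + K * (l + l')) :=
    mul_le_mul_of_nonneg_left (by linarith) (by linarith)
  have h5 : (2 + ε) * ((1 + ε) * (m * l + m' * l')) ≤ (2 + η) * (m * l + m' * l') := by
    rw [← mul_assoc]
    apply mul_le_mul_of_nonneg_right _ (by linarith)
    have e1 : ε * ε ≤ 1 * ε := mul_le_mul_of_nonneg_right hε1 hε0.le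
    linarith
  have h6 : (2 + ε) * (K * (l + l')) ≤ 3 * (K * (l + l')) :=
    mul_le_mul_of_nonneg_right (by linarith) (by positivity)
  have h7 : C1 ≤ C1 * (l + l') := le_mul_of_one_le_right hC10 (by linarith)
  have h8 : (2 + ε) * ((1 + ε) * (m * l + m' * l') + K * (l + l')) =
      (2 + ε) * ((1 + ε) * (m * l + m' * l')) + (2 + ε) * (K * (l + l')) := by ring
  rw [h8] at hsumg
  have h9 : (3 * K + 1 + C1) * (l + l') = 3 * (K * (l + l')) + (l + l') + C1 * (l + l') := by ring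
  rw [h9]
  linarith

end Pool.Agent.R354.LC
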