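import Mathlib

open scoped ENNReal
open Metric Filter

namespace Pool.Agent.R354.SSC

/-- The Banach space of the example: pairs (x, y) with x in l1 and y in l2. -/
abbrev Esp : Type := lp (fun _ : ℕ => ℂ) 1 × lp (fun _ : ℕ => ℂ) 2

/-- The weights: 1 at odd indices, exp (sqrt j) at even indices. -/
noncomputable def nu (j : ℕ) : ℝ := if j % 2 = 0 then Real.exp (Real.sqrt j) else 1

lemma nu_pos (j : ℕ) : 0 < nu j := by
  unfold nu; split_ifs <;> positivity

lemma nu_le (j : ℕ) : nu j ≤ Real.exp (Real.sqrt j) := by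
  unfold nu; split_ifs
  · exact le_rfl
  · exact Real.one_le_exp (Real.sqrt_nonneg _)

/-- Taylor coefficients of the function attached to (x, y). -/
noncomputable def coef (f : Esp) (n : ℕ) : ℂ :=
  if n % 2 = 0 then (nu (n / 2) : ℂ) * f.2 (n / 2) else f.1 (n / 2)

lemma coef_add (f g : Esp) (n : ℕ) : coef (f + g) n = coef f n + coef g n := by
  unfold coef
  split_ifs
  · simp [mul_add]
  · simp

lemma coef_smul (c : ℂ) (f : Esp) (n : ℕ) : coef (c • f) n = c * coef f n := by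
  unfold coef
  split_ifs
  · simp; ring
  · simp

lemma norm_coef_le (f : Esp) (n : ℕ) : ‖coef f n‖ ≤ ‖f‖ * Real.exp (Real.sqrt n) := by
  have h1 : Real.sqrt ((n / 2 : ℕ) : ℝ) ≤ Real.sqrt n := by
    apply Real.sqrt_le_sqrt
    exact_mod_cast Nat.div_le_self n 2
  have h2 : Real.exp (Real.sqrt ((n / 2 : ℕ) : ℝ)) ≤ Real.exp (Real.sqrt n) := Real.exp_le_exp.mpr h1
  have h3 : (1 : ℝ) ≤ Real.exp (Real.sqrt n) := Real.one_le_exp (Real.sqrt_nonneg _)
  unfold coef
  split_ifs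
  · rw [norm_mul, Complex.norm_real, Real.norm_of_nonneg (nu_pos _).le, mul_comm]
    have h4 : ‖f.2 (n / 2)‖ ≤ ‖f‖ :=
      (lp.norm_apply_le_norm (by norm_num) f.2 (n / 2)).trans (norm_snd_le f)
    exact mul_le_mul h4 ((nu_le _).trans h2) (nu_pos _).le (norm_nonneg _)
  · have h4 : ‖f.1 (n / 2)‖ ≤ ‖f‖ :=
      (lp.norm_apply_le_norm (by norm_num) f.1 (n / 2)).trans (norm_fst_le f)
    calc ‖f.1 (n / 2)‖ ≤ ‖f‖ * 1 := by simpa using h4
      _ ≤ ‖f‖ * Real.exp (Real.sqrt n) := by gcongr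

lemma summable_w {r : ℝ} (h0 : 0 < r) (h1 : r < 1) :
    Summable fun n : ℕ => Real.exp (Real.sqrt n) * r ^ n := by
  set e : ℝ := -Real.log r / 2 with he
  have hlog : Real.log r < 0 := Real.log_neg h0 h1
  have hepos : 0 < e := by rw [he]; linarith
  have hq : Real.exp (e) * r < 1 := by
    have : Real.exp e * r = Real.exp (e + Real.log r) := by
      rw [Real.exp_add, Real.exp_log h0]
    rw [this, Real.exp_lt_one_iff]
    rw [he]; linarith
  have hg : Summable fun n : ℕ => Real.exp (1 / (4 * e)) * (Real.exp e * r) ^ n :=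
    (summable_geometric_of_lt_one (by positivity) hq).mul_left _
  refine Summable.of_nonneg_of_le (fun n => by positivity) (fun n => ?_) hg
  rw [mul_pow, ← mul_assoc]
  gcongr
  rw [← Real.exp_nat_mul, ← Real.exp_add]
  apply Real.exp_le_exp.mpr
  set s := Real.sqrt n with hs
  have hsq : (n : ℝ) = s ^ 2 := (Real.sq_sqrt (Nat.cast_nonneg n)).symm
  rw [hsq]
  have : 1 / (4 * e) + s ^ 2 * e - s = e * (s - 1 / (2 * e)) ^ 2 := by
    field_simp
    ring
  have h2 : 0 ≤ e * (s - 1 / (2 * e)) ^ 2 := by positivity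
  linarith

lemma summable_w' {r : ℝ} (h0 : 0 ≤ r) (h1 : r < 1) :
    Summable fun n : ℕ => Real.exp (Real.sqrt n) * r ^ n := by
  have h2 := summable_w (r := (r + 1) / 2) (by linarith) (by linarith)
  refine Summable.of_nonneg_of_le (fun n => by positivity) (fun n => ?_) h2
  gcongr
  linarith

lemma summable_coef (f : Esp) {z : ℂ} (hz : ‖z‖ < 1) : Summable fun n => coef f n * z ^ n := by
  apply Summable.of_norm
  refine Summable.of_nonneg_of_le (fun n => norm_nonneg _) (fun n => ?_)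
    ((summable_w' (norm_nonneg z) hz).mul_left ‖f‖)
  rw [norm_mul, norm_pow, ← mul_assoc]
  gcongr
  exact norm_coef_le f n

/-- The analytic function attached to (x, y):
sum of x_i z^(2i+1) plus sum of nu_j y_j z^(2j). -/
noncomputable def fn (f : Esp) (z : ℂ) : ℂ := ∑' n : ℕ, coef f n * z ^ n

/-- the power series of fn f -/
noncomputable def ps (f : Esp) : FormalMultilinearSeries ℂ ℂ ℂ :=
  FormalMultilinearSeries.ofScalars ℂ (coef f)

lemma radius_ps (f : Esp) : 1 ≤ (ps f).radius := by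
  refine le_of_forall_lt_imp_le_of_dense ?_
  intro r hr
  lift r to NNReal using (lt_trans hr ENNReal.one_lt_top).ne
  apply FormalMultilinearSeries.le_radius_of_summable
  have hr1 : (r : ℝ) < 1 := by exact_mod_cast hr
  refine Summable.of_nonneg_of_le (fun n => by positivity) (fun n => ?_)
    ((summable_w' r.2 hr1).mul_left ‖f‖)
  rw [← mul_assoc]
  have : ‖ps f n‖ = ‖coef f n‖ := by
    unfold ps
    simp
  rw [this]
  gcongr
  · exact norm_coef_le f n
  · exact le_rfl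

lemma hasFPS (f : Esp) : HasFPowerSeriesOnBall (fn f) (ps f) 0 1 := by
  have h1 : HasFPowerSeriesOnBall (ps f).sum (ps f) 0 (ps f).radius :=
    (ps f).hasFPowerSeriesOnBall (lt_of_lt_of_le one_pos (radius_ps f))
  have h2 := h1.mono one_pos (radius_ps f)
  have h3 : (ps f).sum = fn f := by
    funext z
    unfold fn ps
    have h := FormalMultilinearSeries.ofScalars_sum_eq (coef f) z
    unfold FormalMultilinearSeries.ofScalarsSum at h
    rw [h]
    simp only [smul_eq_mul]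
  rwa [h3] at h2

lemma fn_analytic (f : Esp) : AnalyticOnNhd ℂ (fn f) (ball 0 1) := by
  have := (hasFPS f).analyticOnNhd
  have h : Metric.eball (0 : ℂ) 1 = ball 0 1 := by
    rw [← Metric.eball_ofReal, ENNReal.ofReal_one]
  rwa [h] at this

lemma fn_inj (f : Esp) (h : ∀ z ∈ ball (0 : ℂ) 1, fn f z = 0) : f = 0 := by
  have h1 : HasFPowerSeriesAt (0 : ℂ → ℂ) (ps f) 0 := by
    refine (hasFPS f).hasFPowerSeriesAt.congr ?_
    filter_upwards [ball_mem_nhds (0 : ℂ) one_pos] with z hz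
    exact h z hz
  have h2 := h1.eq_zero
  have h3 : ∀ n, coef f n = 0 := by
    intro n
    have h4 : ps f n = 0 := by rw [h2]; rfl
    unfold ps at h4
    exact (FormalMultilinearSeries.ofScalars_eq_zero ℂ n).mp h4
  refine Prod.ext ?_ ?_
  · ext i
    have := h3 (2 * i + 1)
    unfold coef at this
    rw [if_neg (by omega), show (2 * i + 1) / 2 = i by omega] at this
    simpa using this
  · ext i
    have := h3 (2 * i)
    unfold coef at this
    rw [if_pos (by omega), show (2 * i) / 2 = i by omega] at this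
    have hn : (nu i : ℂ) ≠ 0 := by exact_mod_cast (nu_pos i).ne'
    rcases mul_eq_zero.mp this with h' | h'
    · exact absurd h' hn
    · simpa using h'

/-- evaluation as a linear map -/
noncomputable def evL : Esp →ₗ[ℂ] (ball (0 : ℂ) 1 → ℂ) where
  toFun f z := fn f z
  map_add' f g := by
    funext z
    have hz : ‖(z : ℂ)‖ < 1 := mem_ball_zero_iff.mp z.2
    simp only [Pi.add_apply, fn]
    rw [← (summable_coef f hz).tsum_add (summable_coef g hz)]
    congr 1
    funext n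
    rw [coef_add]; ring
  map_smul' c f := by
    funext z
    simp only [Pi.smul_apply, fn, RingHom.id_apply, smul_eq_mul]
    rw [← tsum_mul_left]
    congr 1
    funext n
    rw [coef_smul]; ring

lemma fn_bound {z : ℂ} (hz : ‖z‖ < 1) :
    ∃ C : ℝ, ∀ f : Esp, ‖fn f z‖ ≤ C * ‖f‖ := by
  refine ⟨∑' n : ℕ, Real.exp (Real.sqrt n) * ‖z‖ ^ n, fun f => ?_⟩
  rw [mul_comm, ← tsum_mul_left]
  unfold fn
  refine (norm_tsum_le_tsum_norm (summable_coef f hz).norm).trans ?_
  refine Summable.tsum_le_tsum (fun n => ?_) (summable_coef f hz).norm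
    ((summable_w' (norm_nonneg z) hz).mul_left ‖f‖)
  rw [norm_mul, norm_pow, ← mul_assoc]
  gcongr
  exact norm_coef_le f n

end Pool.Agent.R354.SSC

namespace Pool.Agent.R354.SSC

/-! ### signs and the trace bound -/

lemma exists_signs {H : Type*} [NormedAddCommGroup H] [InnerProductSpace ℂ H] (v : ℕ → H) (L : ℕ) :
    ∃ ε : ℕ → ℂ, (∀ n, ε n = 1 ∨ ε n = -1) ∧
      ∑ n ∈ Finset.range L, ‖v n‖ ^ 2 ≤ ‖∑ n ∈ Finset.range L, ε n • v n‖ ^ 2 := by
  induction L with
  | zero => exact ⟨fun _ => 1, fun _ => Or.inl rfl, by simp⟩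
  | succ L ih =>
    obtain ⟨ε, h1, h2⟩ := ih
    set s := ∑ n ∈ Finset.range L, ε n • v n with hs
    have hpl := parallelogram_law_with_norm ℂ s (v L)
    have key : ∀ c : ℂ, (∑ n ∈ Finset.range (L + 1), (Function.update ε L c) n • v n) =
        s + c • v L := by
      intro c
      rw [Finset.sum_range_succ, Function.update_self, hs]
      congr 1
      refine Finset.sum_congr rfl fun n hn => ?_
      rw [Function.update_of_ne (Finset.mem_range.mp hn).ne]
    by_cases hc : ‖s‖ ^ 2 + ‖v L‖ ^ 2 ≤ ‖s + v L‖ ^ 2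
    · refine ⟨Function.update ε L 1, fun n => ?_, ?_⟩
      · by_cases hn : n = L
        · subst hn; simp
        · rw [Function.update_of_ne hn]; exact h1 n
      · rw [key, one_smul, Finset.sum_range_succ]
        linarith
    · refine ⟨Function.update ε L (-1), fun n => ?_, ?_⟩
      · by_cases hn : n = L
        · subst hn; simp
        · rw [Function.update_of_ne hn]; exact h1 n
      · rw [key, Finset.sum_range_succ]
        have : s + (-1 : ℂ) • v L = s - v L := by rw [neg_one_smul]; abel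
        rw [this]
        push Not at hc
        linarith

lemma trace_bound (r : ℕ) (K : ℝ) (hK : 0 ≤ K) (b : Fin r → ℕ → ℂ)
    (hb : ∀ k, HasSum (fun n => ‖b k n‖ ^ 2) 1)
    (h : ∀ a : EuclideanSpace ℂ (Fin r), ∀ L : ℕ,
      ∑ n ∈ Finset.range L, ‖∑ k, a k * b k n‖ ≤ K * ‖a‖) : (r : ℝ) ≤ K ^ 2 := by
  have hL : ∀ L : ℕ, ∑ k : Fin r, ∑ n ∈ Finset.range L, ‖b k n‖ ^ 2 ≤ K ^ 2 := by
    intro L
    let v : ℕ → EuclideanSpace ℂ (Fin r) := fun n => WithLp.toLp 2 fun k => (starRingEnd ℂ) (b k n)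
    obtain ⟨ε, h1, h2⟩ := exists_signs v L
    set w := ∑ n ∈ Finset.range L, ε n • v n with hw
    have hin : ∀ (n : ℕ) (a : EuclideanSpace ℂ (Fin r)), inner ℂ (v n) a = ∑ k, a k * b k n := by
      intro n a
      rw [PiLp.inner_apply]
      refine Finset.sum_congr rfl fun k _ => ?_
      simp [v]
    have hnorm : ‖w‖ ^ 2 ≤ K * ‖w‖ := by
      have e1 : (‖w‖ : ℝ) ^ 2 = ‖inner ℂ w w‖ := by
        rw [inner_self_eq_norm_sq_to_K]
        simp
      rw [e1]
      have e2 : inner ℂ w w = ∑ n ∈ Finset.range L, (starRingEnd ℂ) (ε n) * inner ℂ (v n) w := by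
        conv_lhs => rw [hw, sum_inner]
        refine Finset.sum_congr rfl fun n _ => ?_
        rw [inner_smul_left]
      rw [e2]
      refine (norm_sum_le _ _).trans ?_
      refine le_trans (Finset.sum_le_sum fun n _ => ?_) (h w L)
      rw [norm_mul, hin]
      have : ‖(starRingEnd ℂ) (ε n)‖ = 1 := by
        rcases h1 n with h' | h' <;> simp [h']
      rw [this, one_mul]
    have hwK : ‖w‖ ≤ K := by
      by_contra hcon
      push Not at hcon
      nlinarith [norm_nonneg w]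
    have hv : ∀ n, ‖v n‖ ^ 2 = ∑ k, ‖b k n‖ ^ 2 := by
      intro n
      rw [EuclideanSpace.norm_sq_eq]
      refine Finset.sum_congr rfl fun k _ => ?_
      simp [v]
    calc ∑ k : Fin r, ∑ n ∈ Finset.range L, ‖b k n‖ ^ 2
        = ∑ n ∈ Finset.range L, ‖v n‖ ^ 2 := by
          rw [Finset.sum_comm]
          exact Finset.sum_congr rfl fun n _ => (hv n).symm
      _ ≤ ‖w‖ ^ 2 := h2
      _ ≤ K ^ 2 := by gcongr
  have hlim : Filter.Tendsto (fun L : ℕ => ∑ k : Fin r, ∑ n ∈ Finset.range L, ‖b k n‖ ^ 2)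
      Filter.atTop (nhds (∑ _k : Fin r, (1 : ℝ))) :=
    tendsto_finsetSum _ fun k _ => (hb k).tendsto_sum_nat
  have := le_of_tendsto' hlim hL
  simpa using this

/-! ### the composition operator -/

lemma l2_hasSum (f : lp (fun _ : ℕ => ℂ) 2) : HasSum (fun i => ‖f i‖ ^ 2) (‖f‖ ^ 2) := by
  have := lp.hasSum_norm (p := 2) (by norm_num) f
  simpa using this

lemma l1_hasSum (f : lp (fun _ : ℕ => ℂ) 1) : HasSum (fun i => ‖f i‖) (‖f‖) := by
  have := lp.hasSum_norm (p := 1) (by norm_num) f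
  simpa using this

/-- ratio of weights -/
noncomputable def kap (m : ℕ) : ℝ := nu m / nu (2 * m)

lemma kap_pos (m : ℕ) : 0 < kap m := div_pos (nu_pos _) (nu_pos _)

lemma kap_le (m : ℕ) : kap m ≤ Real.exp (-(Real.sqrt m / 3)) := by
  unfold kap
  have h2 : nu (2 * m) = Real.exp (Real.sqrt ((2 * m : ℕ) : ℝ)) := by
    unfold nu; rw [if_pos (by omega)]
  rw [h2, div_le_iff₀ (Real.exp_pos _), ← Real.exp_add]
  refine (nu_le m).trans (Real.exp_le_exp.mpr ?_)
  push_cast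
  have h3 : Real.sqrt (2 * (m : ℝ)) = Real.sqrt 2 * Real.sqrt m := Real.sqrt_mul (by norm_num) _
  rw [h3]
  have h4 : (4 : ℝ) / 3 ≤ Real.sqrt 2 := by
    apply Real.le_sqrt_of_sq_le; norm_num
  nlinarith [Real.sqrt_nonneg (m : ℝ)]

lemma kap_le_one (m : ℕ) : kap m ≤ 1 := by
  refine (kap_le m).trans ?_
  rw [Real.exp_le_one_iff]
  have := Real.sqrt_nonneg (m : ℝ)
  linarith

lemma kap_tendsto : Filter.Tendsto kap Filter.atTop (nhds 0) := by
  refine squeeze_zero (fun m => (kap_pos m).le) kap_le ?_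
  apply Real.tendsto_exp_atBot.comp
  apply Filter.tendsto_neg_atTop_atBot.comp
  exact (Real.tendsto_sqrt_atTop.comp tendsto_natCast_atTop_atTop).atTop_div_const (by norm_num)

/-- second component of T f -/
noncomputable def tg (f : Esp) (j : ℕ) : ℂ := coef f j / (nu j : ℂ)

lemma tg_even (f : Esp) (m : ℕ) : tg f (2 * m) = (kap m : ℂ) * f.2 m := by
  unfold tg coef kap
  rw [if_pos (by omega), show 2 * m / 2 = m by omega]
  push_cast
  ring

lemma tg_odd (f : Esp) (m : ℕ) : tg f (2 * m + 1) = f.1 m := by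
  unfold tg coef nu
  rw [if_neg (by omega), if_neg (by omega), show (2 * m + 1) / 2 = m by omega]
  simp

lemma tg_add (f g : Esp) (n : ℕ) : tg (f + g) n = tg f n + tg g n := by
  unfold tg; rw [coef_add]; ring

lemma tg_smul (c : ℂ) (f : Esp) (n : ℕ) : tg (c • f) n = c * tg f n := by
  unfold tg; rw [coef_smul]; ring

lemma sum_sq_l1 (x : lp (fun _ : ℕ => ℂ) 1) :
    Summable (fun i => ‖x i‖ ^ 2) ∧ ∑' i, ‖x i‖ ^ 2 ≤ ‖x‖ ^ 2 := by
  have h1 := l1_hasSum x
  have hle : ∀ i, ‖x i‖ ^ 2 ≤ ‖x‖ * ‖x i‖ := by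
    intro i
    rw [sq]
    gcongr
    exact lp.norm_apply_le_norm (by norm_num) x i
  have hs : Summable (fun i => ‖x i‖ ^ 2) :=
    Summable.of_nonneg_of_le (fun i => by positivity) hle (h1.summable.mul_left _)
  refine ⟨hs, ?_⟩
  calc ∑' i, ‖x i‖ ^ 2 ≤ ∑' i, ‖x‖ * ‖x i‖ := hs.tsum_le_tsum hle (h1.summable.mul_left _)
    _ = ‖x‖ * ‖x‖ := by rw [tsum_mul_left, h1.tsum_eq]
    _ = ‖x‖ ^ 2 := by ring

lemma tg_hasSum (f : Esp) :
    HasSum (fun j => ‖tg f j‖ ^ 2) ((∑' m, (kap m * ‖f.2 m‖) ^ 2) + ∑' i, ‖f.1 i‖ ^ 2) := by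
  have hs2 : Summable fun m => (kap m * ‖f.2 m‖) ^ 2 := by
    refine Summable.of_nonneg_of_le (fun i => by positivity) (fun m => ?_) (l2_hasSum f.2).summable
    have h1 := kap_le_one m
    have h2 := (kap_pos m).le
    calc (kap m * ‖f.2 m‖) ^ 2 ≤ (1 * ‖f.2 m‖) ^ 2 := by gcongr
      _ = ‖f.2 m‖ ^ 2 := by ring
  refine HasSum.even_add_odd ?_ ?_
  · have : (fun k => ‖tg f (2 * k)‖ ^ 2) = fun m => (kap m * ‖f.2 m‖) ^ 2 := by
      funext m
      rw [tg_even, norm_mul, Complex.norm_real, Real.norm_of_nonneg (kap_pos m).le]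
    rw [this]
    exact hs2.hasSum
  · have : (fun k => ‖tg f (2 * k + 1)‖ ^ 2) = fun i => ‖f.1 i‖ ^ 2 := by
      funext m
      rw [tg_odd]
    rw [this]
    exact (sum_sq_l1 f.1).1.hasSum

lemma tg_mem (f : Esp) : Memℓp (tg f) 2 := by
  apply memℓp_gen
  have := (tg_hasSum f).summable
  simpa using this

/-- the composition operator with symbol z^2, as a linear map of coefficient pairs -/
noncomputable def Tlin : Esp →ₗ[ℂ] Esp where
  toFun f := (0, ⟨tg f, tg_mem f⟩)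
  map_add' f g := by
    refine Prod.ext (by simp) ?_
    ext n
    simp only [Prod.snd_add, lp.coeFn_add, Pi.add_apply]
    exact tg_add f g n
  map_smul' c f := by
    refine Prod.ext (by simp) ?_
    ext n
    simp only [Prod.smul_snd, lp.coeFn_smul, Pi.smul_apply, RingHom.id_apply, smul_eq_mul]
    exact tg_smul c f n

lemma norm_Tlin_sq (f : Esp) :
    ‖Tlin f‖ ^ 2 = (∑' m, (kap m * ‖f.2 m‖) ^ 2) + ∑' i, ‖f.1 i‖ ^ 2 := by
  have h1 : ‖Tlin f‖ = ‖(⟨tg f, tg_mem f⟩ : lp (fun _ : ℕ => ℂ) 2)‖ := by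
    change max ‖(0 : lp (fun _ : ℕ => ℂ) 1)‖ ‖(⟨tg f, tg_mem f⟩ : lp (fun _ : ℕ => ℂ) 2)‖ = _
    rw [norm_zero, max_eq_right (norm_nonneg _)]
  rw [h1]
  exact (l2_hasSum _).unique (tg_hasSum f)

lemma norm_Tlin_le (f : Esp) : ‖Tlin f‖ ≤ 2 * ‖f‖ := by
  have h := norm_Tlin_sq f
  have h1 : ∑' m, (kap m * ‖f.2 m‖) ^ 2 ≤ ‖f.2‖ ^ 2 := by
    rw [← (l2_hasSum f.2).tsum_eq]
    have hle : ∀ m, (kap m * ‖f.2 m‖) ^ 2 ≤ ‖f.2 m‖ ^ 2 := by
      intro m
      have h1 := kap_le_one m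
      have h2 := (kap_pos m).le
      calc (kap m * ‖f.2 m‖) ^ 2 ≤ (1 * ‖f.2 m‖) ^ 2 := by gcongr
        _ = ‖f.2 m‖ ^ 2 := by ring
    exact Summable.tsum_le_tsum hle (Summable.of_nonneg_of_le (fun i => by positivity) hle
      (l2_hasSum f.2).summable) (l2_hasSum f.2).summable
  have h2 := (sum_sq_l1 f.1).2
  have h3 : ‖f.1‖ ^ 2 ≤ ‖f‖ ^ 2 := by gcongr; exact norm_fst_le f
  have h4 : ‖f.2‖ ^ 2 ≤ ‖f‖ ^ 2 := by gcongr; exact norm_snd_le f
  have h5 : ‖Tlin f‖ ^ 2 ≤ (2 * ‖f‖) ^ 2 := by nlinarith [norm_nonneg f]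
  exact le_of_sq_le_sq h5 (by positivity)

/-- the composition operator with symbol z^2 -/
noncomputable def T : Esp →L[ℂ] Esp := Tlin.mkContinuous 2 norm_Tlin_le

lemma T_apply (f : Esp) : T f = Tlin f := rfl

lemma fn_T (f : Esp) (z : ℂ) : fn (T f) z = fn f (z ^ 2) := by
  unfold fn
  have hinj : Function.Injective (fun n : ℕ => 2 * n) := fun a b h => by
    simpa using h
  rw [← hinj.tsum_eq]
  · congr 1
    funext n
    have : coef (T f) (2 * n) = coef f n := by
      have hn : (nu n : ℂ) ≠ 0 := by exact_mod_cast (nu_pos n).ne'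
      have : (T f).2 n = tg f n := rfl
      rw [coef, if_pos (by omega), show 2 * n / 2 = n by omega, this, tg]
      field_simp
    rw [this, pow_mul]
  · intro n hn
    rw [Function.mem_support] at hn
    by_contra hcon
    apply hn
    have : coef (T f) n = 0 := by
      have hodd : ¬ n % 2 = 0 := by
        intro h
        exact hcon ⟨n / 2, by simp only; omega⟩
      unfold coef
      rw [if_neg hodd]
      rfl
    rw [this, zero_mul]

end Pool.Agent.R354.SSC

namespace Pool.Agent.R354.SSC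

/-- the i-th unit vector of the l1 part -/
noncomputable def fe (i : ℕ) : Esp := (lp.single 1 i (1 : ℂ), 0)

lemma norm_fe (i : ℕ) : ‖fe i‖ ≤ 1 := by
  unfold fe
  rw [Prod.norm_def]
  simp [lp.norm_single]

lemma T_fe_dist {i j : ℕ} (hij : i ≠ j) : 1 ≤ dist (T (fe i)) (T (fe j)) := by
  rw [dist_eq_norm, ← map_sub]
  have h1 : ‖(T (fe i - fe j)).2 (2 * i + 1)‖ ≤ ‖T (fe i - fe j)‖ :=
    (lp.norm_apply_le_norm (by norm_num) _ _).trans (norm_snd_le _)
  have h2 : (T (fe i - fe j)).2 (2 * i + 1) = 1 := by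
    have : (T (fe i - fe j)).2 (2 * i + 1) = tg (fe i - fe j) (2 * i + 1) := rfl
    rw [this, tg_odd]
    have h3 : (fe i - fe j).1 = lp.single 1 i (1 : ℂ) - lp.single 1 j (1 : ℂ) := rfl
    rw [h3, lp.coeFn_sub, Pi.sub_apply, lp.single_apply_self, lp.single_apply_ne _ _ _ hij]
    simp
  rw [h2] at h1
  simpa using h1

lemma T_not_compact : ¬ IsCompactOperator T := by
  intro hT
  obtain ⟨K, hK, hsub⟩ := hT.image_closedBall_subset_compact 1
  obtain ⟨a, -, φ, hφ, hlim⟩ := hK.tendsto_subseq (x := fun i => T (fe i))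
    (fun i => hsub ⟨fe i, by simpa using norm_fe i, rfl⟩)
  have hc := hlim.cauchySeq
  rw [Metric.cauchySeq_iff] at hc
  obtain ⟨N, hN⟩ := hc 1 one_pos
  have := hN N le_rfl (N + 1) (Nat.le_succ N)
  have h2 := T_fe_dist (i := φ N) (j := φ (N + 1)) (hφ (Nat.lt_succ_self N)).ne
  exact absurd this (not_lt.mpr h2)

/-- inclusion of the l1 part in l2 -/
noncomputable def J : Esp →ₗ[ℂ] lp (fun _ : ℕ => ℂ) 2 where
  toFun f := ⟨f.1, (lp.memℓp f.1).of_exponent_ge (by norm_num)⟩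
  map_add' f g := by ext n; simp
  map_smul' c f := by ext n; rfl

lemma J_apply (f : Esp) (n : ℕ) : J f n = f.1 n := rfl

lemma norm_J_sq (f : Esp) : ‖J f‖ ^ 2 = ∑' i, ‖f.1 i‖ ^ 2 := (l2_hasSum (J f)).tsum_eq.symm

lemma infdim_ker {V : Type*} [AddCommGroup V] [Module ℂ V] (hV : ¬ Module.Finite ℂ V) (N : ℕ)
    (P : V →ₗ[ℂ] (Fin N → ℂ)) : ¬ Module.Finite ℂ (LinearMap.ker P) := by
  intro h
  apply hV
  have : Module.Finite ℂ (V ⧸ LinearMap.ker P) :=
    Module.Finite.equiv (LinearMap.quotKerEquivRange P).symm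
  exact Module.Finite.of_submodule_quotient (LinearMap.ker P)

lemma exists_fam {V : Type*} [AddCommGroup V] [Module ℂ V] (M : Submodule ℂ V)
    (hM : ¬ Module.Finite ℂ M) (N r : ℕ) (P : V →ₗ[ℂ] (Fin N → ℂ)) :
    ∃ w : Fin r → V, LinearIndependent ℂ w ∧ ∀ i, w i ∈ M ∧ P (w i) = 0 := by
  have hker := infdim_ker hM N (P ∘ₗ M.subtype)
  have hrank : (r : Cardinal) ≤ Module.rank ℂ (LinearMap.ker (P ∘ₗ M.subtype)) := by
    have : Cardinal.aleph0 ≤ Module.rank ℂ (LinearMap.ker (P ∘ₗ M.subtype)) := by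
      by_contra hlt
      rw [not_le] at hlt
      exact hker (Module.rank_lt_aleph0_iff.mp hlt)
    exact (Cardinal.natCast_le_aleph0).trans this
  obtain ⟨w, hw⟩ := exists_linearIndependent_of_le_rank hrank
  refine ⟨fun i => ((w i : M) : V), ?_, fun i => ⟨(w i : M).2, ?_⟩⟩
  · have h1 : LinearIndependent ℂ (fun i => (w i : M)) :=
      hw.map' (LinearMap.ker (P ∘ₗ M.subtype)).subtype (Submodule.ker_subtype _)
    exact h1.map' M.subtype (Submodule.ker_subtype _)
  · exact LinearMap.mem_ker.mp (w i).2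

/-- coordinates of the second part -/
noncomputable def Pm (N : ℕ) : Esp →ₗ[ℂ] (Fin N → ℂ) where
  toFun f k := f.2 k
  map_add' f g := by funext k; simp
  map_smul' c f := by funext k; simp

/-- the subspace of M of pairs whose second component vanishes at the first N places -/
noncomputable def Ws (M : Submodule ℂ Esp) (N : ℕ) : Submodule ℂ Esp where
  carrier := {f | f ∈ M ∧ ∀ k < N, f.2 k = 0}
  add_mem' := by
    rintro f g ⟨h1, h2⟩ ⟨h3, h4⟩
    refine ⟨M.add_mem h1 h3, fun k hk => ?_⟩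
    rw [Prod.snd_add, lp.coeFn_add, Pi.add_apply, h2 k hk, h4 k hk, add_zero]
  zero_mem' := ⟨M.zero_mem, fun k _ => rfl⟩
  smul_mem' := by
    rintro c f ⟨h1, h2⟩
    refine ⟨M.smul_mem c h1, fun k hk => ?_⟩
    rw [Prod.smul_snd, lp.coeFn_smul, Pi.smul_apply, h2 k hk, smul_zero]

lemma exists_family (M : Submodule ℂ Esp) (hM : ¬ Module.Finite ℂ M) (N r : ℕ) :
    ∃ w : Fin r → Esp, LinearIndependent ℂ w ∧ ∀ i, w i ∈ Ws M N := by
  obtain ⟨w, hw, h⟩ := exists_fam M hM N r (Pm N)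
  exact ⟨w, hw, fun i => ⟨(h i).1, fun k hk => congrFun (h i).2 ⟨k, hk⟩⟩⟩

lemma lower_bound (M : Submodule ℂ Esp) (c : ℝ) (hc : 0 < c) (hcon : ∀ f ∈ M, c * ‖f‖ ≤ ‖T f‖)
    (N : ℕ) (hN' : ∀ m, N ≤ m → kap m ≤ c / 2) :
    ∀ f ∈ Ws M N, ‖f‖ ≤ (2 / c) * ‖J f‖ := by
  rintro f ⟨hf, h0⟩
  have h1 := hcon f hf
  have h2 := norm_Tlin_sq f
  rw [← T_apply, ← norm_J_sq] at h2
  have h3 : ∑' m, (kap m * ‖f.2 m‖) ^ 2 ≤ (c / 2) ^ 2 * ‖f.2‖ ^ 2 := by
    rw [← (l2_hasSum f.2).tsum_eq, ← tsum_mul_left]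
    have hle : ∀ m, (kap m * ‖f.2 m‖) ^ 2 ≤ (c / 2) ^ 2 * ‖f.2 m‖ ^ 2 := by
      intro m
      by_cases hm : m < N
      · rw [h0 m hm]; simp
      · have h1 := hN' m (not_lt.mp hm)
        have h2 := (kap_pos m).le
        rw [← mul_pow]
        gcongr
    have hs : Summable fun m => (c / 2) ^ 2 * ‖f.2 m‖ ^ 2 :=
      (l2_hasSum f.2).summable.mul_left _
    exact Summable.tsum_le_tsum hle (Summable.of_nonneg_of_le (fun i => by positivity) hle hs) hs
  have h4 : ‖f.2‖ ^ 2 ≤ ‖f‖ ^ 2 := by gcongr; exact norm_snd_le f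
  have h5 : (c * ‖f‖) ^ 2 ≤ ‖T f‖ ^ 2 := by gcongr
  have h6 : (c / 2 * ‖f‖) ^ 2 ≤ ‖J f‖ ^ 2 := by
    have h61 : (c / 2) ^ 2 * ‖f.2‖ ^ 2 ≤ (c / 2) ^ 2 * ‖f‖ ^ 2 := by gcongr
    nlinarith [sq_nonneg (c * ‖f‖)]
  have h7 : c / 2 * ‖f‖ ≤ ‖J f‖ := le_of_sq_le_sq h6 (norm_nonneg _)
  have h8 : ‖f‖ = (2 / c) * (c / 2 * ‖f‖) := by field_simp
  rw [h8]
  gcongr

lemma norm_orth_sum {r : ℕ} (b : Fin r → lp (fun _ : ℕ => ℂ) 2) (hb : Orthonormal ℂ b)
    (a : EuclideanSpace ℂ (Fin r)) : ‖∑ k, a k • b k‖ = ‖a‖ := by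
  have h2 := hb.inner_sum (fun k => a k) (fun k => a k) Finset.univ
  have h3 : (‖∑ k, a k • b k‖ : ℂ) ^ 2 = inner ℂ (∑ k, a k • b k) (∑ k, a k • b k) := by
    rw [inner_self_eq_norm_sq_to_K]; rfl
  rw [h2] at h3
  have h4 : ((‖∑ k, a k • b k‖ ^ 2 : ℝ) : ℂ) = ((∑ k, ‖a k‖ ^ 2 : ℝ) : ℂ) := by
    push_cast
    rw [h3]
    refine Finset.sum_congr rfl fun k _ => ?_
    rw [Complex.conj_mul']
  have h5 := Complex.ofReal_injective h4
  rw [← EuclideanSpace.norm_sq_eq] at h5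
  exact (sq_eq_sq₀ (norm_nonneg _) (norm_nonneg _)).mp h5

/-- T is strictly singular, in the form: on every infinite dimensional subspace it is not
bounded below. -/
lemma T_strictlySingular (M : Submodule ℂ Esp) (hM : ¬ Module.Finite ℂ M) (c : ℝ) (hc : 0 < c) :
    ∃ f ∈ M, ‖T f‖ < c * ‖f‖ := by
  by_contra hcon
  push Not at hcon
  obtain ⟨N, hN⟩ := (Metric.tendsto_atTop.mp kap_tendsto) (c / 2) (by positivity)
  have hN' : ∀ m, N ≤ m → kap m ≤ c / 2 := by
    intro m hm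
    have := hN m hm
    rw [Real.dist_eq, sub_zero, abs_of_pos (kap_pos m)] at this
    exact this.le
  have hlow := lower_bound M c hc hcon N hN'
  obtain ⟨r, hr⟩ := exists_nat_gt ((2 / c) ^ 2)
  obtain ⟨w, hw, hwW⟩ := exists_family M hM N r
  have hspan : Submodule.span ℂ (Set.range w) ≤ Ws M N := by
    rw [Submodule.span_le]
    rintro _ ⟨i, rfl⟩
    exact hwW i
  have hdisj : Disjoint (Submodule.span ℂ (Set.range w)) (LinearMap.ker J) := by
    rw [Submodule.disjoint_def]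
    intro f hf hfJ
    have := hlow f (hspan hf)
    rw [LinearMap.mem_ker.mp hfJ, norm_zero, mul_zero] at this
    exact norm_le_zero_iff.mp this
  have hli : LinearIndependent ℂ (J ∘ w) := hw.map hdisj
  let b := InnerProductSpace.gramSchmidtNormed ℂ (J ∘ w)
  have hb : Orthonormal ℂ b := InnerProductSpace.gramSchmidtNormed_orthonormal hli
  have hbmem : ∀ k, b k ∈ (Ws M N).map J := by
    intro k
    have h1 : b k ∈ Submodule.span ℂ (Set.range b) := Submodule.subset_span ⟨k, rfl⟩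
    have h2 : Submodule.span ℂ (Set.range b) ≤ (Ws M N).map J := by
      rw [InnerProductSpace.span_gramSchmidtNormed_range, InnerProductSpace.span_gramSchmidt,
        Submodule.span_le]
      rintro _ ⟨i, rfl⟩
      exact ⟨w i, hwW i, rfl⟩
    exact h2 h1
  have htr := trace_bound r (2 / c) (by positivity) (fun k n => b k n) ?_ ?_
  · linarith
  · intro k
    have h1 := l2_hasSum (b k)
    have h2 : ‖b k‖ = 1 := hb.1 k
    rw [h2, one_pow] at h1
    exact h1
  · intro a L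
    have hsum : (∑ k, a k • b k) ∈ (Ws M N).map J :=
      Submodule.sum_mem _ fun k _ => Submodule.smul_mem _ _ (hbmem k)
    obtain ⟨g, hgW, hg⟩ := hsum
    have hn : ∀ n, ∑ k, a k * b k n = g.1 n := by
      intro n
      have h1 : (J g) n = g.1 n := rfl
      rw [← h1, hg, lp.coeFn_sum, Finset.sum_apply]
      refine Finset.sum_congr rfl fun k _ => ?_
      rw [lp.coeFn_smul, Pi.smul_apply, smul_eq_mul]
    calc ∑ n ∈ Finset.range L, ‖∑ k, a k * b k n‖
        = ∑ n ∈ Finset.range L, ‖g.1 n‖ :=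
          Finset.sum_congr rfl fun n _ => by rw [hn n]
      _ ≤ ‖g.1‖ := by
          have h1 := l1_hasSum g.1
          exact sum_le_hasSum _ (fun i _ => norm_nonneg _) h1
      _ ≤ ‖g‖ := norm_fst_le _
      _ ≤ (2 / c) * ‖J g‖ := hlow g hgW
      _ = (2 / c) * ‖a‖ := by rw [hg, norm_orth_sum b hb a]

end Pool.Agent.R354.SSC
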